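import Pool.Agent.Lib.MP_6cd19d_an.T2.G1
import Pool.Agent.Lib.MP_6cd19d_an.A.G2
import Pool.Agent.Lib.MP_6cd19d_an.ND.B07
import Pool.Agent.Lib.MP_6cd19d_an.A.P3

section

/-!
# Derivatives of the spheroidal coordinate
-/

set_option autoImplicit false

open MeasureTheory Set Filter Topology Metric
open scoped ENNReal NNReal RealInnerProductSpace

namespace Pool.Agent.Lib.MP_6cd19d_an.T2

open Pool.Agent.Lib.MP_6cd19d_an.ND Pool.Agent.Lib.MP_6cd19d_an.A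

variable {n : ℕ}

private theorem L2_line {Q : ℝ → ℝ} {A0 z0 c : ℝ}
    (hQ : ∀ s, HasDerivAt Q (4 * (z0 + s) * (A0 + 2 * s * z0 + s ^ 2 + c)) s) (h0 : 0 < Q 0) :
    D2 (fun s => (A0 + 2 * s * z0 + s ^ 2 + √(Q s)) / 2) 0 (z0 * (1 + (A0 + c) / √(Q 0)))
      ((1 + (A0 + c) / √(Q 0)) + 2 * z0 ^ 2 * (Q 0 - (A0 + c) ^ 2) / (√(Q 0)) ^ 3) := by
  have hcont : Continuous Q := continuous_iff_continuousAt.mpr fun s => (hQ s).continuousAt
  have hA : ∀ s : ℝ, HasDerivAt (fun s => A0 + 2 * s * z0 + s ^ 2) (2 * (z0 + s)) s := fun s => by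
    have h1 : HasDerivAt (fun s : ℝ => A0 + 2 * s * z0 + s ^ 2)
        (0 + 2 * 1 * z0 + 2 * s ^ 1 * 1) s :=
      (((hasDerivAt_const s A0).add (((hasDerivAt_id s).const_mul 2).mul_const z0))).add
        ((hasDerivAt_id s).pow 2)
    refine HasDerivAt.congr_deriv h1 ?_
    ring
  have hD : ∀ s, 0 < Q s → HasDerivAt (fun s => √(Q s))
      (4 * (z0 + s) * (A0 + 2 * s * z0 + s ^ 2 + c) / (2 * √(Q s))) s := fun s hs =>
    (hQ s).sqrt hs.ne'
  refine ⟨fun s => (z0 + s) * (1 + (A0 + 2 * s * z0 + s ^ 2 + c) / √(Q s)), ?_, ?_, ?_⟩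
  · filter_upwards [hcont.continuousAt.eventually (lt_mem_nhds h0)] with s hs
    have hr : 0 < √(Q s) := Real.sqrt_pos.mpr hs
    have h1 := ((hA s).add (hD s hs)).div_const 2
    refine HasDerivAt.congr_deriv h1 ?_
    field_simp
    ring
  · simp
  · have hr : 0 < √(Q 0) := Real.sqrt_pos.mpr h0
    have hr2 : √(Q 0) ^ 2 = Q 0 := Real.sq_sqrt h0.le
    have h1 := ((hasDerivAt_id (0 : ℝ)).const_add z0).mul
      ((((hA 0).add_const c).div (hD 0 h0) hr.ne').const_add 1)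
    refine HasDerivAt.congr_deriv h1 ?_
    simp only [id, mul_zero, zero_mul, add_zero, ne_eq, OfNat.ofNat_ne_zero, not_false_eq_true,
      zero_pow, Pi.div_apply, one_mul]
    obtain ⟨r, hrr⟩ : ∃ r, r = √(Q 0) := ⟨_, rfl⟩
    rw [← hrr] at hr hr2 ⊢
    rw [← hr2]
    field_simp
    ring

private theorem L2_norm (z : E (n + 1)) (i : Fin (n + 1)) (s : ℝ) :
    ‖z + s • (bv i : E (n + 1))‖ ^ 2 = ‖z‖ ^ 2 + 2 * s * z i + s ^ 2 := by
  rw [norm_add_sq_real, inner_smul_right, inner_bv, norm_smul, norm_bv, mul_one,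
    Real.norm_eq_abs, sq_abs]
  ring

private theorem L2_yc (z : E (n + 1)) (i : Fin (n + 1)) (s : ℝ) :
    yc (z + s • (bv i : E (n + 1))) = yc z + s * (if i = Fin.last n then 1 else 0) := by
  by_cases h : i = Fin.last n
  · subst h
    simp [yc, bv]
  · simp [yc, bv, h, Ne.symm h]

private theorem L2_two_lam (z : E (n + 1)) : 2 * lam z = (‖z‖ ^ 2 - 1) + disc z := by
  rw [lam]
  ring

private theorem L2_disc_sq (z : E (n + 1)) :
    disc z ^ 2 = (‖z‖ ^ 2 - 1) ^ 2 + 4 * (yc z) ^ 2 := by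
  rw [disc, Real.sq_sqrt (by positivity)]

private theorem L2_ne {z : E (n + 1)} (hz : z ∉ emb '' BB n) {i : Fin (n + 1)}
    (hi : i ≠ Fin.last n) :
    D2 (fun t : ℝ => lam (z + t • (bv i : E (n + 1)))) 0 (2 * z i * lam z / disc z)
      (2 * lam z / disc z + 8 * (z i) ^ 2 * (yc z) ^ 2 / disc z ^ 3) := by
  obtain ⟨hl, hd⟩ := lam_pos hz
  have hQ : ∀ s, HasDerivAt (fun s : ℝ => (‖z‖ ^ 2 - 1 + 2 * s * z i + s ^ 2) ^ 2 + 4 * (yc z) ^ 2)
      (4 * (z i + s) * (‖z‖ ^ 2 - 1 + 2 * s * z i + s ^ 2 + 0)) s := fun s => by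
    have h1 : HasDerivAt (fun s : ℝ => ‖z‖ ^ 2 - 1 + 2 * s * z i + s ^ 2)
        (0 + 2 * 1 * z i + 2 * s ^ 1 * 1) s :=
      (((hasDerivAt_const s (‖z‖ ^ 2 - 1)).add (((hasDerivAt_id s).const_mul 2).mul_const _))).add
        ((hasDerivAt_id s).pow 2)
    have h2 := (h1.pow 2).add_const (4 * (yc z) ^ 2)
    refine HasDerivAt.congr_deriv h2 ?_
    push_cast
    ring
  have hQ0 : (‖z‖ ^ 2 - 1 + 2 * (0 : ℝ) * z i + (0 : ℝ) ^ 2) ^ 2 + 4 * (yc z) ^ 2 = disc z ^ 2 := by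
    rw [L2_disc_sq]
    ring
  have h := L2_line hQ (by rw [hQ0]; positivity)
  simp only [hQ0, Real.sqrt_sq hd.le, add_zero] at h
  have h2 := L2_two_lam z
  have h3 := L2_disc_sq z
  have e1 : z i * (1 + (‖z‖ ^ 2 - 1) / disc z) = 2 * z i * lam z / disc z := by
    have : lam z = ((‖z‖ ^ 2 - 1) + disc z) / 2 := by linarith
    rw [this]
    field_simp
    ring
  have e2 : 1 + (‖z‖ ^ 2 - 1) / disc z + 2 * z i ^ 2 * (disc z ^ 2 - (‖z‖ ^ 2 - 1) ^ 2) / disc z ^ 3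
      = 2 * lam z / disc z + 8 * (z i) ^ 2 * (yc z) ^ 2 / disc z ^ 3 := by
    have e3 : disc z ^ 2 - (‖z‖ ^ 2 - 1) ^ 2 = 4 * (yc z) ^ 2 := by rw [h3]; ring
    rw [e3, h2]
    field_simp
    ring
  rw [e1, e2] at h
  refine D2.congr h (Filter.Eventually.of_forall fun s => ?_)
  show lam (z + s • (bv i : E (n + 1))) = _
  rw [lam, disc, L2_norm, L2_yc, if_neg hi, mul_zero, add_zero]
  congr 3 <;> ring_nf

private theorem L2_last {z : E (n + 1)} (hz : z ∉ emb '' BB n) :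
    D2 (fun t : ℝ => lam (z + t • (bv (Fin.last n) : E (n + 1)))) 0
      (2 * z (Fin.last n) * (lam z + 1) / disc z)
      (2 * (lam z + 1) / disc z +
        8 * (yc z) ^ 2 * ((yc z) ^ 2 - ‖z‖ ^ 2) / disc z ^ 3) := by
  obtain ⟨hl, hd⟩ := lam_pos hz
  have hyz : z (Fin.last n) = yc z := rfl
  have hQ : ∀ s, HasDerivAt
      (fun s : ℝ => (‖z‖ ^ 2 - 1 + 2 * s * yc z + s ^ 2) ^ 2 + 4 * (yc z + s) ^ 2)
      (4 * (yc z + s) * (‖z‖ ^ 2 - 1 + 2 * s * yc z + s ^ 2 + 2)) s := fun s => by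
    have h1 : HasDerivAt (fun s : ℝ => ‖z‖ ^ 2 - 1 + 2 * s * yc z + s ^ 2)
        (0 + 2 * 1 * yc z + 2 * s ^ 1 * 1) s :=
      (((hasDerivAt_const s (‖z‖ ^ 2 - 1)).add (((hasDerivAt_id s).const_mul 2).mul_const _))).add
        ((hasDerivAt_id s).pow 2)
    have h2 := (h1.pow 2).add ((((hasDerivAt_id s).const_add (yc z)).pow 2).const_mul 4)
    refine HasDerivAt.congr_deriv h2 ?_
    simp only [id]
    push_cast
    ring
  have hQ0 : (‖z‖ ^ 2 - 1 + 2 * (0 : ℝ) * yc z + (0 : ℝ) ^ 2) ^ 2 + 4 * (yc z + 0) ^ 2 =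
      disc z ^ 2 := by
    rw [L2_disc_sq]
    ring
  have h := L2_line hQ (by rw [hQ0]; positivity)
  simp only [hQ0, Real.sqrt_sq hd.le] at h
  have h2 := L2_two_lam z
  have h3 := L2_disc_sq z
  have e1 : yc z * (1 + (‖z‖ ^ 2 - 1 + 2) / disc z) = 2 * z (Fin.last n) * (lam z + 1) / disc z := by
    have : lam z = ((‖z‖ ^ 2 - 1) + disc z) / 2 := by linarith
    rw [this, hyz]
    field_simp
    ring
  have e2 : 1 + (‖z‖ ^ 2 - 1 + 2) / disc z +
      2 * yc z ^ 2 * (disc z ^ 2 - (‖z‖ ^ 2 - 1 + 2) ^ 2) / disc z ^ 3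
      = 2 * (lam z + 1) / disc z + 8 * (yc z) ^ 2 * ((yc z) ^ 2 - ‖z‖ ^ 2) / disc z ^ 3 := by
    have e3 : disc z ^ 2 - (‖z‖ ^ 2 - 1 + 2) ^ 2 = 4 * ((yc z) ^ 2 - ‖z‖ ^ 2) := by rw [h3]; ring
    have e4 : 2 * (lam z + 1) = ‖z‖ ^ 2 - 1 + disc z + 2 := by linarith
    rw [e3, e4]
    field_simp
    ring
  rw [e1, e2] at h
  refine D2.congr h (Filter.Eventually.of_forall fun s => ?_)
  show lam (z + s • (bv (Fin.last n) : E (n + 1))) = _
  rw [lam, disc, L2_norm, L2_yc, if_pos rfl, mul_one, hyz]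
  congr 3 <;> ring_nf

/-- (T2-L2) The derivatives of `lam` along the coordinate lines off the flat ball.  `A = ‖z‖² - 1`, `D = disc z > 0`, `l = lam z`, `2 l = A + D`.

Along `e_i`, `i` not last: `‖z + t e_i‖² = ‖z‖² + 2 t z_i + t²`, `yc` constant; along `e_last`: the same and `yc (z + t e) = yc z + t`.
`D_i = 2 z_i A / D`, `l_i = (2 z_i + D_i)/2 = 2 z_i l / D`, `l_ii = 2 l / D + 2 z_i (l_i D - l D_i)/D² = 2 l/D + 4 z_i² l (D - A)/D³`;
`D_y = (2 y A + 4 y)/D`, `l_y = 2 y (l + 1)/D`, `l_yy = 2 (l+1)/D + 4 y² (l+1) (D - A - 2)/D³`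
(use `hasDerivAt` for the line function for all small `t`, where the point is still off the flat ball: the set is closed).
Sum: `2 n l / D + 2 (l+1)/D + (4/D³) (|x|² l (D-A) + y² (l+1)(D-A-2))` and the last bracket is `0`: `D - A = 2 (l - A)`, `l (l-A) = y²`, `lam_eq`
(multiply by `l`).  -/
theorem hasD2_lam {z : E (n + 1)} (hz : z ∉ emb '' BB n) :
    ∃ b : Fin (n + 1) → ℝ,
      HasD2 lam z (fun i => if i = Fin.last n then 2 * z i * (lam z + 1) / disc z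
        else 2 * z i * lam z / disc z) b ∧
      ∑ i, b i = 2 / disc z * (n * lam z + 1 + lam z) ∧
      (yc z = 0 → b (Fin.last n) = 2 * (lam z + 1) / disc z) := by
  obtain ⟨hl, hd⟩ := lam_pos hz
  refine ⟨fun i => if i = Fin.last n then 2 * (lam z + 1) / disc z +
        8 * (yc z) ^ 2 * ((yc z) ^ 2 - ‖z‖ ^ 2) / disc z ^ 3
      else 2 * lam z / disc z + 8 * (z i) ^ 2 * (yc z) ^ 2 / disc z ^ 3, ?_, ?_, ?_⟩
  · intro i
    by_cases hi : i = Fin.last n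
    · subst hi
      simp only [if_true]
      exact L2_last hz
    · simp only [if_neg hi]
      exact L2_ne hz hi
  · rw [Fin.sum_univ_castSucc]
    simp only [Fin.castSucc_ne_last, if_false, if_true]
    have h1 : ∑ i : Fin n, (2 * lam z / disc z + 8 * (z i.castSucc) ^ 2 * (yc z) ^ 2 / disc z ^ 3)
        = n * (2 * lam z / disc z) + 8 * ‖prj z‖ ^ 2 * (yc z) ^ 2 / disc z ^ 3 := by
      rw [Finset.sum_add_distrib, Finset.sum_const, Finset.card_univ, Fintype.card_fin,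
        nsmul_eq_mul, ← Finset.sum_div, ← Finset.sum_mul, ← Finset.mul_sum, ← sum_sq (prj z)]
      rfl
    have h2 := norm_sq_eq z
    have h3 : (yc z) ^ 2 - ‖z‖ ^ 2 = -‖prj z‖ ^ 2 := by linarith
    rw [h1, h3]
    ring
  · intro hy
    simp [hy]

/-- (T2-L2b) The square of the gradient: `∑ l_i² = 4 (|x|² l² + y² (l+1)²)/D² = 4 l (1+l)/D`
(`|x|² l² + y² (l+1)² = l (|x|² l + y² (1+l)) + y² (1+l) = l² (1+l) + y² (1+l) = (1+l)(l² + y²)` and `l² + y² = l D` as `D = 2 l - A`, `y² = l² - l A`). -/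
theorem grad_lam {z : E (n + 1)} (hz : z ∉ emb '' BB n) :
    ∑ i, (if i = Fin.last n then 2 * z i * (lam z + 1) / disc z
        else 2 * z i * lam z / disc z) ^ 2 = 4 * lam z * (1 + lam z) / disc z := by
  obtain ⟨hl, hd⟩ := lam_pos hz
  rw [Fin.sum_univ_castSucc]
  simp only [Fin.castSucc_ne_last, if_false, if_true]
  have h1 : ∑ i : Fin n, (2 * z i.castSucc * lam z / disc z) ^ 2 =
      4 * ‖prj z‖ ^ 2 * lam z ^ 2 / disc z ^ 2 := by
    have h2 : ∀ i : Fin n, (2 * z i.castSucc * lam z / disc z) ^ 2 =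
        (4 * lam z ^ 2 / disc z ^ 2) * (prj z i) ^ 2 := fun i => by
      have : prj z i = z i.castSucc := rfl
      rw [this]
      ring
    simp only [h2]
    rw [← Finset.mul_sum, sum_sq]
    ring
  have hyz : z (Fin.last n) = yc z := rfl
  have h2 := L2_two_lam z
  have h3 := lam_mul z
  have h4 := lam_eq z
  rw [h1, hyz]
  have h5 : ‖prj z‖ ^ 2 * lam z ^ 2 + (yc z) ^ 2 * (lam z + 1) ^ 2 =
      lam z * (1 + lam z) * disc z := by
    have h6 : disc z = 2 * lam z - (‖z‖ ^ 2 - 1) := by linarith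
    rw [h6]
    linear_combination lam z * h4 - (1 + lam z) * h3
  have h7 : 4 * lam z * (1 + lam z) / disc z =
      4 * (lam z * (1 + lam z) * disc z) / disc z ^ 2 := by
    field_simp
  rw [h7, ← h5]
  ring

end Pool.Agent.Lib.MP_6cd19d_an.T2
end

section

/-!
# Bounds for the potentials in the big space
-/

set_option autoImplicit false

open MeasureTheory Set Filter Topology Metric
open scoped ENNReal NNReal RealInnerProductSpace

namespace Pool.Agent.Lib.MP_6cd19d_an.T2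

open Pool.Agent.Lib.MP_6cd19d_an.ND Pool.Agent.Lib.MP_6cd19d_an.A

variable {n : ℕ}

/-- (T2-G2a) The potential at `(x,y)` is at most the potential at `x` (`dist (x,y) (ξ,0) ≥ dist x ξ`). -/
theorem pot_up_le {q : ℝ} (hq0 : 0 < q) (μ : Measure (E n)) (z : E (n + 1)) :
    pot q (up μ) z ≤ pot q μ (prj z) := by
  rw [pot, pot, lintegral_up]
  refine lintegral_mono fun ξ => ?_
  rw [ENNReal.rpow_neg, ENNReal.rpow_neg, ENNReal.inv_le_inv]
  refine ENNReal.rpow_le_rpow ?_ hq0.le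
  rw [edist_dist, edist_dist, dist_eq_norm, dist_eq_norm]
  refine ENNReal.ofReal_le_ofReal ?_
  refine le_of_sq_le_sq ?_ (norm_nonneg _)
  rw [norm_sub_emb_sq]
  nlinarith [sq_nonneg (yc z)]

/-- (T2-G2b) On the hyperplane the potentials are equal (isometry). -/
theorem pot_up_emb {q : ℝ} (μ : Measure (E n)) (x : E n) : pot q (up μ) (emb x) = pot q μ x := by
  rw [pot, pot, lintegral_up]
  refine lintegral_congr fun ξ => ?_
  rw [emb_isometry.edist_eq]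

/-- (T2-G2c) If the potential is `≤ κ` on `E n` then `rU q (up μ) z ≤ κ` off `emb '' K`, in fact `<` (a point with equality would be a local maximum
of `rU`: `LL_localMax` with `β = p+1-n`, any `n - 2 < p < q`, and `LL_rU`, `rS > 0` by `A.rU_pos`), and it is positive. -/
theorem rU_up_lt {q : ℝ} (hq0 : 0 < q) (hq2 : (n : ℝ) - 2 < q) {K : Set (E n)} (hK : IsCompact K)
    {μ : Measure (E n)} (hμ : PK K μ) {κ : ℝ} (hκ : 0 ≤ κ)
    (hU : ∀ x, pot q μ x ≤ ENNReal.ofReal κ) {z : E (n + 1)} (hz : z ∉ emb '' K) :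
    0 < rU q (up μ) z ∧ rU q (up μ) z < κ := by
  have hμ' := PK_up hμ
  have hfin : μ univ ≠ ⊤ := by rw [hμ.1]; simp
  have hfin' : (up μ) univ ≠ ⊤ := by rw [hμ'.1]; simp
  have h0' : (up μ) univ ≠ 0 := by rw [hμ'.1]; simp
  have hle : ∀ w, w ∉ emb '' K → rU q (up μ) w ≤ κ := by
    intro w hw
    have h1 := pot_eq_rU (q := q) (isCompact_emb hK) hfin' hμ'.2 hw
    have h2 : ENNReal.ofReal (rU q (up μ) w) ≤ ENNReal.ofReal κ := by
      rw [← h1]
      exact (pot_up_le hq0 μ w).trans (hU _)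
    exact (ENNReal.ofReal_le_ofReal_iff hκ).1 h2
  obtain ⟨hpos, hSpos⟩ := rU_pos (q := q) (isCompact_emb hK) hfin' h0' hμ'.2 hz
  refine ⟨hpos, lt_of_le_of_ne (hle z hz) fun heq => ?_⟩
  obtain ⟨p, hp1, hp2⟩ := exists_between hq2
  obtain ⟨b, hb1, hb2⟩ := LL_rU (q := q) p hK hfin hμ.2 hz
  have hmax : IsLocalMax (rU q (up μ)) z := by
    have h1 : (emb '' K)ᶜ ∈ 𝓝 z := (isCompact_emb hK).isClosed.isOpen_compl.mem_nhds hz
    filter_upwards [h1] with w hw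
    rw [heq]
    exact hle w hw
  have h3 := LL_localMax (β := p + 1 - n) (by linarith) hb1 hmax
  rw [hb2] at h3
  have h4 : 0 < q * (q - p) * rS q (up μ) z := mul_pos (mul_pos hq0 (by linarith)) hSpos
  linarith

/-- (T2-G2d) For `K ⊆ closedBall 0 ρ`, `z ∉ emb '' K`: `(‖z‖+ρ)^(-q) ≤ rU q (up μ) z`, and `rU ≤ (‖z‖-ρ)^(-q)` if `ρ < ‖z‖`. -/
theorem rU_up_bounds {q : ℝ} (hq0 : 0 < q) {K : Set (E n)} (hK : IsCompact K) {ρ : ℝ}
    (hρ : K ⊆ closedBall 0 ρ) {μ : Measure (E n)} (hμ : PK K μ) {z : E (n + 1)}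
    (hz : z ∉ emb '' K) :
    (‖z‖ + ρ) ^ (-q) ≤ rU q (up μ) z ∧ (ρ < ‖z‖ → rU q (up μ) z ≤ (‖z‖ - ρ) ^ (-q)) := by
  have hμ' := PK_up hμ
  have hfin' : (up μ) univ ≠ ⊤ := by rw [hμ'.1]; simp
  have hprob : IsProbabilityMeasure (up μ) := ⟨hμ'.1⟩
  have hint := (integrable_rpow (p := -q) (isCompact_emb hK) hfin' hμ'.2 hz).1
  have hae : ∀ᵐ w ∂(up μ), w ∈ emb '' K := by
    rw [ae_iff]
    exact hμ'.2
  have hw1 : ∀ w ∈ emb '' K, ‖w‖ ≤ ρ := by
    rintro w ⟨ξ, hξ, rfl⟩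
    have h1 := hρ hξ
    rw [mem_closedBall, dist_zero_right] at h1
    refine le_trans (le_of_eq ?_) h1
    have h2 : ‖emb ξ‖ ^ 2 = ‖ξ‖ ^ 2 := by
      rw [norm_sq_eq]
      simp
    exact (pow_left_inj₀ (norm_nonneg _) (norm_nonneg _) two_ne_zero).1 h2
  have hpos : ∀ w ∈ emb '' K, 0 < ‖z - w‖ := by
    intro w hw
    rw [norm_pos_iff, sub_ne_zero]
    rintro rfl
    exact hz hw
  constructor
  · have h1 : ∫ _ : E (n + 1), (‖z‖ + ρ) ^ (-q) ∂(up μ) ≤ ∫ w, ‖z - w‖ ^ (-q) ∂(up μ) := by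
      refine integral_mono_ae (integrable_const _) hint ?_
      filter_upwards [hae] with w hw
      refine Real.rpow_le_rpow_of_nonpos (hpos w hw) ?_ (by linarith)
      exact (norm_sub_le _ _).trans (by linarith [hw1 w hw])
    rw [integral_const, measureReal_def, hμ'.1, ENNReal.toReal_one, one_smul] at h1
    exact h1
  · intro hρz
    have h1 : ∫ w, ‖z - w‖ ^ (-q) ∂(up μ) ≤ ∫ _ : E (n + 1), (‖z‖ - ρ) ^ (-q) ∂(up μ) := by
      refine integral_mono_ae hint (integrable_const _) ?_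
      filter_upwards [hae] with w hw
      refine Real.rpow_le_rpow_of_nonpos (by linarith) ?_ (by linarith)
      have h2 := norm_sub_norm_le z w
      linarith [hw1 w hw]
    rw [integral_const, measureReal_def, hμ'.1, ENNReal.toReal_one, one_smul] at h1
    exact h1

/-- (T2-G2e) Lower semicontinuity (Fatou; the kernel `z ↦ edist z w ^ (-q)` is continuous into `[0,∞]`). -/
theorem pot_lsc {m : ℕ} {q : ℝ} (hq0 : 0 < q) (μ : Measure (E m)) [IsFiniteMeasure μ] :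
    LowerSemicontinuous (pot q μ) := by
  rw [lowerSemicontinuous_iff_le_liminf]
  intro x
  have h1 : pot q μ x = ∫⁻ y, liminf (fun z => (edist z y) ^ (-q)) (𝓝 x) ∂μ := by
    refine lintegral_congr fun y => ?_
    have h2 : Continuous fun z : E m => (edist z y) ^ (-q) :=
      ENNReal.continuous_rpow_const.comp (continuous_id.edist continuous_const)
    exact (h2.tendsto x).liminf_eq.symm
  rw [h1]
  refine lintegral_liminf_le fun z => ?_
  exact (ENNReal.continuous_rpow_const.comp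
    (continuous_const.edist continuous_id)).measurable

end Pool.Agent.Lib.MP_6cd19d_an.T2
end

section

/-!
# The function f_q(lam z) is harmonic for LL
-/

set_option autoImplicit false

open MeasureTheory Set Filter Topology Metric
open scoped ENNReal NNReal RealInnerProductSpace

namespace Pool.Agent.Lib.MP_6cd19d_an.T2

open Pool.Agent.Lib.MP_6cd19d_an.ND Pool.Agent.Lib.MP_6cd19d_an.A

variable {n : ℕ}

/-- (T2-L3) `V = fq n q ∘ lam` has `LL (q+1-n) = 0` off the flat ball.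

Proof.  `A.hasD2_comp` with `F = fq n q`, `F1 = -wt n q`, `F2 = -wt' = -wt (((n-q)/2-1)/l - (n/2)/(1+l))` (`fq_hasDeriv`, `wt_hasDeriv`, valid near `l = lam z > 0`).
`LL = F2 ∑ l_i² + F1 (∑ b_i + (q+1-n) 2 (l+1)/D)` (in both cases `yc z = 0` or not; if `yc z = 0` then `l_last = 0`), and
`∑ b + (q+1-n) 2(1+l)/D = (2/D) (n l + (q+2-n)(1+l))`; `wt'/wt * 4 l (1+l)/D = (2/D) ((n-q-2)(1+l) - n l)`: the sum is `0`. -/
theorem LL_V {q : ℝ} (hq0 : 0 < q) (hqn : q < n) {z : E (n + 1)} (hz : z ∉ emb '' BB n) :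
    ∃ a b : Fin (n + 1) → ℝ, HasD2 (fun z => fq n q (lam z)) z a b ∧ LL (q + 1 - n) a b z = 0 := by
  obtain ⟨b, hb, hbs, hbl⟩ := hasD2_lam hz
  obtain ⟨hl, hD⟩ := lam_pos hz
  have hgr := grad_lam hz
  set l : ℝ := lam z with hldef
  set D : ℝ := disc z with hDdef
  set w : ℝ := wt n q l with hw
  set c : ℝ := (((n : ℝ) - q) / 2 - 1) / l - (n : ℝ) / 2 / (1 + l) with hc
  have hF : ∀ᶠ s in 𝓝 (lam z), HasDerivAt (fq n q) ((fun s => -wt n q s) s) s := by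
    have h1 : ∀ᶠ s in 𝓝 (lam z), (0 : ℝ) < s := lt_mem_nhds hl
    filter_upwards [h1] with s hs
    exact fq_hasDeriv hq0 hqn hs
  have hF1 : HasDerivAt (fun s => -wt n q s) (-(w * c)) (lam z) := (wt_hasDeriv hl).neg
  have hcomp := hasD2_comp hb hF hF1
  refine ⟨_, _, hcomp, ?_⟩
  have hlast : (if yc z = 0 then -(w * c) * (if Fin.last n = Fin.last n then
        2 * z (Fin.last n) * (l + 1) / D else 2 * z (Fin.last n) * l / D) ^ 2 +
        -w * b (Fin.last n) else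
        -w * (if Fin.last n = Fin.last n then
        2 * z (Fin.last n) * (l + 1) / D else 2 * z (Fin.last n) * l / D) / yc z) =
      -w * (2 * (l + 1) / D) := by
    rw [if_pos rfl]
    by_cases hy : yc z = 0
    · rw [if_pos hy, hbl hy]
      have : z (Fin.last n) = 0 := hy
      rw [this]
      ring
    · rw [if_neg hy]
      have h2 : z (Fin.last n) = yc z := rfl
      rw [h2]
      have hD' : D ≠ 0 := hD.ne'
      field_simp
  have hsum : ∑ i, (-(w * c) * (if i = Fin.last n then 2 * z i * (l + 1) / D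
        else 2 * z i * l / D) ^ 2 + -w * b i) =
      -(w * c) * (4 * l * (1 + l) / D) + -w * (2 / D * (n * l + 1 + l)) := by
    rw [Finset.sum_add_distrib, ← Finset.mul_sum, ← Finset.mul_sum, hbs, ← hgr]
  show ∑ i, (-(w * c) * (if i = Fin.last n then 2 * z i * (l + 1) / D
        else 2 * z i * l / D) ^ 2 + -w * b i) + (q + 1 - (n : ℝ)) *
        (if yc z = 0 then -(w * c) * (if Fin.last n = Fin.last n then
        2 * z (Fin.last n) * (l + 1) / D else 2 * z (Fin.last n) * l / D) ^ 2 +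
        -w * b (Fin.last n) else
        -w * (if Fin.last n = Fin.last n then
        2 * z (Fin.last n) * (l + 1) / D else 2 * z (Fin.last n) * l / D) / yc z) = 0
  rw [hlast, hsum, hc]
  have h1 : (1 : ℝ) + l ≠ 0 := by linarith
  have hl0 : l ≠ 0 := hl.ne'
  have hD0 : D ≠ 0 := hD.ne'
  field_simp
  ring

end Pool.Agent.Lib.MP_6cd19d_an.T2
end

section

/-!
# The potential of the unit ball
-/

set_option autoImplicit false

open MeasureTheory Set Filter Topology Metric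
open scoped ENNReal NNReal RealInnerProductSpace

namespace Pool.Agent.Lib.MP_6cd19d_an.T2

open Pool.Agent.Lib.MP_6cd19d_an.ND Pool.Agent.Lib.MP_6cd19d_an.A

variable {n : ℕ}

private theorem L4_contV {q : ℝ} (hq0 : 0 < q) (hqn : q < n) :
    Continuous (fun z : E (n + 1) => fq n q (lam z)) :=
  (fq_cont hq0 hqn).comp_continuous continuous_lam (fun z => mem_Ici.2 (lam_nonneg z))

private theorem L4_V_le {q : ℝ} (hq0 : 0 < q) (hqn : q < n) (z : E (n + 1)) :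
    fq n q (lam z) ≤ fq n q 0 :=
  (fq_strictAnti hq0 hqn).antitoneOn (mem_Ici.2 le_rfl) (mem_Ici.2 (lam_nonneg z)) (lam_nonneg z)

private theorem L4_fin {q : ℝ} {μB : Measure (E n)} {u : ℝ → ℝ} (hB : BallM n q μB u) :
    up μB univ ≠ ⊤ := by
  rw [up_univ, hB.prob]
  exact ENNReal.one_ne_top

private theorem L4_U_le {q : ℝ} (hq0 : 0 < q) (hk : 0 < kap n q) {μB : Measure (E n)} {u : ℝ → ℝ}
    (hB : BallM n q μB u) {z : E (n + 1)} (hz : z ∉ emb '' BB n) :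
    rU q (up μB) z ≤ kap n q := by
  have h1 : ENNReal.ofReal (rU q (up μB) z) ≤ ENNReal.ofReal (kap n q) := by
    rw [← pot_eq_rU (isCompact_emb (isCompact_closedBall 0 1)) (L4_fin hB) (up_compl hB.supp) hz]
    refine (pot_up_le hq0 μB z).trans ?_
    rw [hB.pot_eq]
    exact ENNReal.ofReal_le_ofReal (hB.u_le _ (norm_nonneg _))
  exact (ENNReal.ofReal_le_ofReal_iff hk.le).1 h1

private theorem L4_U_pos {q : ℝ} {μB : Measure (E n)} {u : ℝ → ℝ}
    (hB : BallM n q μB u) {z : E (n + 1)} (hz : z ∉ emb '' BB n) :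
    0 < rU q (up μB) z :=
  (rU_pos (isCompact_emb (isCompact_closedBall 0 1)) (L4_fin hB)
    (by rw [up_univ, hB.prob]; exact one_ne_zero) (up_compl hB.supp) hz).1

/-- lower bound of the potential near the flat ball -/
private theorem L4_U_near {q : ℝ} (hq0 : 0 < q) (hk : 0 < kap n q) {μB : Measure (E n)}
    {u : ℝ → ℝ} (hB : BallM n q μB u) {z₀ : E (n + 1)} (hz₀ : z₀ ∈ emb '' BB n) {ε : ℝ}
    (hε : 0 < ε) :
    ∀ᶠ z in 𝓝 z₀, z ∉ emb '' BB n → kap n q - ε < rU q (up μB) z := by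
  have hfm : IsFiniteMeasure (up μB) := ⟨(L4_fin hB).lt_top⟩
  obtain ⟨x, hx, rfl⟩ := hz₀
  have h1 : pot q (up μB) (emb x) = ENNReal.ofReal (kap n q) := by
    rw [pot_up_emb, hB.pot_eq, hB.u_in]
    exact ⟨norm_nonneg _, by simpa using hx⟩
  have h2 : ENNReal.ofReal (kap n q - ε) < pot q (up μB) (emb x) := by
    rw [h1]
    exact (ENNReal.ofReal_lt_ofReal_iff hk).2 (by linarith)
  filter_upwards [pot_lsc hq0 (up μB) (emb x) _ h2] with z hz hzK
  rw [pot_eq_rU (isCompact_emb (isCompact_closedBall 0 1)) (L4_fin hB) (up_compl hB.supp) hzK]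
    at hz
  by_contra hcon
  push Not at hcon
  exact absurd hz (not_lt.2 (ENNReal.ofReal_le_ofReal hcon))

private theorem L4_U_inf {q : ℝ} (hq0 : 0 < q) {μB : Measure (E n)} {u : ℝ → ℝ}
    (hB : BallM n q μB u) {ε : ℝ} (hε : 0 < ε) :
    ∃ R : ℝ, ∀ z : E (n + 1), R ≤ ‖z‖ → z ∉ emb '' BB n → rU q (up μB) z < ε := by
  have h1 : Tendsto (fun t : ℝ => (t - 1) ^ (-q)) atTop (𝓝 0) :=
    (tendsto_rpow_neg_atTop hq0).comp (tendsto_atTop_add_const_right _ (-1) tendsto_id)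
  obtain ⟨R, hR⟩ := eventually_atTop.1 (h1.eventually_lt_const hε)
  refine ⟨max R 2, fun z hz hzK => ?_⟩
  have h2 : 1 < ‖z‖ := lt_of_lt_of_le (by norm_num) ((le_max_right _ _).trans hz)
  exact ((rU_up_bounds hq0 (isCompact_closedBall (0 : E n) 1) subset_rfl ⟨hB.prob, hB.supp⟩
    hzK).2 h2).trans_lt (hR _ ((le_max_left _ _).trans hz))

private theorem L4_V_inf {q : ℝ} (hq0 : 0 < q) (hqn : q < n) {ε : ℝ} (hε : 0 < ε) :
    ∃ R : ℝ, ∀ z : E (n + 1), R ≤ ‖z‖ → fq n q (lam z) < ε := by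
  obtain ⟨L, hL⟩ := eventually_atTop.1 ((fq_tendsto (n := n) hq0 hqn).eventually_lt_const hε)
  refine ⟨|L| + 2, fun z hz => hL _ ?_⟩
  refine le_trans ?_ (lam_bounds z).1
  have h1 : 0 ≤ |L| := abs_nonneg L
  have h2 := le_abs_self L
  have h3 : (|L| + 2) ^ 2 ≤ ‖z‖ ^ 2 := pow_le_pow_left₀ (by linarith) hz 2
  nlinarith

private theorem L4_D2 {q : ℝ} (hq0 : 0 < q) (hqn : q < n) {μB : Measure (E n)} {u : ℝ → ℝ}
    (hB : BallM n q μB u) {z : E (n + 1)} (hz : z ∉ emb '' BB n) :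
    (∃ a b : Fin (n + 1) → ℝ, HasD2 (rU q (up μB)) z a b ∧ LL (q + 1 - n) a b z = 0) ∧
    ∃ a b : Fin (n + 1) → ℝ, HasD2 (fun z => fq n q (lam z)) z a b ∧
      LL (q + 1 - n) a b z = 0 := by
  refine ⟨?_, LL_V hq0 hqn hz⟩
  obtain ⟨b, h1, h2⟩ := LL_rU (q := q) q (isCompact_closedBall (0 : E n) 1)
    (μ := μB) (by rw [hB.prob]; exact ENNReal.one_ne_top) hB.supp hz
  exact ⟨_, b, h1, by rw [h2, sub_self, mul_zero, zero_mul]⟩

private theorem L4_le {q : ℝ} (hq0 : 0 < q) (hq2 : (n : ℝ) - 2 < q) (hqn : q < n)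
    (hk : 0 < kap n q) {μB : Measure (E n)} {u : ℝ → ℝ} (hB : BallM n q μB u) {r : ℝ}
    (hr : 0 < r) (hrk : r * fq n q 0 = kap n q) {z : E (n + 1)} (hz : z ∉ emb '' BB n) :
    rU q (up μB) z ≤ r * fq n q (lam z) := by
  have hV := L4_contV (n := n) hq0 hqn
  have h := max_principle_LL (n := n) (β := q + 1 - n) (by linarith)
    (isCompact_emb (isCompact_closedBall (0 : E n) 1))
    (f := fun z => rU q (up μB) z + (-r) * fq n q (lam z)) ?_ ?_ ?_ ?_ z hz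
  · linarith
  · intro z hz
    exact (continuousAt_rU (isCompact_emb (isCompact_closedBall 0 1)) (L4_fin hB)
      (up_compl hB.supp) hz).add (continuousAt_const.mul hV.continuousAt)
  · intro z₀ hz₀ ε hε
    have h1 : fq n q 0 - ε / r < fq n q (lam z₀) := by
      rw [lam_zero hz₀]
      have : 0 < ε / r := by positivity
      linarith
    filter_upwards [hV.continuousAt.eventually (lt_mem_nhds h1)] with z hz hzK
    have h2 := L4_U_le hq0 hk hB hzK
    have h3 := mul_lt_mul_of_pos_left hz hr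
    rw [mul_sub, hrk, mul_div_cancel₀ _ hr.ne'] at h3
    linarith
  · intro ε hε
    obtain ⟨R, hR⟩ := L4_U_inf hq0 hB hε
    refine ⟨R, fun z hz hzK => ?_⟩
    have h1 := hR z hz hzK
    have h2 := mul_pos hr (fq_pos (n := n) hq0 hqn (lam_nonneg z))
    linarith
  · intro z hz
    obtain ⟨⟨a, b, h1, h2⟩, a', b', h3, h4⟩ := L4_D2 hq0 hqn hB hz
    refine ⟨_, _, hasD2_add h1 (hasD2_smul (-r) h3), ?_⟩
    rw [LL_add_smul, h2, h4, mul_zero, add_zero]

private theorem L4_ge {q : ℝ} (hq0 : 0 < q) (hq2 : (n : ℝ) - 2 < q) (hqn : q < n)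
    (hk : 0 < kap n q) {μB : Measure (E n)} {u : ℝ → ℝ} (hB : BallM n q μB u) {r : ℝ}
    (hr : 0 < r) (hrk : r * fq n q 0 = kap n q) {z : E (n + 1)} (hz : z ∉ emb '' BB n) :
    r * fq n q (lam z) ≤ rU q (up μB) z := by
  have hV := L4_contV (n := n) hq0 hqn
  have hrk' : r⁻¹ * kap n q = fq n q 0 := by
    rw [← hrk, inv_mul_cancel_left₀ hr.ne']
  have h := max_principle_LL (n := n) (β := q + 1 - n) (by linarith)
    (isCompact_emb (isCompact_closedBall (0 : E n) 1))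
    (f := fun z => fq n q (lam z) + (-r⁻¹) * rU q (up μB) z) ?_ ?_ ?_ ?_ z hz
  · have h1 : r * (fq n q (lam z) + (-r⁻¹) * rU q (up μB) z) ≤ r * 0 :=
      mul_le_mul_of_nonneg_left h hr.le
    rw [mul_add, mul_zero, neg_mul, mul_neg, mul_inv_cancel_left₀ hr.ne'] at h1
    linarith
  · intro z hz
    exact hV.continuousAt.add (continuousAt_const.mul
      (continuousAt_rU (isCompact_emb (isCompact_closedBall 0 1)) (L4_fin hB)
      (up_compl hB.supp) hz))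
  · intro z₀ hz₀ ε hε
    filter_upwards [L4_U_near hq0 hk hB hz₀ (mul_pos hr hε)] with z hz hzK
    have h2 := L4_V_le (n := n) hq0 hqn z
    have h3 := mul_lt_mul_of_pos_left (hz hzK) (inv_pos.2 hr)
    rw [mul_sub, hrk', inv_mul_cancel_left₀ hr.ne'] at h3
    linarith
  · intro ε hε
    obtain ⟨R, hR⟩ := L4_V_inf (n := n) hq0 hqn hε
    refine ⟨R, fun z hz hzK => ?_⟩
    have h1 := hR z hz
    have h2 := mul_pos (inv_pos.2 hr) (L4_U_pos hB hzK)
    linarith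
  · intro z hz
    obtain ⟨⟨a, b, h1, h2⟩, a', b', h3, h4⟩ := L4_D2 hq0 hqn hB hz
    refine ⟨_, _, hasD2_add h3 (hasD2_smul (-r⁻¹) h1), ?_⟩
    rw [LL_add_smul, h2, h4, mul_zero, add_zero]

/-- the constant is one -/
private theorem L4_one {q r : ℝ} (hq0 : 0 < q)
    (h : ∀ t : ℝ, 2 ≤ t → ((t + 1) ^ (-q) ≤ r * (t ^ 2 - 1) ^ (-q / 2)) ∧
      r * (1 + t ^ 2) ^ (-q / 2) ≤ (t - 1) ^ (-q)) : r = 1 := by
  have hsq : ∀ a : ℝ, 0 ≤ a → a ^ (-q) = (a ^ 2) ^ (-q / 2) := by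
    intro a ha
    rw [← Real.rpow_natCast, ← Real.rpow_mul ha]
    congr 1
    push_cast
    ring
  have hneg : ∀ a : ℝ, 0 < a → a ^ (-q / 2) = (a ^ (q / 2))⁻¹ := by
    intro a ha
    rw [neg_div, Real.rpow_neg ha.le]
  apply le_antisymm
  · -- upper bound
    have h1 : Tendsto (fun s : ℝ => ((s ^ 2 + 1) / (1 - s) ^ 2) ^ (q / 2)) (𝓝 0) (𝓝 1) := by
      have h2 : ContinuousAt (fun s : ℝ => ((s ^ 2 + 1) / (1 - s) ^ 2) ^ (q / 2)) 0 := by
        refine ContinuousAt.rpow_const ?_ (Or.inr (by positivity))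
        refine ContinuousAt.div (by fun_prop) (by fun_prop) (by norm_num)
      have h3 := h2.tendsto
      norm_num at h3
      exact h3
    refine ge_of_tendsto (h1.comp tendsto_inv_atTop_zero) ?_
    filter_upwards [eventually_ge_atTop 2] with t ht
    have h2 := (h t ht).2
    have ht0 : 0 < t := by linarith
    have ht1 : 0 < t - 1 := by linarith
    rw [hsq _ ht1.le, hneg _ (by positivity), hneg _ (by positivity), ← div_eq_mul_inv,
      div_le_iff₀ (by positivity)] at h2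
    refine h2.trans (le_of_eq ?_)
    rw [mul_comm, ← div_eq_mul_inv, ← Real.div_rpow (by positivity) (by positivity)]
    simp only [Function.comp]
    congr 1
    field_simp
  · have h1 : Tendsto (fun s : ℝ => ((1 - s ^ 2) / (1 + s) ^ 2) ^ (q / 2)) (𝓝 0) (𝓝 1) := by
      have h2 : ContinuousAt (fun s : ℝ => ((1 - s ^ 2) / (1 + s) ^ 2) ^ (q / 2)) 0 := by
        refine ContinuousAt.rpow_const ?_ (Or.inr (by positivity))
        refine ContinuousAt.div (by fun_prop) (by fun_prop) (by norm_num)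
      have h3 := h2.tendsto
      norm_num at h3
      exact h3
    refine le_of_tendsto (h1.comp tendsto_inv_atTop_zero) ?_
    filter_upwards [eventually_ge_atTop 2] with t ht
    have h2 := (h t ht).1
    have ht0 : 0 < t := by linarith
    have ht1 : 0 < t + 1 := by linarith
    have ht2 : 0 < t ^ 2 - 1 := by nlinarith
    rw [hsq _ ht1.le, hneg _ (by positivity), hneg _ ht2, ← div_eq_mul_inv,
      le_div_iff₀ (by positivity)] at h2
    refine le_trans (le_of_eq ?_) h2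
    rw [mul_comm, ← div_eq_mul_inv, ← Real.div_rpow (by positivity) (by positivity)]
    simp only [Function.comp]
    congr 1
    field_simp

/-- (T2-L4a) Identification.

Proof.  `β = q + 1 - n > -1`, `κ = kap n q > 0` (`A.infEn_ball_fin`), `r = κ / fq n q 0`.  Apply `max_principle_LL` on `K' = emb '' BB n` to `f = rU q (up μB) - r V` and to `-f`, `V z = fq n q (lam z)`:
`LL_rU` with `p = q`, `LL_V`, `LL_add_smul`, `hasD2_add`, `hasD2_smul`; continuity off `K'` (`A.continuousAt_rU`, `continuous_lam`, `fq_cont`); at points `z₀` of `K'`: `rU ≤ κ`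
(`A.pot_eq_rU`, `pot_up_le`, `hB.pot_eq`, `hB.u_le`), `V` is continuous with `V z₀ = fq n q 0`; for `-f`: `V ≤ fq n q 0`, `pot q (up μB)` is lower semicontinuous
(`pot_lsc`) with value `κ` at `z₀` (`pot_up_emb`); at infinity both tend to `0` (`rU_up_bounds`, `lam_bounds`, `fq_tendsto`).  So `rU = r V`.  For `‖z‖ → ∞`:
`‖z‖^q rU → 1` and `‖z‖^q V → 1` (`fq_bounds`, `lam_bounds`), so `r = 1`. -/
theorem ball_pot_up {q : ℝ} (hn : 1 ≤ n) (hq0 : 0 < q) (hq2 : (n : ℝ) - 2 < q) (hqn : q < n)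
    {μB : Measure (E n)} {u : ℝ → ℝ} (hB : BallM n q μB u) :
    kap n q = fq n q 0 ∧ ∀ z : E (n + 1), z ∉ emb '' BB n →
      rU q (up μB) z = fq n q (lam z) := by
  have hk := (infEn_ball_fin (n := n) hn hq0 hqn).2.1
  have hf0 : 0 < fq n q 0 := fq_pos hq0 hqn le_rfl
  obtain ⟨r, hr⟩ : ∃ r, r = kap n q / fq n q 0 := ⟨_, rfl⟩
  have hr0 : 0 < r := by
    rw [hr]
    exact div_pos hk hf0
  have hrk : r * fq n q 0 = kap n q := by
    rw [hr]
    exact div_mul_cancel₀ _ hf0.ne'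
  have key : ∀ z : E (n + 1), z ∉ emb '' BB n → rU q (up μB) z = r * fq n q (lam z) :=
    fun z hz => le_antisymm (L4_le hq0 hq2 hqn hk hB hr0 hrk hz)
      (L4_ge hq0 hq2 hqn hk hB hr0 hrk hz)
  have hr1 : r = 1 := by
    refine L4_one hq0 fun t ht => ?_
    have hz : (pt (0 : E n) t) ∉ emb '' BB n := by
      rw [mem_emb_image]
      intro h
      rw [yc_pt] at h
      linarith [h.2]
    have hnorm : ‖pt (0 : E n) t‖ = t := by
      have h1 := norm_sq_eq (pt (0 : E n) t)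
      rw [prj_pt, yc_pt, norm_zero] at h1
      have h2 : ‖pt (0 : E n) t‖ ^ 2 = t ^ 2 := by linarith
      exact (pow_left_inj₀ (norm_nonneg _) (by linarith) two_ne_zero).1 h2
    have hb := rU_up_bounds hq0 (isCompact_closedBall (0 : E n) 1) subset_rfl
      (μ := μB) ⟨hB.prob, hB.supp⟩ hz
    have hl := lam_bounds (pt (0 : E n) t)
    have hf := fq_bounds (n := n) hq0 hq2 hqn (lam_pos hz).1
    rw [key _ hz, hnorm] at hb
    rw [hnorm] at hl
    have ht2 : 0 < t ^ 2 - 1 := by nlinarith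
    constructor
    · refine hb.1.trans (mul_le_mul_of_nonneg_left (hf.2.trans ?_) hr0.le)
      exact Real.rpow_le_rpow_of_nonpos ht2 hl.1 (by linarith)
    · refine le_trans (mul_le_mul_of_nonneg_left (le_trans ?_ hf.1) hr0.le)
        (hb.2 (by linarith))
      exact Real.rpow_le_rpow_of_nonpos (by linarith [(lam_pos hz).1]) (by linarith [hl.2])
        (by linarith)
  refine ⟨?_, fun z hz => ?_⟩
  · rw [← hrk, hr1, one_mul]
  · rw [key z hz, hr1, one_mul]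

/-- (T2-L4b) The potential on `E n` and the energy of the ball: from `ball_pot_up`, `lam_emb`, `pot_up_emb`, `A.pot_eq_rU`, `hB.u_in`, `A.infEn_ball_fin`. -/
theorem ball_pot {q : ℝ} (hn : 1 ≤ n) (hq0 : 0 < q) (hq2 : (n : ℝ) - 2 < q) (hqn : q < n) :
    infEn q (BB n) = ENNReal.ofReal (fq n q 0) ∧ ∃ μB : Measure (E n), PK (BB n) μB ∧
      ∀ x : E n, pot q μB x = ENNReal.ofReal (fq n q (max (‖x‖ ^ 2 - 1) 0)) := by
  obtain ⟨μB, u, hB⟩ := exists_ballM (n := n) hn hq2.le hq0 hqn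
  obtain ⟨h1, h2⟩ := ball_pot_up hn hq0 hq2 hqn hB
  refine ⟨?_, μB, ⟨hB.prob, hB.supp⟩, fun x => ?_⟩
  · rw [(infEn_ball_fin (n := n) hn hq0 hqn).2.2, h1]
  · by_cases hx : ‖x‖ ≤ 1
    · have h3 : max (‖x‖ ^ 2 - 1) 0 = 0 := by
        refine max_eq_right ?_
        have := norm_nonneg x
        nlinarith
      rw [h3, ← h1, hB.pot_eq, hB.u_in _ ⟨norm_nonneg _, hx⟩]
    · have hz : emb x ∉ emb '' BB n := by
        rw [mem_emb_image, prj_emb]
        exact fun h => hx (by simpa using h.1)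
      rw [← pot_up_emb, pot_eq_rU (isCompact_emb (isCompact_closedBall 0 1)) (L4_fin hB)
        (up_compl hB.supp) hz, h2 _ hz, lam_emb]

end Pool.Agent.Lib.MP_6cd19d_an.T2
end

section

/-!
# The dual measure
-/

set_option autoImplicit false

open MeasureTheory Set Filter Topology Metric
open scoped ENNReal NNReal RealInnerProductSpace

namespace Pool.Agent.Lib.MP_6cd19d_an.T2

open Pool.Agent.Lib.MP_6cd19d_an.ND Pool.Agent.Lib.MP_6cd19d_an.A

variable {n : ℕ}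

theorem D3_measurable_wt (n : ℕ) (q : ℝ) : Measurable (wt n q) := by
  unfold wt
  exact (measurable_const.mul (measurable_id.pow_const _)).mul
    ((measurable_const.add measurable_id).pow_const _)

/-- the condition in terms of `s` -/
theorem D3_cond {r s τ : ℝ} (hr : 0 ≤ r) (hs : 0 < s) (hτ : 0 < τ) :
    (r ^ 2 / s ^ 2 - 1 < τ) ↔ (r / Real.sqrt (1 + τ) < s) := by
  have h1 : 0 < 1 + τ := by linarith
  have h2 : 0 < Real.sqrt (1 + τ) := Real.sqrt_pos.2 h1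
  have h3 : Real.sqrt (1 + τ) ^ 2 = 1 + τ := Real.sq_sqrt h1.le
  rw [div_lt_iff₀ h2, sub_lt_iff_lt_add, div_lt_iff₀ (by positivity)]
  have h4 : 0 ≤ s * Real.sqrt (1 + τ) := by positivity
  rw [← pow_lt_pow_iff_left₀ hr h4 two_ne_zero, mul_pow, h3]
  constructor
  · intro h
    linarith
  · intro h
    linarith

/-- the tail integral with an indicator -/
theorem D3_fq {q : ℝ} (hq0 : 0 < q) (hqn : q < n) {r s : ℝ} (hr : 0 ≤ r) (hs : 0 < s) :
    ENNReal.ofReal (fq n q (max (r ^ 2 / s ^ 2 - 1) 0)) =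
      ∫⁻ τ in Ioi (0 : ℝ), ENNReal.ofReal (wt n q τ) *
        (if r / Real.sqrt (1 + τ) < s then 1 else 0) := by
  rw [ofReal_fq hq0 hqn (le_max_right _ _)]
  have hsub : Ioi (max (r ^ 2 / s ^ 2 - 1) 0) ⊆ Ioi (0 : ℝ) :=
    Ioi_subset_Ioi (le_max_right _ _)
  rw [← lintegral_indicator measurableSet_Ioi, ← lintegral_indicator measurableSet_Ioi]
  refine lintegral_congr fun τ => ?_
  by_cases hτ : τ ∈ Ioi (0 : ℝ)
  · rw [indicator_of_mem hτ]
    by_cases h1 : r ^ 2 / s ^ 2 - 1 < τ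
    · rw [indicator_of_mem (show τ ∈ Ioi (max (r ^ 2 / s ^ 2 - 1) 0) from max_lt h1 hτ),
        if_pos ((D3_cond hr hs hτ).1 h1), mul_one]
    · have h2 : τ ∉ Ioi (max (r ^ 2 / s ^ 2 - 1) 0) := fun h =>
        h1 (lt_of_le_of_lt (le_max_left _ _) h)
      rw [indicator_of_notMem h2, if_neg (fun h => h1 ((D3_cond hr hs hτ).2 h)), mul_zero]
  · rw [indicator_of_notMem hτ, indicator_of_notMem (fun h => hτ (hsub h))]

/-- (T2-D3) The dual measure.

Proof.  `μB` from `ball_pot`.  `Λ` = image of `μB.prod ρ`, `ρ = (volume.restrict (Ioo 0 (AA H P))).withDensity (fun s => ofReal (s^q * gg n q H P s))`, under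
`(z, s) ↦ b + s • z`.  Total mass `≤ AA^q * GG 0 < ∞` (`lintegral_gg` with `s₀ = 0`).  For `s > 0`: `∫⁻ edist y (b + s • z)^(-q) dμB(z) = ofReal (s^(-q)) * pot q μB (s⁻¹ • (y - b))
= ofReal (s^(-q) fq n q (max (r²/s² - 1) 0))`, `r = ‖y - b‖`.  By Tonelli `pot q Λ y = ∫⁻ s in Ioo 0 A, ofReal (gg s) * ofReal (fq n q (max (r²/s²-1) 0))`, and by `ofReal_fq`
`ofReal (fq (max (r²/s²-1) 0)) = ∫⁻ τ in Ioi 0, ofReal (wt τ) * (if r²/s² - 1 < τ then 1 else 0)`; the condition is `r/√(1+τ) < s`.  Tonelli again and `lintegral_gg` with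
`s₀ = r/√(1+τ)`, then `scaling`. -/
theorem exists_dual {q : ℝ} (hn : 1 ≤ n) (hq0 : 0 < q) (hq2 : (n : ℝ) - 2 < q) (hqn : q < n)
    {H P : ℝ} (hH : 0 < H) (hP : 0 < P) (hP2 : P < 2) (b : E n) :
    ∃ Λ : Measure (E n), Λ univ ≠ ⊤ ∧ ∀ y, pot q Λ y =
      ENNReal.ofReal ((H ^ 2 + ‖y - b‖ ^ 2) ^ (-q / 2) *
        JJ n q P (2 * ‖y - b‖ ^ 2 / (H ^ 2 + ‖y - b‖ ^ 2))) := by
  obtain ⟨-, μ, hPK, hpotB⟩ := ball_pot hn hq0 hq2 hqn
  have hprob : IsProbabilityMeasure μ := ⟨hPK.1⟩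
  set A : ℝ := AA H P with hA
  have hA0 : 0 < A := AA_pos hH hP hP2
  set ρ : Measure ℝ := (volume.restrict (Ioo (0 : ℝ) A)).withDensity
    (fun s => ENNReal.ofReal (s ^ q * gg n q H P s)) with hρ
  have hdm : Measurable fun s : ℝ => ENNReal.ofReal (s ^ q * gg n q H P s) :=
    ((measurable_id.pow_const _).mul measurable_gg).ennreal_ofReal
  have hρfin : ρ univ < ⊤ := by
    rw [hρ, withDensity_apply _ MeasurableSet.univ, Measure.restrict_univ]
    have h1 : ∫⁻ s in Ioo (0 : ℝ) A, ENNReal.ofReal (s ^ q * gg n q H P s) ≤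
        ∫⁻ s in Ioo (0 : ℝ) A, ENNReal.ofReal (A ^ q) * ENNReal.ofReal (gg n q H P s) := by
      refine setLIntegral_mono (measurable_const.mul measurable_gg.ennreal_ofReal) fun s hs => ?_
      rw [← ENNReal.ofReal_mul (by positivity)]
      refine ENNReal.ofReal_le_ofReal ?_
      exact mul_le_mul_of_nonneg_right (Real.rpow_le_rpow hs.1.le hs.2.le hq0.le)
        (gg_nonneg hH hP hP2 hs.1.le hs.2)
    refine lt_of_le_of_lt h1 ?_
    rw [lintegral_const_mul _ measurable_gg.ennreal_ofReal, hA, lintegral_gg hH hP hP2 le_rfl]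
    exact ENNReal.mul_lt_top ENNReal.ofReal_lt_top ENNReal.ofReal_lt_top
  have : IsFiniteMeasure ρ := ⟨hρfin⟩
  have hsm : Measurable fun p : ℝ × E n => b + p.1 • p.2 :=
    measurable_const.add (measurable_fst.smul measurable_snd)
  set Λ : Measure (E n) := Measure.map (fun p : ℝ × E n => b + p.1 • p.2) (ρ.prod μ) with hΛ
  have hfinΛ : IsFiniteMeasure Λ := by
    rw [hΛ]
    infer_instance
  refine ⟨Λ, (measure_lt_top _ _).ne, ?_⟩
  intro y
  set r : ℝ := ‖y - b‖ with hr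
  have hr0 : 0 ≤ r := norm_nonneg _
  have hkm : Measurable fun z : E n => (edist y z) ^ (-q) :=
    (measurable_const.edist measurable_id).pow_const _
  have hcm : Measurable fun p : ℝ × E n => (edist y (b + p.1 • p.2)) ^ (-q) := hkm.comp hsm
  have hpp : pot q Λ y = ∫⁻ s, ∫⁻ z, (edist y (b + s • z)) ^ (-q) ∂μ ∂ρ := by
    unfold pot
    rw [hΛ, lintegral_map hkm hsm, lintegral_prod _ hcm.aemeasurable]
  have h1 : pot q Λ y = ∫⁻ s in Ioo (0 : ℝ) A, ENNReal.ofReal (gg n q H P s) *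
      ENNReal.ofReal (fq n q (max (r ^ 2 / s ^ 2 - 1) 0)) := by
    rw [hpp, hρ, lintegral_withDensity_eq_lintegral_mul₀ hdm.aemeasurable
        (hcm.lintegral_prod_right' (ν := μ)).aemeasurable]
    refine setLIntegral_congr_fun measurableSet_Ioo fun s hs => ?_
    have hs0 : 0 < s := hs.1
    simp only [Pi.mul_apply]
    have h2 : ∀ z : E n, edist y (b + s • z) = edist (y - b) (s • z) := by
      intro z
      rw [edist_dist, edist_dist, dist_eq_norm, dist_eq_norm, sub_sub]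
    simp only [h2]
    rw [P3_scale μ (y - b) hs0, hpotB, norm_smul, Real.norm_of_nonneg (inv_nonneg.2 hs0.le)]
    have h3 : (s⁻¹ * ‖y - b‖) ^ 2 = r ^ 2 / s ^ 2 := by
      rw [hr]
      field_simp
    rw [h3, ← mul_assoc, ← ENNReal.ofReal_mul
      (mul_nonneg (Real.rpow_nonneg hs0.le _) (gg_nonneg hH hP hP2 hs0.le hs.2))]
    congr 2
    rw [Real.rpow_neg hs0.le]
    have h4 : s ^ q ≠ 0 := (Real.rpow_pos_of_pos hs0 _).ne'
    field_simp
  have h2 : pot q Λ y = ∫⁻ s in Ioo (0 : ℝ) A, ∫⁻ τ in Ioi (0 : ℝ),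
      ENNReal.ofReal (gg n q H P s) * (ENNReal.ofReal (wt n q τ) *
        (if r / Real.sqrt (1 + τ) < s then 1 else 0)) := by
    rw [h1]
    refine setLIntegral_congr_fun measurableSet_Ioo fun s hs => ?_
    rw [lintegral_const_mul' _ _ ENNReal.ofReal_ne_top, D3_fq hq0 hqn hr0 hs.1]
  have hmeas : Measurable (Function.uncurry fun (s τ : ℝ) =>
      ENNReal.ofReal (gg n q H P s) * (ENNReal.ofReal (wt n q τ) *
        (if r / Real.sqrt (1 + τ) < s then (1 : ℝ≥0∞) else 0))) := by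
    unfold Function.uncurry
    refine (measurable_gg.comp measurable_fst).ennreal_ofReal.mul
      (((D3_measurable_wt n q).comp measurable_snd).ennreal_ofReal.mul ?_)
    refine Measurable.ite ?_ measurable_const measurable_const
    refine measurableSet_lt ?_ measurable_fst
    exact measurable_const.div ((measurable_const.add measurable_snd).sqrt)
  rw [h2, lintegral_lintegral_swap hmeas.aemeasurable, ← scaling hq0 hqn hH hP hP2 hr0]
  refine setLIntegral_congr_fun measurableSet_Ioi fun τ hτ => ?_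
  have hs₀ : 0 ≤ r / Real.sqrt (1 + τ) := by positivity
  rw [← lintegral_gg hH hP hP2 hs₀, ← lintegral_const_mul' _ _ ENNReal.ofReal_ne_top,
    ← lintegral_indicator measurableSet_Ioo, ← lintegral_indicator measurableSet_Ioo]
  refine lintegral_congr fun s => ?_
  by_cases h3 : r / Real.sqrt (1 + τ) < s
  · by_cases h4 : s < A
    · rw [indicator_of_mem (show s ∈ Ioo 0 A from ⟨lt_of_le_of_lt hs₀ h3, h4⟩),
        indicator_of_mem (show s ∈ Ioo (r / Real.sqrt (1 + τ)) (AA H P) from ⟨h3, h4⟩),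
        if_pos h3, mul_one, mul_comm]
    · rw [indicator_of_notMem (fun h => h4 h.2), indicator_of_notMem (fun h => h4 h.2)]
  · rw [indicator_of_notMem (fun h : s ∈ Ioo (r / Real.sqrt (1 + τ)) (AA H P) => h3 h.1)]
    by_cases h5 : s ∈ Ioo 0 A
    · rw [indicator_of_mem h5, if_neg h3, mul_zero, mul_zero]
    · rw [indicator_of_notMem h5]

end Pool.Agent.Lib.MP_6cd19d_an.T2
end

section

/-!
# The integral inequality
-/

set_option autoImplicit false

open MeasureTheory Set Filter Topology Metric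
open scoped ENNReal NNReal RealInnerProductSpace

namespace Pool.Agent.Lib.MP_6cd19d_an.T2

open Pool.Agent.Lib.MP_6cd19d_an.ND Pool.Agent.Lib.MP_6cd19d_an.A

variable {n : ℕ}

private theorem E2_norm (z : E (n + 1)) (ξ : E n) : |yc z| ≤ ‖z - emb ξ‖ := by
  have h := norm_sub_emb_sq z ξ
  refine abs_le_of_sq_le_sq ?_ (norm_nonneg _)
  rw [h]
  exact le_add_of_nonneg_left (sq_nonneg _)

private theorem E2_pos {z : E (n + 1)} (hy : yc z ≠ 0) (ξ : E n) : 0 < ‖z - emb ξ‖ :=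
  lt_of_lt_of_le (abs_pos.mpr hy) (E2_norm z ξ)

private theorem E2_D {z : E (n + 1)} (hy : yc z ≠ 0) (B : E n) : 0 < ‖B‖ ^ 2 + (yc z) ^ 2 := by
  have h1 : 0 < (yc z) ^ 2 := by positivity
  have h2 : 0 ≤ ‖B‖ ^ 2 := sq_nonneg _
  linarith

private theorem E2_cont {z : E (n + 1)} (hy : yc z ≠ 0) (q : ℝ) :
    Continuous fun ξ : E n => ‖z - emb ξ‖ ^ (-q) :=
  (continuous_const.sub emb_isometry.continuous).norm.rpow_const fun ξ =>
    Or.inl (E2_pos hy ξ).ne'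

private theorem E2_contX {z : E (n + 1)} (hy : yc z ≠ 0) (B : E n) :
    Continuous fun ξ : E n => XX z B ξ := by
  have h1 : Continuous fun ξ : E n => ‖z - emb ξ‖ :=
    (continuous_const.sub emb_isometry.continuous).norm
  have h2 : Continuous fun ξ : E n => ‖ξ - (prj z - B)‖ := (continuous_id.sub continuous_const).norm
  unfold XX
  refine continuous_const.sub ((continuous_const.mul (h2.pow 2)).div
    (continuous_const.mul (h1.pow 2)) fun ξ => ?_)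
  have := E2_pos hy ξ
  have := E2_D hy B
  positivity

private theorem E2_le {z : E (n + 1)} (hy : yc z ≠ 0) {q : ℝ} (hq0 : 0 < q) (ξ : E n) :
    ‖z - emb ξ‖ ^ (-q) ≤ |yc z| ^ (-q) :=
  Real.rpow_le_rpow_of_nonpos (abs_pos.mpr hy) (E2_norm z ξ) (by linarith)

private theorem E2_XX_le {z : E (n + 1)} (B ξ : E n) : XX z B ξ ≤ 2 := by
  rw [XX]
  have : 0 ≤ 2 * (yc z) ^ 2 * ‖ξ - (prj z - B)‖ ^ 2 /
      ((‖B‖ ^ 2 + (yc z) ^ 2) * ‖z - emb ξ‖ ^ 2) := by positivity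
  linarith

private theorem E2_int {q : ℝ} (hq0 : 0 < q) {μ : Measure (E n)} (hμ : μ univ ≠ ⊤)
    {z : E (n + 1)} (hy : yc z ≠ 0) (B : E n) :
    Integrable (fun ξ => ‖z - emb ξ‖ ^ (-q)) μ ∧
      Integrable (fun ξ => ‖z - emb ξ‖ ^ (-q) * XX z B ξ) μ := by
  have : IsFiniteMeasure μ := ⟨lt_top_iff_ne_top.mpr hμ⟩
  have h1 : ∀ ξ : E n, 0 ≤ ‖z - emb ξ‖ ^ (-q) := fun ξ => Real.rpow_nonneg (norm_nonneg _) _
  constructor
  · refine Integrable.of_bound (E2_cont hy q).aestronglyMeasurable (|yc z| ^ (-q)) ?_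
    refine Eventually.of_forall fun ξ => ?_
    rw [Real.norm_of_nonneg (h1 ξ)]
    exact E2_le hy hq0 ξ
  · refine Integrable.of_bound ((E2_cont hy q).mul (E2_contX hy B)).aestronglyMeasurable
      (|yc z| ^ (-q) * 2) ?_
    refine Eventually.of_forall fun ξ => ?_
    rw [Real.norm_of_nonneg (mul_nonneg (h1 ξ) (XX_nonneg hy))]
    exact mul_le_mul (E2_le hy hq0 ξ) (E2_XX_le B ξ) (XX_nonneg hy)
      (Real.rpow_nonneg (abs_nonneg _) _)

private theorem E2_edist {q : ℝ} {x ξ : E n} (h : ξ ≠ x) :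
    (edist ξ x) ^ (-q) = ENNReal.ofReal (‖ξ - x‖ ^ (-q)) := by
  have h0 : 0 < ‖ξ - x‖ := norm_pos_iff.2 (sub_ne_zero.2 h)
  rw [edist_dist, dist_eq_norm, ENNReal.ofReal_rpow_of_pos h0]

private theorem E2_rpow {q s t D : ℝ} (hs : 0 < s) (ht : 0 < t) (hD : 0 < D) :
    t ^ (-q) * (s ^ 2 / (t ^ 2 * D)) ^ (-q / 2) = D ^ (q / 2) * s ^ (-q) := by
  have e1 : ∀ x : ℝ, 0 < x → (x ^ 2) ^ (-q / 2) = x ^ (-q) := fun x hx => by
    rw [← Real.rpow_natCast x 2, ← Real.rpow_mul hx.le]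
    congr 1
    push_cast
    ring
  rw [Real.div_rpow (by positivity) (by positivity), Real.mul_rpow (by positivity) hD.le, e1 s hs,
    e1 t ht]
  have h1 : D ^ (-q / 2) = (D ^ (q / 2))⁻¹ := by
    rw [← Real.rpow_neg hD.le]
    congr 1
    ring
  rw [h1]
  have h2 : 0 < t ^ (-q) := Real.rpow_pos_of_pos ht _
  have h3 : 0 < D ^ (q / 2) := Real.rpow_pos_of_pos hD _
  field_simp

private theorem E2_zero {z : E (n + 1)} {q : ℝ} (hy : yc z ≠ 0) (B : E n) :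
    ((|yc z| / (‖B‖ ^ 2 + (yc z) ^ 2)) ^ 2 +
        ‖(0 : E n) - (‖B‖ ^ 2 + (yc z) ^ 2)⁻¹ • B‖ ^ 2) ^ (-q / 2) =
      (‖B‖ ^ 2 + (yc z) ^ 2) ^ (q / 2) ∧
    2 * ‖(0 : E n) - (‖B‖ ^ 2 + (yc z) ^ 2)⁻¹ • B‖ ^ 2 /
      ((|yc z| / (‖B‖ ^ 2 + (yc z) ^ 2)) ^ 2 +
        ‖(0 : E n) - (‖B‖ ^ 2 + (yc z) ^ 2)⁻¹ • B‖ ^ 2) =
      2 * ‖B‖ ^ 2 / (‖B‖ ^ 2 + (yc z) ^ 2) := by
  have hD := E2_D hy B
  rw [geom_zero hy]
  constructor
  · rw [Real.inv_rpow hD.le, ← Real.rpow_neg hD.le]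
    congr 1
    ring
  · rw [zero_sub, norm_neg, norm_smul, norm_inv, Real.norm_of_nonneg hD.le]
    field_simp

private theorem E2_mul_cancel {κ P t Q M w : ℝ} (hκ : 0 < κ) (hQ : 0 < Q)
    (h : κ * (P * t) - κ * (Q * M) ≤ κ * (P * t - Q * w)) : w ≤ M := by
  have h1 : κ * (P * t - Q * M) ≤ κ * (P * t - Q * w) := by linarith
  have h2 := le_of_mul_le_mul_left h1 hκ
  have h3 : Q * w ≤ Q * M := by linarith
  exact le_of_mul_le_mul_left h3 hQ

/-- (T2-E2) Proof.  `P = X₀/(1+l)`, `X₀ = 2‖B‖²/D ∈ (0, 2]`, so `0 < P < 2`; `H = |y|/D`, `b = D⁻¹ • B`; `Λ` from `exists_dual`.  `kelvin_le` with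
`a = prj z - B` (`no_atom`), `κ₀ = ofReal κ`, `κ = fq n q 0`.  `pot q Λ 0 = ofReal (D^(q/2) JJ P X₀)` (`geom_zero`: `(D⁻¹)^(-q/2) = D^(q/2)`, `2‖b‖²/(1/D) = X₀`).  For `ξ ≠ a` (μ-a.e.):
`(edist ξ a)^(-q) * pot q Λ (inv0 (ξ-a)) = ofReal (D^(q/2) ‖z - emb ξ‖^(-q) JJ P (XX z B ξ))` (`geom`, `XX_eq`), at least
`ofReal (D^(q/2) κ ‖z - emb ξ‖^(-q) (P - q/n XX))` by `JJ_ge`.  So (`ofReal (∫ f) ≤ ∫⁻ ofReal f`, integrability of the bounded continuous function on `K`)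
`κ ∫ ‖z - emb ξ‖^(-q) (P - q/n XX) dμ ≤ κ JJ P X₀`, and `JJ P X₀ = P (fq l - (1+l) (q/n) wq l)` by `JJ_eq` as `X₀ = (1+l) P`.  Cancel `κ > 0`:
`P t - (q/n) ∫ ‖·‖^(-q) XX ≤ P t - (q/n) X₀ wq l`. -/
theorem moment_ge {q : ℝ} (hn : 1 ≤ n) (hq0 : 0 < q) (hq2 : (n : ℝ) - 2 < q) (hqn : q < n)
    {K : Set (E n)} (hK : IsCompact K) {μ : Measure (E n)} (hμ : PK K μ)
    (hU : ∀ x, pot q μ x ≤ ENNReal.ofReal (fq n q 0)) {z : E (n + 1)} (hy : yc z ≠ 0) {l : ℝ}
    (hl : 0 < l) (ht : rU q (up μ) z = fq n q l) {B : E n} (hB : B ≠ 0) :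
    2 * ‖B‖ ^ 2 / (‖B‖ ^ 2 + (yc z) ^ 2) * wq n q l ≤
      ∫ ξ, ‖z - emb ξ‖ ^ (-q) * XX z B ξ ∂μ := by
  have hD := E2_D hy B
  have hn0 : (0 : ℝ) < n := by exact_mod_cast hn
  have hfin : μ univ ≠ ⊤ := by rw [hμ.1]; exact ENNReal.one_ne_top
  have hκ : 0 < fq n q 0 := fq_pos hq0 hqn le_rfl
  have hBn : 0 < ‖B‖ := norm_pos_iff.mpr hB
  obtain ⟨X0, hX0⟩ : ∃ X0, X0 = 2 * ‖B‖ ^ 2 / (‖B‖ ^ 2 + (yc z) ^ 2) := ⟨_, rfl⟩
  have hX0p : 0 < X0 := by rw [hX0]; positivity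
  have hX02 : X0 < 2 := by
    rw [hX0, div_lt_iff₀ hD]
    have : 0 < (yc z) ^ 2 := by positivity
    linarith
  obtain ⟨P, hP⟩ : ∃ P, P = X0 / (1 + l) := ⟨_, rfl⟩
  have hl1 : 0 < 1 + l := by linarith
  have hPp : 0 < P := by rw [hP]; positivity
  have hP2 : P < 2 := by
    rw [hP, div_lt_iff₀ hl1]
    linarith
  have hPX : (1 + l) * P = X0 := by
    rw [hP]
    field_simp
  have hH : 0 < |yc z| / (‖B‖ ^ 2 + (yc z) ^ 2) := div_pos (abs_pos.mpr hy) hD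
  obtain ⟨Λ, hΛ, hpot⟩ := exists_dual hn hq0 hq2 hqn hH hPp hP2 ((‖B‖ ^ 2 + (yc z) ^ 2)⁻¹ • B)
  have hpot0 := hpot 0
  obtain ⟨hz1, hz2⟩ := E2_zero (q := q) hy B
  rw [hz1, hz2, ← hX0] at hpot0
  have ha := no_atom hq0 ENNReal.ofReal_ne_top hU (prj z - B)
  have hkel := kelvin_le hq0 hfin hΛ hU ha (by rw [hpot0]; exact ENNReal.ofReal_ne_top)
  have hDq : 0 < (‖B‖ ^ 2 + (yc z) ^ 2) ^ (q / 2) := Real.rpow_pos_of_pos hD _
  rw [hpot0, ← ENNReal.ofReal_mul hκ.le] at hkel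
  -- the lower bound
  have hae : ∀ᵐ ξ ∂μ, ξ ≠ prj z - B := by
    rw [ae_iff]
    simpa using ha
  have hlow : ∫⁻ ξ, ENNReal.ofReal ((‖B‖ ^ 2 + (yc z) ^ 2) ^ (q / 2) *
      (fq n q 0 * P * ‖z - emb ξ‖ ^ (-q) -
        fq n q 0 * (q / n) * (‖z - emb ξ‖ ^ (-q) * XX z B ξ))) ∂μ ≤
      ENNReal.ofReal (fq n q 0 * ((‖B‖ ^ 2 + (yc z) ^ 2) ^ (q / 2) * JJ n q P X0)) := by
    refine le_trans (lintegral_mono_ae ?_) hkel
    filter_upwards [hae] with ξ hξ
    have ht : 0 < ‖ξ - (prj z - B)‖ := norm_pos_iff.2 (sub_ne_zero.2 hξ)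
    rw [E2_edist hξ, hpot, XX_eq hy hξ, geom hy hξ, ← ENNReal.ofReal_mul
      (Real.rpow_nonneg (norm_nonneg _) _), ← mul_assoc (‖ξ - (prj z - B)‖ ^ (-q)),
      E2_rpow (E2_pos hy ξ) ht hD]
    refine ENNReal.ofReal_le_ofReal ?_
    have h1 := JJ_ge (n := n) hq0 hqn hPp.le (XX_nonneg (B := B) (ξ := ξ) hy)
    have h2 : 0 ≤ ‖z - emb ξ‖ ^ (-q) := Real.rpow_nonneg (norm_nonneg _) _
    calc (‖B‖ ^ 2 + (yc z) ^ 2) ^ (q / 2) * (fq n q 0 * P * ‖z - emb ξ‖ ^ (-q) -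
          fq n q 0 * (q / n) * (‖z - emb ξ‖ ^ (-q) * XX z B ξ)) =
          (‖B‖ ^ 2 + (yc z) ^ 2) ^ (q / 2) * ‖z - emb ξ‖ ^ (-q) *
            (fq n q 0 * (P - q / n * XX z B ξ)) := by ring
      _ ≤ _ := mul_le_mul_of_nonneg_left h1 (mul_nonneg hDq.le h2)
  obtain ⟨i1, i2⟩ := E2_int hq0 hfin hy B
  have j1 : Integrable (fun ξ => fq n q 0 * P * ‖z - emb ξ‖ ^ (-q)) μ := i1.const_mul _
  have j2 : Integrable (fun ξ => fq n q 0 * (q / n) * (‖z - emb ξ‖ ^ (-q) * XX z B ξ)) μ :=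
    i2.const_mul _
  have j3 : Integrable (fun ξ => (‖B‖ ^ 2 + (yc z) ^ 2) ^ (q / 2) *
      (fq n q 0 * P * ‖z - emb ξ‖ ^ (-q) -
        fq n q 0 * (q / n) * (‖z - emb ξ‖ ^ (-q) * XX z B ξ))) μ := (j1.sub j2).const_mul _
  have hJ : 0 ≤ JJ n q P X0 := JJ_nonneg hq0
  have h5 := ENNReal.toReal_mono ENNReal.ofReal_ne_top hlow
  rw [ENNReal.toReal_ofReal (by positivity)] at h5
  have h6 : ∫ ξ, (‖B‖ ^ 2 + (yc z) ^ 2) ^ (q / 2) *
      (fq n q 0 * P * ‖z - emb ξ‖ ^ (-q) -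
        fq n q 0 * (q / n) * (‖z - emb ξ‖ ^ (-q) * XX z B ξ)) ∂μ ≤
      fq n q 0 * ((‖B‖ ^ 2 + (yc z) ^ 2) ^ (q / 2) * JJ n q P X0) := by
    rw [integral_eq_lintegral_pos_part_sub_lintegral_neg_part j3]
    have h7 : 0 ≤ (∫⁻ ξ, ENNReal.ofReal (-((‖B‖ ^ 2 + (yc z) ^ 2) ^ (q / 2) *
      (fq n q 0 * P * ‖z - emb ξ‖ ^ (-q) -
        fq n q 0 * (q / n) * (‖z - emb ξ‖ ^ (-q) * XX z B ξ)))) ∂μ).toReal :=
      ENNReal.toReal_nonneg
    linarith
  have ht' : ∫ ξ, ‖z - emb ξ‖ ^ (-q) ∂μ = fq n q l := by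
    rw [← ht, rU, integral_up]
  rw [integral_const_mul, integral_sub j1 j2, integral_const_mul, integral_const_mul, ht',
    mul_left_comm (fq n q 0)] at h6
  have h8 := le_of_mul_le_mul_left h6 hDq
  have h9 := JJ_eq (n := n) hq0 hqn hPp hl.le
  rw [hPX] at h9
  rw [h9] at h8
  rw [← hX0]
  refine E2_mul_cancel (P := P) (t := fq n q l) (Q := q / n) hκ (by positivity) ?_
  rw [← hPX]
  calc fq n q 0 * (P * fq n q l) - fq n q 0 * (q / n * ∫ ξ, ‖z - emb ξ‖ ^ (-q) * XX z B ξ ∂μ) =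
      fq n q 0 * P * fq n q l - fq n q 0 * (q / n) * ∫ ξ, ‖z - emb ξ‖ ^ (-q) * XX z B ξ ∂μ := by ring
    _ ≤ _ := h8
    _ = _ := by ring

end Pool.Agent.Lib.MP_6cd19d_an.T2
end

section

/-!
# The quadratic form
-/

set_option autoImplicit false

open MeasureTheory Set Filter Topology Metric
open scoped ENNReal NNReal RealInnerProductSpace

namespace Pool.Agent.Lib.MP_6cd19d_an.T2

open Pool.Agent.Lib.MP_6cd19d_an.ND Pool.Agent.Lib.MP_6cd19d_an.A

variable {n : ℕ}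

/-- (T2-E3a) The left side of `moment_ge` in terms of the potentials.
`‖ξ - a‖² = ‖z - emb ξ‖² + 2 ⟪emb ξ - z, (B, y)⟫ + D` (`a = prj z - B`, `z - emb a = (B, y)`), so, with `t = rU`, `S = rS`, `v = vV q (up μ) z`, `yc v = - y S`:
`∫ ‖z-ξ‖^(-q) XX = 2 t - (2 y²/D) (t + 2 ⟪prj v, B⟫ - 2 y² S + D S)`. -/
theorem moment_eq {q : ℝ} {K : Set (E n)} (hK : IsCompact K) {μ : Measure (E n)} (hμ : PK K μ)
    {z : E (n + 1)} (hy : yc z ≠ 0) (B : E n) :
    ∫ ξ, ‖z - emb ξ‖ ^ (-q) * XX z B ξ ∂μ =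
      2 * rU q (up μ) z - 2 * (yc z) ^ 2 / (‖B‖ ^ 2 + (yc z) ^ 2) *
        (rU q (up μ) z + 2 * ⟪prj (vV q (up μ) z), B⟫ - 2 * (yc z) ^ 2 * rS q (up μ) z +
          (‖B‖ ^ 2 + (yc z) ^ 2) * rS q (up μ) z) := by
  have hz : z ∉ emb '' K := fun h => hy (mem_emb_image.1 h).2
  have hKc : IsCompact (emb '' K) := isCompact_emb hK
  have hfin : up μ univ ≠ ⊤ := by
    rw [(PK_up hμ).1]
    exact ENNReal.one_ne_top
  have hD : 0 < ‖B‖ ^ 2 + (yc z) ^ 2 := by positivity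
  have hi1 := (integrable_rpow (p := -q) hKc hfin (PK_up hμ).2 hz).1
  have hi2 := (integrable_rpow (p := -q - 2) hKc hfin (PK_up hμ).2 hz).1
  have hi3 := ((integrable_rpow (p := -q - 2) hKc hfin (PK_up hμ).2 hz).2 (emb B)).1
  have hi4 := ((integrable_rpow (p := -q - 2) hKc hfin (PK_up hμ).2 hz).2 (emb B)).2
  have hI : ⟪prj (vV q (up μ) z), B⟫ = ∫ w, ‖z - w‖ ^ (-q - 2) * ⟪emb B, w - z⟫ ∂(up μ) := by
    have h1 : ⟪prj (vV q (up μ) z), B⟫ = ⟪emb B, vV q (up μ) z⟫ := by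
      rw [real_inner_comm, inner_eq (emb B), prj_emb, yc_emb]
      ring
    rw [h1, vV, ← integral_inner hi4]
    refine integral_congr_ae (Eventually.of_forall fun w => ?_)
    show ⟪emb B, ‖z - w‖ ^ (-q - 2) • (w - z)⟫ = ‖z - w‖ ^ (-q - 2) * ⟪emb B, w - z⟫
    rw [real_inner_smul_right]
  obtain ⟨G, hG⟩ : ∃ G : E (n + 1) → ℝ, G = fun w : E (n + 1) => 2 * ‖z - w‖ ^ (-q) -
      2 * (yc z) ^ 2 / (‖B‖ ^ 2 + (yc z) ^ 2) *
        (‖z - w‖ ^ (-q) + 2 * (‖z - w‖ ^ (-q - 2) * ⟪emb B, w - z⟫) +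
          (‖B‖ ^ 2 - (yc z) ^ 2) * ‖z - w‖ ^ (-q - 2)) := ⟨_, rfl⟩
  have hpt : ∀ ξ : E n, ‖z - emb ξ‖ ^ (-q) * XX z B ξ = G (emb ξ) := by
    intro ξ
    rw [hG]
    have hpos : 0 < ‖z - emb ξ‖ := by
      rw [norm_pos_iff, sub_ne_zero]
      rintro rfl
      exact hy (yc_emb ξ)
    have hr : ‖z - emb ξ‖ ^ (-q - 2) = ‖z - emb ξ‖ ^ (-q) / ‖z - emb ξ‖ ^ 2 := by
      rw [Real.rpow_sub hpos]
      congr 1
      exact Real.rpow_natCast _ 2
    have hin : ⟪emb B, emb ξ - z⟫ = ⟪B, ξ - prj z⟫ := by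
      rw [inner_eq (emb B), prj_sub, prj_emb, prj_emb, yc_emb]
      ring
    have hns : ‖ξ - (prj z - B)‖ ^ 2 =
        ‖z - emb ξ‖ ^ 2 + 2 * ⟪B, ξ - prj z⟫ + (‖B‖ ^ 2 - (yc z) ^ 2) := by
      have e1 : ξ - (prj z - B) = (ξ - prj z) + B := by abel
      rw [e1, norm_add_sq_real, norm_sub_emb_sq, real_inner_comm, norm_sub_rev (prj z) ξ]
      ring
    show ‖z - emb ξ‖ ^ (-q) * XX z B ξ = 2 * ‖z - emb ξ‖ ^ (-q) -
      2 * (yc z) ^ 2 / (‖B‖ ^ 2 + (yc z) ^ 2) *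
        (‖z - emb ξ‖ ^ (-q) + 2 * (‖z - emb ξ‖ ^ (-q - 2) * ⟪emb B, emb ξ - z⟫) +
          (‖B‖ ^ 2 - (yc z) ^ 2) * ‖z - emb ξ‖ ^ (-q - 2))
    rw [XX, hr, hin, hns]
    have h2 : ‖z - emb ξ‖ ^ 2 ≠ 0 := by positivity
    field_simp
  rw [integral_congr_ae (Eventually.of_forall hpt), ← integral_up μ G, hI, hG]
  have j1 : Integrable (fun w : E (n + 1) => 2 * ‖z - w‖ ^ (-q)) (up μ) := hi1.const_mul _
  have j2 : Integrable (fun w : E (n + 1) => 2 * (‖z - w‖ ^ (-q - 2) * ⟪emb B, w - z⟫)) (up μ) :=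
    hi3.const_mul _
  have j3 : Integrable (fun w : E (n + 1) => (‖B‖ ^ 2 - (yc z) ^ 2) * ‖z - w‖ ^ (-q - 2))
      (up μ) := hi2.const_mul _
  have j4 : Integrable (fun w : E (n + 1) => ‖z - w‖ ^ (-q) +
      2 * (‖z - w‖ ^ (-q - 2) * ⟪emb B, w - z⟫)) (up μ) := hi1.add j2
  have j5 : Integrable (fun w : E (n + 1) => 2 * (yc z) ^ 2 / (‖B‖ ^ 2 + (yc z) ^ 2) *
      (‖z - w‖ ^ (-q) + 2 * (‖z - w‖ ^ (-q - 2) * ⟪emb B, w - z⟫) +
        (‖B‖ ^ 2 - (yc z) ^ 2) * ‖z - w‖ ^ (-q - 2))) (up μ) := (j4.add j3).const_mul _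
  rw [integral_sub j1 j5, integral_const_mul, integral_const_mul, integral_add j4 j3,
    integral_add hi1 j2, integral_const_mul, integral_const_mul]
  show 2 * rU q (up μ) z - 2 * (yc z) ^ 2 / (‖B‖ ^ 2 + (yc z) ^ 2) * (rU q (up μ) z +
    2 * _ + (‖B‖ ^ 2 - (yc z) ^ 2) * rS q (up μ) z) = _
  ring

/-- (T2-E3b) The quadratic form: multiply `moment_ge` by `D/2`, use `fq l - wq l = th l` (`fq_sub_wq`); for `B = 0` it is `y⁴ S ≥ 0`. -/
theorem quad_form {q : ℝ} (hn : 1 ≤ n) (hq0 : 0 < q) (hq2 : (n : ℝ) - 2 < q) (hqn : q < n)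
    {K : Set (E n)} (hK : IsCompact K) {μ : Measure (E n)} (hμ : PK K μ)
    (hU : ∀ x, pot q μ x ≤ ENNReal.ofReal (fq n q 0)) {z : E (n + 1)} (hy : yc z ≠ 0) {l : ℝ}
    (hl : 0 < l) (ht : rU q (up μ) z = fq n q l) (B : E n) :
    0 ≤ (th n q l - (yc z) ^ 2 * rS q (up μ) z) * ‖B‖ ^ 2 -
      2 * (yc z) ^ 2 * ⟪prj (vV q (up μ) z), B⟫ + (yc z) ^ 4 * rS q (up μ) z := by
  have hz : z ∉ emb '' K := fun h => hy (mem_emb_image.1 h).2
  have hKc : IsCompact (emb '' K) := isCompact_emb hK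
  have h1 : up μ univ = 1 := (PK_up hμ).1
  have hfin : up μ univ ≠ ⊤ := by
    rw [h1]
    exact ENNReal.one_ne_top
  have h0 : up μ univ ≠ 0 := by
    rw [h1]
    exact one_ne_zero
  have hS := (rU_pos (q := q) hKc hfin h0 (PK_up hμ).2 hz).2
  by_cases hB : B = 0
  · rw [hB]
    simp only [norm_zero, inner_zero_right]
    have : 0 < (yc z) ^ 4 * rS q (up μ) z := by positivity
    linarith
  · have hD : 0 < ‖B‖ ^ 2 + (yc z) ^ 2 := by positivity
    have h2 := moment_ge hn hq0 hq2 hqn hK hμ hU hy hl ht hB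
    rw [moment_eq hK hμ hy B] at h2
    have h3 := mul_le_mul_of_nonneg_left h2 (a := (‖B‖ ^ 2 + (yc z) ^ 2) / 2) (by positivity)
    have e1 : (‖B‖ ^ 2 + (yc z) ^ 2) / 2 * (2 * ‖B‖ ^ 2 / (‖B‖ ^ 2 + (yc z) ^ 2) * wq n q l) =
        ‖B‖ ^ 2 * wq n q l := by
      field_simp
    have e2 : (‖B‖ ^ 2 + (yc z) ^ 2) / 2 * (2 * rU q (up μ) z -
        2 * (yc z) ^ 2 / (‖B‖ ^ 2 + (yc z) ^ 2) *
        (rU q (up μ) z + 2 * ⟪prj (vV q (up μ) z), B⟫ - 2 * (yc z) ^ 2 * rS q (up μ) z +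
          (‖B‖ ^ 2 + (yc z) ^ 2) * rS q (up μ) z)) =
        (‖B‖ ^ 2 + (yc z) ^ 2) * rU q (up μ) z - (yc z) ^ 2 *
        (rU q (up μ) z + 2 * ⟪prj (vV q (up μ) z), B⟫ - 2 * (yc z) ^ 2 * rS q (up μ) z +
          (‖B‖ ^ 2 + (yc z) ^ 2) * rS q (up μ) z) := by
      field_simp
    rw [e1, e2, ht] at h3
    have h4 := fq_sub_wq hq0 hqn hl.le
    have h5 : wq n q l = fq n q l - th n q l := by linarith
    rw [h5] at h3
    nlinarith [h3]

/-- (T2-E3c) The pointwise inequality off the hyperplane.  `α = th - y² S`, `v = prj (vV)`, `S > 0` (`A.rU_pos`).  `B = s v`: `α s² ‖v‖² - 2 y² s ‖v‖² + y⁴ S ≥ 0` for all real `s`; if `v = 0`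
take any `B ≠ 0` (`n ≥ 1`) large to get `α ≥ 0`, if `v ≠ 0` `s → ∞` gives `α ≥ 0`, and then `s = y² / α` (or `s` large if `α = 0`, contradiction) gives `‖v‖² ≤ α S`.
So `‖vV‖² = ‖v‖² + y² S² ≤ th S` (`norm_sq_eq`, `yc_vV`). -/
theorem pointwise_off {q : ℝ} (hn : 1 ≤ n) (hq0 : 0 < q) (hq2 : (n : ℝ) - 2 < q) (hqn : q < n)
    {K : Set (E n)} (hK : IsCompact K) {μ : Measure (E n)} (hμ : PK K μ)
    (hU : ∀ x, pot q μ x ≤ ENNReal.ofReal (fq n q 0)) {z : E (n + 1)} (hy : yc z ≠ 0) {l : ℝ}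
    (hl : 0 < l) (ht : rU q (up μ) z = fq n q l) :
    ‖vV q (up μ) z‖ ^ 2 ≤ th n q l * rS q (up μ) z := by
  have hz : z ∉ emb '' K := fun h => hy (mem_emb_image.1 h).2
  have hKc : IsCompact (emb '' K) := isCompact_emb hK
  have h1 : up μ univ = 1 := (PK_up hμ).1
  have hfin : up μ univ ≠ ⊤ := by
    rw [h1]
    exact ENNReal.one_ne_top
  have h0 : up μ univ ≠ 0 := by
    rw [h1]
    exact one_ne_zero
  have hS := (rU_pos (q := q) hKc hfin h0 (PK_up hμ).2 hz).2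
  have hy2 : 0 < (yc z) ^ 2 := by positivity
  have hy4 : 0 < (yc z) ^ 4 := by positivity
  have hyc := yc_vV (q := q) hK (μ := μ) (by rw [hμ.1]; exact ENNReal.one_ne_top) hμ.2 hz
  have hmain : ‖prj (vV q (up μ) z)‖ ^ 2 ≤
      (th n q l - (yc z) ^ 2 * rS q (up μ) z) * rS q (up μ) z := by
    by_cases hv : prj (vV q (up μ) z) = 0
    · have h2 : ∀ s : ℝ, 0 ≤ (th n q l - (yc z) ^ 2 * rS q (up μ) z) * (s * s) + 0 * s +
          (yc z) ^ 4 * rS q (up μ) z := by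
        intro s
        have h3 := quad_form hn hq0 hq2 hqn hK hμ hU hy hl ht (s • (bv ⟨0, hn⟩ : E n))
        rw [hv, inner_zero_left, norm_smul, norm_bv, mul_one, Real.norm_eq_abs, sq_abs] at h3
        nlinarith [h3]
      have h4 := discrim_le_zero h2
      unfold discrim at h4
      have h5 : 0 ≤ th n q l - (yc z) ^ 2 * rS q (up μ) z := by
        by_contra h6
        push Not at h6
        have h7 : 0 < (yc z) ^ 4 * rS q (up μ) z := by positivity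
        nlinarith [mul_pos (neg_pos.2 h6) h7]
      rw [hv, norm_zero]
      have := mul_nonneg h5 hS.le
      nlinarith [this]
    · have hX : 0 < ‖prj (vV q (up μ) z)‖ ^ 2 := by positivity
      have h2 : ∀ s : ℝ, 0 ≤ ((th n q l - (yc z) ^ 2 * rS q (up μ) z) *
          ‖prj (vV q (up μ) z)‖ ^ 2) * (s * s) +
          (-(2 * (yc z) ^ 2 * ‖prj (vV q (up μ) z)‖ ^ 2)) * s + (yc z) ^ 4 * rS q (up μ) z := by
        intro s
        have h3 := quad_form hn hq0 hq2 hqn hK hμ hU hy hl ht (s • prj (vV q (up μ) z))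
        rw [real_inner_smul_right, real_inner_self_eq_norm_sq, norm_smul, mul_pow,
          Real.norm_eq_abs, sq_abs] at h3
        nlinarith [h3]
      have h4 := discrim_le_zero h2
      unfold discrim at h4
      have h5 : (4 * (yc z) ^ 4 * ‖prj (vV q (up μ) z)‖ ^ 2) * (‖prj (vV q (up μ) z)‖ ^ 2 -
          (th n q l - (yc z) ^ 2 * rS q (up μ) z) * rS q (up μ) z) ≤ 0 := by
        nlinarith [h4]
      by_contra h6
      push Not at h6
      have h7 : 0 < 4 * (yc z) ^ 4 * ‖prj (vV q (up μ) z)‖ ^ 2 := by positivity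
      have h8 := mul_pos h7 (sub_pos.2 h6)
      linarith
  rw [norm_sq_eq, hyc]
  nlinarith [hmain]

end Pool.Agent.Lib.MP_6cd19d_an.T2
end

section

/-!
# The pointwise inequality
-/

set_option autoImplicit false

open MeasureTheory Set Filter Topology Metric
open scoped ENNReal NNReal RealInnerProductSpace

namespace Pool.Agent.Lib.MP_6cd19d_an.T2

open Pool.Agent.Lib.MP_6cd19d_an.ND Pool.Agent.Lib.MP_6cd19d_an.A

variable {n : ℕ}

/-- (T2-E4) The pointwise inequality everywhere off `K`.  For `yc z ≠ 0`: `pointwise_off` with `l = L (rU)`.  For `yc z = 0`: the points `z_k = z + (1/(k+1)) e_last` are off the hyperplane and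
off `emb '' K`, converge to `z`; `rU`, `rS` (`= rU` with exponent `q+2`), `vV` are continuous at `z` (`A.continuousAt_rU`, `continuousAt_vV`), `L` is continuous at `rU z` and `th n q` is continuous at
`L (rU z) > 0`; pass to the limit. -/
theorem pointwise {q : ℝ} (hn : 1 ≤ n) (hq0 : 0 < q) (hq2 : (n : ℝ) - 2 < q) (hqn : q < n)
    {L : ℝ → ℝ} (hLc : ContinuousOn L (Ioo 0 (fq n q 0)))
    (hL : ∀ t ∈ Ioo 0 (fq n q 0), 0 < L t ∧ fq n q (L t) = t)
    {K : Set (E n)} (hK : IsCompact K) {μ : Measure (E n)} (hμ : PK K μ)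
    (hU : ∀ x, pot q μ x ≤ ENNReal.ofReal (fq n q 0)) {z : E (n + 1)} (hz : z ∉ emb '' K) :
    ‖vV q (up μ) z‖ ^ 2 ≤ th n q (L (rU q (up μ) z)) * rS q (up μ) z := by
  have h0 : 0 ≤ fq n q 0 := (fq_pos hq0 hqn le_rfl).le
  have hrange : ∀ w : E (n + 1), w ∉ emb '' K → rU q (up μ) w ∈ Ioo 0 (fq n q 0) := fun w hw =>
    rU_up_lt hq0 hq2 hK hμ h0 hU hw
  -- the case off the hyperplane
  have hoff : ∀ w : E (n + 1), yc w ≠ 0 →
      ‖vV q (up μ) w‖ ^ 2 ≤ th n q (L (rU q (up μ) w)) * rS q (up μ) w := by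
    intro w hw
    have hwK : w ∉ emb '' K := fun h => hw (mem_emb_image.1 h).2
    obtain ⟨hl, ht⟩ := hL _ (hrange w hwK)
    exact pointwise_off hn hq0 hq2 hqn hK hμ hU hw hl ht.symm
  by_cases hy : yc z = 0
  swap
  · exact hoff z hy
  -- approximation by points off the hyperplane
  have hK' : IsCompact (emb '' K) := isCompact_emb hK
  have hfin : up μ univ ≠ ⊤ := by
    rw [up_univ, hμ.1]
    exact ENNReal.one_ne_top
  have hsupp : up μ (emb '' K)ᶜ = 0 := up_compl hμ.2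
  set e : E (n + 1) := EuclideanSpace.single (Fin.last n) (1 : ℝ) with he
  set zk : ℕ → E (n + 1) := fun k => z + (1 / ((k : ℝ) + 1)) • e with hzk
  have hlim : Tendsto zk atTop (𝓝 z) := by
    have h1 : Tendsto (fun k : ℕ => (1 / ((k : ℝ) + 1)) • e) atTop (𝓝 ((0 : ℝ) • e)) :=
      tendsto_one_div_add_atTop_nhds_zero_nat.smul_const e
    have h2 := h1.const_add z
    rw [zero_smul, add_zero] at h2
    exact h2
  have hyk : ∀ k, yc (zk k) ≠ 0 := by
    intro k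
    have h1 : yc (zk k) = yc z + 1 / ((k : ℝ) + 1) := by
      simp [hzk, yc, he]
    rw [h1, hy, zero_add]
    positivity
  have hrU : Tendsto (fun k => rU q (up μ) (zk k)) atTop (𝓝 (rU q (up μ) z)) :=
    (continuousAt_rU hK' hfin hsupp hz).tendsto.comp hlim
  have hrS : Tendsto (fun k => rS q (up μ) (zk k)) atTop (𝓝 (rS q (up μ) z)) := by
    have h1 : ∀ w : E (n + 1), rS q (up μ) w = rU (q + 2) (up μ) w := by
      intro w
      unfold rS rU
      have h2 : -q - 2 = -(q + 2) := by ring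
      rw [h2]
    simp only [h1]
    exact (continuousAt_rU hK' hfin hsupp hz).tendsto.comp hlim
  have hvV : Tendsto (fun k => vV q (up μ) (zk k)) atTop (𝓝 (vV q (up μ) z)) :=
    (continuousAt_vV hK' hfin hsupp hz).tendsto.comp hlim
  have hmem := hrange z hz
  have hLat : ContinuousAt L (rU q (up μ) z) := hLc.continuousAt (isOpen_Ioo.mem_nhds hmem)
  have hLk : Tendsto (fun k => L (rU q (up μ) (zk k))) atTop (𝓝 (L (rU q (up μ) z))) :=
    hLat.tendsto.comp hrU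
  have hlpos : 0 < L (rU q (up μ) z) := (hL _ hmem).1
  have hth : ContinuousAt (th n q) (L (rU q (up μ) z)) := by
    unfold th
    refine ContinuousAt.mul ?_ ?_
    · exact continuousAt_id.rpow_const (Or.inl hlpos.ne')
    · refine ContinuousAt.rpow_const (continuousAt_const.add continuousAt_id) (Or.inl ?_)
      positivity
  have hthk : Tendsto (fun k => th n q (L (rU q (up μ) (zk k)))) atTop
      (𝓝 (th n q (L (rU q (up μ) z)))) := hth.tendsto.comp hLk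
  exact le_of_tendsto_of_tendsto' (hvV.norm.pow 2) (hthk.mul hrS) (fun k => hoff _ (hyk k))

end Pool.Agent.Lib.MP_6cd19d_an.T2
end
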