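import Pool.Agent.Lib.MP_6cd19d_an.ND.B07
import Pool.Agent.Lib.MP_6cd19d_an.ND.B14
import Pool.Agent.Lib.MP_6cd19d_an.ND.B04

section

/-!
# The regularised potentials
-/

set_option autoImplicit false

open MeasureTheory Set Filter Topology Metric
open scoped ENNReal NNReal RealInnerProductSpace

namespace Pool.Agent.Lib.MP_6cd19d_an.T2

open Pool.Agent.Lib.MP_6cd19d_an.ND Pool.Agent.Lib.MP_6cd19d_an.A

variable {n : ℕ}

/-- The regularised Riesz potential of a measure on the hyperplane. -/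
noncomputable def wR (p e : ℝ) (ν : Measure (E n)) (z : E (n + 1)) : ℝ :=
  ∫ ξ, (‖z - emb ξ‖ ^ 2 + e ^ 2) ^ (-p / 2) ∂ν

theorem H2_continuous_emb : Continuous (emb : E n → E (n + 1)) := emb_isometry.continuous

theorem H2_fin {K : Set (E n)} {ν : Measure (E n)} (hν : PK K ν) : IsProbabilityMeasure ν :=
  ⟨hν.1⟩

/-- Integrability of functions which are continuous. -/
theorem H2_int {K : Set (E n)} (hK : IsCompact K) {ν : Measure (E n)} (hν : PK K ν)
    {f : E n → ℝ} (hf : Continuous f) : Integrable f ν := by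
  have := H2_fin hν
  have h1 := hf.continuousOn.integrableOn_compact (μ := ν) hK
  rwa [IntegrableOn, Measure.restrict_eq_self_of_ae_mem (s := K)
    (by rw [ae_iff]; exact hν.2)] at h1

/-- Differentiation under the integral sign. -/
theorem H2_der {K : Set (E n)} (hK : IsCompact K) {ν : Measure (E n)} (hν : PK K ν)
    {φ φ' : ℝ → E n → ℝ}
    (h1 : Continuous (fun p : ℝ × E n => φ p.1 p.2))
    (h2 : Continuous (fun p : ℝ × E n => φ' p.1 p.2))
    (h3 : ∀ t, ∀ y, HasDerivAt (fun t => φ t y) (φ' t y) t) (t : ℝ) :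
    HasDerivAt (fun t => ∫ y, φ t y ∂ν) (∫ y, φ' t y ∂ν) t := by
  have := H2_fin hν
  have hae : ∀ᵐ y ∂ν, y ∈ K := by
    rw [ae_iff]
    exact hν.2
  have hc : ∀ t, ∀ {ψ : ℝ → E n → ℝ},
      Continuous (fun p : ℝ × E n => ψ p.1 p.2) → Integrable (ψ t) ν := by
    intro t ψ hψ
    refine H2_int hK hν ?_
    exact hψ.comp (f := fun y => (t, y)) (by fun_prop)
  obtain ⟨C, hC⟩ := ((isCompact_Icc (a := t - 1) (b := t + 1)).prod hK).exists_bound_of_continuousOn
    h2.continuousOn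
  have hmem : t ∈ Ioo (t - 1) (t + 1) := ⟨by linarith, by linarith⟩
  refine (hasDerivAt_integral_of_dominated_loc_of_deriv_le (s := Ioo (t - 1) (t + 1))
    (bound := fun _ => C)
    (isOpen_Ioo.mem_nhds hmem) ?_ (hc t h1) (hc t h2).aestronglyMeasurable ?_
    (integrable_const C) ?_).2
  · exact Eventually.of_forall fun u => (hc u h1).aestronglyMeasurable
  · filter_upwards [hae] with y hy u hu
    exact hC (u, y) ⟨⟨hu.1.le, hu.2.le⟩, hy⟩
  · exact Eventually.of_forall fun y u _ => h3 u y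

/-- The regularised squared distance. -/
noncomputable def H2_S (e : ℝ) (z : E (n + 1)) (ξ : E n) : ℝ := ‖z - emb ξ‖ ^ 2 + e ^ 2

theorem H2_S_ge (e : ℝ) (z : E (n + 1)) (ξ : E n) : e ^ 2 ≤ H2_S e z ξ := by
  unfold H2_S
  nlinarith [sq_nonneg ‖z - emb ξ‖]

theorem H2_S_pos {e : ℝ} (he : 0 < e) (z : E (n + 1)) (ξ : E n) : 0 < H2_S e z ξ :=
  lt_of_lt_of_le (by positivity) (H2_S_ge e z ξ)

theorem H2_S_line {e : ℝ} (z : E (n + 1)) (ξ : E n) (i : Fin (n + 1)) (t : ℝ) :
    HasDerivAt (fun t : ℝ => H2_S e (z + t • (bv i : E (n + 1))) ξ)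
      (2 * (z i + t - (emb ξ) i)) t := by
  have h0 : HasDerivAt (fun t : ℝ => z + t • (bv i : E (n + 1)) - emb ξ) (bv i) t := by
    have h1 := (((hasDerivAt_id t).smul_const (bv i : E (n + 1))).const_add z).sub_const (emb ξ)
    rw [one_smul] at h1
    exact h1
  have h1 := (h0.norm_sq).add_const (e ^ 2)
  have h2 : inner ℝ (z + t • (bv i : E (n + 1)) - emb ξ) (bv i : E (n + 1)) =
      z i + t - (emb ξ) i := by
    simp [bv, EuclideanSpace.inner_single_right]
  rw [h2] at h1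
  exact h1

theorem H2_pow_line {e : ℝ} (he : 0 < e) (r : ℝ) (z : E (n + 1)) (ξ : E n) (i : Fin (n + 1))
    (t : ℝ) :
    HasDerivAt (fun t : ℝ => H2_S e (z + t • (bv i : E (n + 1))) ξ ^ r)
      (2 * r * (z i + t - (emb ξ) i) * H2_S e (z + t • (bv i : E (n + 1))) ξ ^ (r - 1)) t := by
  have h := (H2_S_line (e := e) z ξ i t).rpow_const (p := r) (Or.inl (H2_S_pos he _ ξ).ne')
  refine h.congr_deriv ?_
  ring

theorem H2_cont_pow {e : ℝ} (he : 0 < e) (r : ℝ) (z : E (n + 1)) (i : Fin (n + 1)) :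
    Continuous (fun q : ℝ × E n => H2_S e (z + q.1 • (bv i : E (n + 1))) q.2 ^ r) := by
  refine Continuous.rpow_const ?_ fun q => Or.inl (H2_S_pos he _ _).ne'
  unfold H2_S
  have := H2_continuous_emb (n := n)
  fun_prop

theorem H2_cont_pow0 {e : ℝ} (he : 0 < e) (r : ℝ) (z : E (n + 1)) :
    Continuous (fun ξ : E n => H2_S e z ξ ^ r) := by
  refine Continuous.rpow_const ?_ fun q => Or.inl (H2_S_pos he _ _).ne'
  unfold H2_S
  have := H2_continuous_emb (n := n)
  fun_prop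

theorem H2_cont_coord (z : E (n + 1)) (i : Fin (n + 1)) :
    Continuous (fun q : ℝ × E n => z i + q.1 - (emb q.2) i) := by
  have := H2_continuous_emb (n := n)
  fun_prop

theorem H2_cont_coord0 (z : E (n + 1)) (i : Fin (n + 1)) :
    Continuous (fun ξ : E n => z i - (emb ξ) i) := by
  have := H2_continuous_emb (n := n)
  fun_prop

theorem H2_hasD2 {p e : ℝ} (he : 0 < e) {K : Set (E n)} (hK : IsCompact K)
    {ν : Measure (E n)} (hν : PK K ν) (z : E (n + 1)) :
    HasD2 (wR p e ν) z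
      (fun i => ∫ ξ, (-p) * (z i - (emb ξ) i) * H2_S e z ξ ^ (-p / 2 - 1) ∂ν)
      (fun i => ∫ ξ, ((-p) * H2_S e z ξ ^ (-p / 2 - 1)
        + p * (p + 2) * (z i - (emb ξ) i) ^ 2 * H2_S e z ξ ^ (-p / 2 - 2)) ∂ν) := by
  intro i
  have hc0 := H2_cont_pow he (-p / 2) z i
  have hc1 := H2_cont_pow he (-p / 2 - 1) z i
  have hc2 := H2_cont_pow he (-p / 2 - 2) z i
  have hcx := H2_cont_coord z i
  have hd1 : Continuous (fun q : ℝ × E n => (-p) * (z i + q.1 - (emb q.2) i) *
      H2_S e (z + q.1 • (bv i : E (n + 1))) q.2 ^ (-p / 2 - 1)) :=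
    (continuous_const.mul hcx).mul hc1
  have hd2 : Continuous (fun q : ℝ × E n =>
      (-p) * H2_S e (z + q.1 • (bv i : E (n + 1))) q.2 ^ (-p / 2 - 1)
      + p * (p + 2) * (z i + q.1 - (emb q.2) i) ^ 2 *
        H2_S e (z + q.1 • (bv i : E (n + 1))) q.2 ^ (-p / 2 - 2)) :=
    (continuous_const.mul hc1).add ((continuous_const.mul (hcx.pow 2)).mul hc2)
  refine ⟨fun t => ∫ ξ, (-p) * (z i + t - (emb ξ) i) *
      H2_S e (z + t • (bv i : E (n + 1))) ξ ^ (-p / 2 - 1) ∂ν, ?_, ?_, ?_⟩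
  · refine Eventually.of_forall fun t => ?_
    refine H2_der (φ := fun t ξ => H2_S e (z + t • (bv i : E (n + 1))) ξ ^ (-p / 2))
      (φ' := fun t ξ => (-p) * (z i + t - (emb ξ) i) *
        H2_S e (z + t • (bv i : E (n + 1))) ξ ^ (-p / 2 - 1)) hK hν hc0 hd1 (fun u ξ => ?_) t
    refine (H2_pow_line he (-p / 2) z ξ i u).congr_deriv ?_
    ring
  · simp
  · have h0 := H2_der (φ := fun t ξ => (-p) * (z i + t - (emb ξ) i) *
        H2_S e (z + t • (bv i : E (n + 1))) ξ ^ (-p / 2 - 1))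
      (φ' := fun t ξ => (-p) * H2_S e (z + t • (bv i : E (n + 1))) ξ ^ (-p / 2 - 1)
      + p * (p + 2) * (z i + t - (emb ξ) i) ^ 2 *
        H2_S e (z + t • (bv i : E (n + 1))) ξ ^ (-p / 2 - 2)) hK hν hd1 hd2 (fun u ξ => ?_) 0
    · refine h0.congr_deriv ?_
      simp
    · have h1 := H2_pow_line he (-p / 2 - 1) z ξ i u
      have h2 : HasDerivAt (fun t : ℝ => (-p) * (z i + t - (emb ξ) i)) (-p) u := by
        have h3 := ((((hasDerivAt_id u).const_add (z i)).sub_const ((emb ξ) i)).const_mul (-p))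
        rw [mul_one] at h3
        exact h3
      refine (h2.mul h1).congr_deriv ?_
      have e1 : (-p / 2 - 1 - 1 : ℝ) = -p / 2 - 2 := by ring
      rw [e1]
      ring

/-- (T2-H2a) `LL (p+1-n) ≤ 0`.

Proof (compare the PROVED file `ND/P5a.lean`, `hasD2_pot`).  `s = ‖z - emb ξ‖² + e² ≥ e² > 0`, `z_i - (emb ξ)_i =: d_i`.  Along `e_i`: first derivative `∫ -p d_i s^(-p/2-1)`, second
`∫ (-p s^(-p/2-1) + p (p+2) d_i² s^(-p/2-2))`.  `d_last = yc z`.  If `yc z ≠ 0`: `a_last / yc z = -p ∫ s^(-p/2-1)`; if `yc z = 0`: `b_last = -p ∫ s^(-p/2-1)`.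
Sum: `∫ s^(-p/2-2) (-p (n+1) s + p (p+2) (s - e²) - p (p+1-n) s) = -p (p+2) e² ∫ s^(-p/2-2) ≤ 0`. -/
theorem LL_wR {p e : ℝ} (hp0 : 0 < p) (he : 0 < e) {K : Set (E n)} (hK : IsCompact K)
    {ν : Measure (E n)} (hν : PK K ν) (z : E (n + 1)) :
    ∃ a b : Fin (n + 1) → ℝ, HasD2 (wR p e ν) z a b ∧ LL (p + 1 - n) a b z ≤ 0 := by
  refine ⟨_, _, H2_hasD2 he hK hν z, ?_⟩
  have hlast : ∀ ξ : E n, (emb ξ) (Fin.last n) = 0 := fun ξ => by simp [emb]
  have hz : z (Fin.last n) = yc z := rfl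
  have hI1 := H2_int hK hν (H2_cont_pow0 he (-p / 2 - 1) z)
  have hI2 := H2_int hK hν (H2_cont_pow0 he (-p / 2 - 2) z)
  have hS2 : ∀ ξ : E n, ‖z - emb ξ‖ ^ 2 * H2_S e z ξ ^ (-p / 2 - 2) =
      H2_S e z ξ ^ (-p / 2 - 1) - e ^ 2 * H2_S e z ξ ^ (-p / 2 - 2) := by
    intro ξ
    have h1 : H2_S e z ξ ^ (-p / 2 - 1) = H2_S e z ξ * H2_S e z ξ ^ (-p / 2 - 2) := by
      have e1 : (-p / 2 - 1 : ℝ) = 1 + (-p / 2 - 2) := by ring
      rw [e1, Real.rpow_add (H2_S_pos he z ξ), Real.rpow_one]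
    rw [h1]
    have h2 : H2_S e z ξ = ‖z - emb ξ‖ ^ 2 + e ^ 2 := rfl
    have h3 : ‖z - emb ξ‖ ^ 2 = H2_S e z ξ - e ^ 2 := by rw [h2]; ring
    rw [h3]
    ring
  have hsum : ∑ i : Fin (n + 1), (∫ ξ, ((-p) * H2_S e z ξ ^ (-p / 2 - 1)
        + p * (p + 2) * (z i - (emb ξ) i) ^ 2 * H2_S e z ξ ^ (-p / 2 - 2)) ∂ν) =
      (-p * (n + 1) + p * (p + 2)) * (∫ ξ, H2_S e z ξ ^ (-p / 2 - 1) ∂ν)
        - p * (p + 2) * e ^ 2 * ∫ ξ, H2_S e z ξ ^ (-p / 2 - 2) ∂ν := by
    rw [← integral_finsetSum, ← integral_const_mul, ← integral_const_mul, ← integral_sub]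
    · refine integral_congr_ae (Eventually.of_forall fun ξ => ?_)
      have h1 : ∑ i : Fin (n + 1), (z i - (emb ξ) i) ^ 2 = ‖z - emb ξ‖ ^ 2 := by
        rw [EuclideanSpace.norm_sq_eq]
        refine Finset.sum_congr rfl fun i _ => ?_
        rw [Real.norm_eq_abs, sq_abs]
        rfl
      have h3 : ∑ i : Fin (n + 1), ((-p) * H2_S e z ξ ^ (-p / 2 - 1)
          + p * (p + 2) * (z i - (emb ξ) i) ^ 2 * H2_S e z ξ ^ (-p / 2 - 2)) =
          (n + 1) * ((-p) * H2_S e z ξ ^ (-p / 2 - 1))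
            + p * (p + 2) * (∑ i : Fin (n + 1), (z i - (emb ξ) i) ^ 2) *
              H2_S e z ξ ^ (-p / 2 - 2) := by
        rw [Finset.sum_add_distrib, Finset.sum_const, Finset.card_univ, Fintype.card_fin,
          nsmul_eq_mul, Finset.mul_sum, Finset.sum_mul]
        push_cast
        ring
      have h4 := hS2 ξ
      simp only
      rw [h3, h1]
      linear_combination p * (p + 2) * h4
    · exact hI1.const_mul _
    · exact hI2.const_mul _
    · intro i _
      refine H2_int hK hν ?_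
      exact (continuous_const.mul (H2_cont_pow0 he _ z)).add
        ((continuous_const.mul ((H2_cont_coord0 z i).pow 2)).mul (H2_cont_pow0 he _ z))
  have hif : (if yc z = 0 then (∫ ξ, ((-p) * H2_S e z ξ ^ (-p / 2 - 1)
        + p * (p + 2) * (z (Fin.last n) - (emb ξ) (Fin.last n)) ^ 2 *
          H2_S e z ξ ^ (-p / 2 - 2)) ∂ν)
      else (∫ ξ, (-p) * (z (Fin.last n) - (emb ξ) (Fin.last n)) *
        H2_S e z ξ ^ (-p / 2 - 1) ∂ν) / yc z) = -p * ∫ ξ, H2_S e z ξ ^ (-p / 2 - 1) ∂ν := by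
    split_ifs with h
    · rw [← integral_const_mul]
      refine integral_congr_ae (Eventually.of_forall fun ξ => ?_)
      simp only
      rw [hlast, hz, h]
      ring
    · have h1 : (∫ ξ, (-p) * (z (Fin.last n) - (emb ξ) (Fin.last n)) *
          H2_S e z ξ ^ (-p / 2 - 1) ∂ν) = (-p * yc z) * ∫ ξ, H2_S e z ξ ^ (-p / 2 - 1) ∂ν := by
        rw [← integral_const_mul]
        refine integral_congr_ae (Eventually.of_forall fun ξ => ?_)
        simp only
        rw [hlast, hz]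
        ring
      rw [h1]
      field_simp
  have hI2nn : 0 ≤ ∫ ξ, H2_S e z ξ ^ (-p / 2 - 2) ∂ν :=
    integral_nonneg fun ξ => Real.rpow_nonneg (H2_S_pos he z ξ).le _
  unfold LL
  rw [hsum, hif]
  have h5 : 0 ≤ p * (p + 2) * e ^ 2 * ∫ ξ, H2_S e z ξ ^ (-p / 2 - 2) ∂ν := by positivity
  nlinarith [h5]

/-- (T2-H2b) -/
theorem continuous_wR {p e : ℝ} (hp0 : 0 < p) (he : 0 < e) {K : Set (E n)} (hK : IsCompact K)
    {ν : Measure (E n)} (hν : PK K ν) : Continuous (wR p e ν : E (n + 1) → ℝ) := by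
  have := H2_fin hν
  refine continuous_of_dominated (bound := fun _ => (e ^ 2) ^ (-p / 2)) ?_ ?_
    (integrable_const _) ?_
  · intro z
    exact (H2_cont_pow0 he (-p / 2) z).aestronglyMeasurable
  · intro z
    refine Eventually.of_forall fun ξ => ?_
    have h1 := H2_S_ge e z ξ
    have h2 : (H2_S e z ξ) ^ (-p / 2) ≤ (e ^ 2) ^ (-p / 2) :=
      Real.rpow_le_rpow_of_nonpos (by positivity) h1 (by linarith)
    rw [Real.norm_eq_abs, abs_of_nonneg (Real.rpow_nonneg (by positivity) _)]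
    exact h2
  · refine Eventually.of_forall fun ξ => ?_
    refine Continuous.rpow_const (by fun_prop) fun z => Or.inl (H2_S_pos he z ξ).ne'

/-- (T2-H2c) -/
theorem wR_bounds {p e ρ : ℝ} (hp0 : 0 < p) (he : 0 < e) {K : Set (E n)} (hK : IsCompact K)
    (hρ : K ⊆ closedBall 0 ρ) {ν : Measure (E n)} (hν : PK K ν) (z : E (n + 1)) :
    0 ≤ wR p e ν z ∧ (ρ < ‖z‖ → wR p e ν z ≤ (‖z‖ - ρ) ^ (-p)) := by
  have := H2_fin hν
  refine ⟨integral_nonneg fun ξ => Real.rpow_nonneg (H2_S_pos he z ξ).le _, fun hz => ?_⟩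
  have hae : ∀ᵐ ξ ∂ν, ξ ∈ K := by
    rw [ae_iff]
    exact hν.2
  have hpos : 0 < ‖z‖ - ρ := by linarith
  have h1 : wR p e ν z ≤ ∫ _ξ, (‖z‖ - ρ) ^ (-p) ∂ν := by
    refine integral_mono_ae (H2_int hK hν (H2_cont_pow0 he (-p / 2) z)) (integrable_const _) ?_
    filter_upwards [hae] with ξ hξ
    have h2 : ‖emb ξ‖ ≤ ρ := by
      have h3 : ‖emb ξ‖ = ‖ξ‖ := by
        have h4 := norm_sq_eq (emb ξ)
        rw [prj_emb, yc_emb] at h4
        have h5 : ‖emb ξ‖ ^ 2 = ‖ξ‖ ^ 2 := by rw [h4]; ring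
        exact (pow_left_inj₀ (norm_nonneg _) (norm_nonneg _) two_ne_zero).1 h5
      rw [h3]
      simpa using hρ hξ
    have h6 : ‖z‖ - ρ ≤ ‖z - emb ξ‖ := by
      have := norm_sub_norm_le z (emb ξ)
      linarith
    have h7 : (‖z‖ - ρ) ^ 2 ≤ H2_S e z ξ := by
      unfold H2_S
      nlinarith [sq_nonneg e]
    have h8 : (H2_S e z ξ) ^ (-p / 2) ≤ ((‖z‖ - ρ) ^ 2) ^ (-p / 2) :=
      Real.rpow_le_rpow_of_nonpos (by positivity) h7 (by linarith)
    refine h8.trans (le_of_eq ?_)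
    rw [← Real.rpow_two, ← Real.rpow_mul hpos.le]
    congr 1
    ring
  refine h1.trans (le_of_eq ?_)
  simp

end Pool.Agent.Lib.MP_6cd19d_an.T2
end

section

/-!
# C23: from the logarithmic energy of `K` to the `s`-energies of its neighbourhoods, `s → 0+`, `n = 2`

`log_conv`: `μ` and `u` probability measures, `μ` on a bounded set `S`, `u` on `closedBall 0 δ`, `ν = μ ∗ u`
(the image of `μ.prod u` under addition), `R ≥ (diam S + 2 δ)^2`. Then
`∬ gp0 0 R (‖x-y‖^2) dν dν ≤ ∬ gp0 0 R (‖x-y‖^2) dμ dμ`. Proof: for fixed `a, b` let `μ_a = μ.map (· + a)`. By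
`mixture_pd` (`k = gp 0 e R`, `gp_mixture`) `2 ∬ gp (‖x-y‖^2) dμ_a dμ_b ≤ I(μ_a,μ_a) + I(μ_b,μ_b) = 2 I(μ,μ)`. Integrate over
`a, b` with respect to `u`: `∬ gp 0 e R (‖x-y‖^2) dν dν ≤ ∬ gp 0 e R (‖x-y‖^2) dμ dμ`; let `e → 0` (`gp_tendsto`, Fatou on
the left, `gp_le_gp0` on the right).
`infEn_log_limit`: `K` compact, `logEn K ≠ ⊤`, `D = diam K + 1`, `V = (logEn K).toReal - log D`. Let `δ, ε > 0`. Let `μ` be a
probability measure on `K` with `∬ log (D / dist x y) dμ dμ ≤ logEn K + ε/2` (so no atoms), `u` the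
normalised Lebesgue measure of `closedBall 0 δ`, `ν = μ ∗ u`: it lives on `cthickening δ K`, has bounded density
(`≤ 1/vol`), so `en 1 ν < ∞` (`∫_{‖z‖ ≤ 1} ‖z‖^(-1) dz < ∞` in the plane; see P7: the potential of `nu z ρ` is bounded).
For `0 < s ≤ 1` and `t > 0`, `(t^(-s) - 1)/s` is nondecreasing in `s` and tends to `-log t` as `s → 0+`
(`t^(-s) = exp (-s log t)`, convexity of `exp`), and `≥ -log t`. By dominated convergence
`(en s ν - 1)/s → ∬ -log ‖x-y‖ dν dν ≤ ∬ -log ‖x-y‖ dμ dμ ≤ V + ε/2` (`log_conv`, with `gp0_zero`: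
`gp0 0 R (t^2) = ofReal (log (sqrt R) - log t)`). And `infEn s (cthickening δ K) ≤ en s ν`.
-/

set_option autoImplicit false

open MeasureTheory Set Filter Topology
open scoped ENNReal ContDiff

namespace Pool.Agent.Lib.MP_6cd19d_an.ND

private lemma c23_exp (a : ℝ) : Real.exp a ≤ 1 + a + a ^ 2 * Real.exp |a| := by
  have h2 := Real.exp_pos a
  have h1 : Real.exp a - 1 ≤ a * Real.exp a := by
    have h3 := Real.add_one_le_exp (-a)
    have h4 : Real.exp (-a) * Real.exp a = 1 := by rw [← Real.exp_add]; simp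
    nlinarith
  rcases le_total 0 a with ha | ha
  · rw [abs_of_nonneg ha]
    nlinarith [mul_le_mul_of_nonneg_left h1 ha]
  · have h3 := Real.add_one_le_exp a
    have h4 : 1 ≤ Real.exp |a| := Real.one_le_exp (abs_nonneg a)
    have h5 : a ^ 2 ≤ a ^ 2 * Real.exp |a| := le_mul_of_one_le_right (sq_nonneg a) h4
    nlinarith

private lemma c23_elem {s t : ℝ} (hs : 0 < s) (hs' : s ≤ 1 / 2) (ht : 0 < t) :
    t ^ (-s) ≤ 1 - s * Real.log t + 8 * s ^ 2 * (t + t⁻¹) := by
  rw [Real.rpow_def_of_pos ht]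
  set y : ℝ := |Real.log t| with hy
  have hy0 : 0 ≤ y := abs_nonneg _
  have h1 := c23_exp (Real.log t * -s)
  have h2 : |Real.log t * -s| = s * y := by
    rw [abs_mul, abs_neg, abs_of_pos hs, mul_comm]
  have h3 : (Real.log t * -s) ^ 2 = s ^ 2 * y ^ 2 := by
    rw [hy, sq_abs]; ring
  rw [h2, h3] at h1
  have h4 : Real.exp (s * y) ≤ Real.exp (y / 2) := by
    apply Real.exp_le_exp.2
    nlinarith
  have h5 : y ^ 2 ≤ 8 * Real.exp (y / 2) := by
    have := Real.quadratic_le_exp_of_nonneg (x := y / 2) (by positivity)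
    nlinarith
  have h6 : Real.exp (y / 2) * Real.exp (y / 2) = Real.exp y := by
    rw [← Real.exp_add]; congr 1; ring
  have h7 : Real.exp y ≤ t + t⁻¹ := by
    rcases abs_cases (Real.log t) with ⟨h, _⟩ | ⟨h, _⟩
    · rw [hy, h, Real.exp_log ht]
      have : 0 < t⁻¹ := inv_pos.2 ht
      linarith
    · rw [hy, h, Real.exp_neg, Real.exp_log ht]
      linarith
  have h8 : y ^ 2 * Real.exp (s * y) ≤ 8 * (t + t⁻¹) := by
    calc y ^ 2 * Real.exp (s * y) ≤ (8 * Real.exp (y / 2)) * Real.exp (y / 2) := by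
          gcongr
      _ = 8 * Real.exp y := by rw [mul_assoc, h6]
      _ ≤ _ := by linarith
  have h9 : s ^ 2 * y ^ 2 * Real.exp (s * y) ≤ 8 * s ^ 2 * (t + t⁻¹) := by
    have := mul_le_mul_of_nonneg_left h8 (sq_nonneg s)
    calc s ^ 2 * y ^ 2 * Real.exp (s * y) = s ^ 2 * (y ^ 2 * Real.exp (s * y)) := by ring
      _ ≤ s ^ 2 * (8 * (t + t⁻¹)) := this
      _ = _ := by ring
  linarith

/-- the kernel `‖w‖⁻¹` is locally integrable in the plane -/
private theorem c23_unit :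
    ∫⁻ w in Metric.ball (0 : E 2) 1, (edist (0 : E 2) w) ^ (-(1 : ℝ)) ≠ ⊤ := by
  have : Nontrivial (E 2) := inferInstance
  have h1 : IntegrableOn (fun x : E 2 => (fun t : ℝ => t ^ (-(1 : ℝ))) ‖x‖) (Metric.ball 0 1)
      volume := by
    rw [integrableOn_fun_norm_addHaar (f := fun t : ℝ => t ^ (-(1 : ℝ))) volume (r := 1),
      finrank_euclideanSpace_fin]
    have h2 : IntegrableOn (fun _ : ℝ => (1 : ℝ)) (Ioo 0 1) :=
      integrableOn_const (by simp)
    refine h2.congr_fun (fun y hy => ?_) measurableSet_Ioo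
    have hy0 : 0 < y := hy.1
    show (1 : ℝ) = y ^ (2 - 1) * y ^ (-(1 : ℝ))
    rw [Real.rpow_neg_one]
    norm_num
    field_simp
  have h3 := h1.2
  unfold HasFiniteIntegral at h3
  refine ne_of_lt (lt_of_le_of_lt (le_of_eq ?_) h3)
  refine lintegral_congr_ae ?_
  have h4 : ∀ᵐ w ∂((volume : Measure (E 2)).restrict (Metric.ball (0 : E 2) 1)), w ≠ 0 := by
    refine ae_restrict_of_ae ?_
    rw [ae_iff]
    simp
  filter_upwards [h4] with w hw
  have hw' : 0 < ‖w‖ := norm_pos_iff.2 hw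
  rw [edist_comm, edist_zero_right, Real.enorm_eq_ofReal (Real.rpow_nonneg hw'.le _),
    ← ENNReal.ofReal_rpow_of_pos hw', ofReal_norm]

private theorem c23_trans (x : E 2) :
    ∫⁻ w in Metric.ball x 1, (edist x w) ^ (-(1 : ℝ)) =
      ∫⁻ w in Metric.ball (0 : E 2) 1, (edist (0 : E 2) w) ^ (-(1 : ℝ)) := by
  rw [← lintegral_indicator Metric.isOpen_ball.measurableSet,
    ← lintegral_indicator Metric.isOpen_ball.measurableSet]
  rw [← lintegral_add_left_eq_self _ x]
  refine lintegral_congr fun w => ?_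
  by_cases hw : w ∈ Metric.ball (0 : E 2) 1
  · have hw2 : x + w ∈ Metric.ball x 1 := by
      rw [Metric.mem_ball, dist_self_add_left]
      rwa [mem_ball_zero_iff] at hw
    rw [indicator_of_mem hw, indicator_of_mem hw2]
    congr 1
    rw [edist_dist, edist_dist, dist_self_add_right, dist_zero_left]
  · have hw2 : x + w ∉ Metric.ball x 1 := by
      intro h
      rw [Metric.mem_ball, dist_self_add_left] at h
      exact hw (mem_ball_zero_iff.2 h)
    rw [indicator_of_notMem hw, indicator_of_notMem hw2]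

/-- normalised Lebesgue measure on a disc -/
private noncomputable def cu (δ : ℝ) : Measure (E 2) :=
  (volume (Metric.closedBall (0 : E 2) δ))⁻¹ • volume.restrict (Metric.closedBall (0 : E 2) δ)

private theorem cu_pk {δ : ℝ} (hδ : 0 < δ) : PK (Metric.closedBall (0 : E 2) δ) (cu δ) := by
  have h0 : volume (Metric.closedBall (0 : E 2) δ) ≠ 0 :=
    (Metric.measure_closedBall_pos _ _ hδ).ne'
  have h1 : volume (Metric.closedBall (0 : E 2) δ) ≠ ⊤ := measure_closedBall_lt_top.ne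
  constructor
  · unfold cu
    rw [Measure.smul_apply, Measure.restrict_apply_univ, smul_eq_mul, ENNReal.inv_mul_cancel h0 h1]
  · unfold cu
    rw [Measure.smul_apply, Measure.restrict_apply Metric.isClosed_closedBall.measurableSet.compl]
    simp

private theorem cu_pot {δ : ℝ} (hδ : 0 < δ) : ∃ C : ℝ≥0∞, C ≠ ⊤ ∧ ∀ x : E 2,
    ∫⁻ b, (edist x b) ^ (-(1 : ℝ)) ∂(cu δ) ≤ C := by
  have h0 : volume (Metric.closedBall (0 : E 2) δ) ≠ 0 :=
    (Metric.measure_closedBall_pos _ _ hδ).ne'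
  have h1 : volume (Metric.closedBall (0 : E 2) δ) ≠ ⊤ := measure_closedBall_lt_top.ne
  refine ⟨(volume (Metric.closedBall (0 : E 2) δ))⁻¹ * (volume (Metric.closedBall (0 : E 2) δ) +
    ∫⁻ w in Metric.ball (0 : E 2) 1, (edist (0 : E 2) w) ^ (-(1 : ℝ))), ?_, fun x => ?_⟩
  · exact ENNReal.mul_ne_top (ENNReal.inv_ne_top.2 h0) (ENNReal.add_ne_top.2 ⟨h1, c23_unit⟩)
  · unfold cu
    rw [lintegral_smul_measure, smul_eq_mul]
    gcongr
    have hpt : ∀ b : E 2, (edist x b) ^ (-(1 : ℝ)) ≤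
        1 + (Metric.ball x 1).indicator (fun b => (edist x b) ^ (-(1 : ℝ))) b := by
      intro b
      by_cases hb : b ∈ Metric.ball x 1
      · rw [indicator_of_mem hb]
        exact le_add_self
      · rw [indicator_of_notMem hb, add_zero]
        rw [Metric.mem_ball, not_lt, dist_comm] at hb
        have h2 : (1 : ℝ≥0∞) ≤ edist x b := by
          rw [edist_dist, ← ENNReal.ofReal_one]
          exact ENNReal.ofReal_le_ofReal hb
        rw [ENNReal.rpow_neg_one, ENNReal.inv_le_one]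
        exact h2
    calc ∫⁻ b in Metric.closedBall (0 : E 2) δ, (edist x b) ^ (-(1 : ℝ))
        ≤ ∫⁻ b in Metric.closedBall (0 : E 2) δ,
            (1 + (Metric.ball x 1).indicator (fun b => (edist x b) ^ (-(1 : ℝ))) b) :=
          lintegral_mono hpt
      _ = volume (Metric.closedBall (0 : E 2) δ) + ∫⁻ b in Metric.closedBall (0 : E 2) δ,
            (Metric.ball x 1).indicator (fun b => (edist x b) ^ (-(1 : ℝ))) b := by
          rw [lintegral_add_left measurable_const, lintegral_const, one_mul,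
            Measure.restrict_apply_univ]
      _ ≤ volume (Metric.closedBall (0 : E 2) δ) + ∫⁻ b,
            (Metric.ball x 1).indicator (fun b => (edist x b) ^ (-(1 : ℝ))) b := by
          gcongr
          exact Measure.restrict_le_self
      _ = _ := by
          rw [lintegral_indicator Metric.isOpen_ball.measurableSet, c23_trans]

private lemma c23_mk (s : ℝ) (x : E 2) : Measurable fun y : E 2 => (edist x y) ^ (-s) := by
  fun_prop

private lemma c23_mk2 (s : ℝ) : Measurable fun z : E 2 × E 2 => (edist z.1 z.2) ^ (-s) := by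
  fun_prop

private lemma c23_lin {ν : Measure (E 2)} [IsProbabilityMeasure ν] {G F : E 2 → ℝ≥0∞}
    (hG : Measurable G) (hF : Measurable F) (a b c : ℝ≥0∞) :
    ∫⁻ y, (1 + a * G y + b * (c + F y)) ∂ν = 1 + a * (∫⁻ y, G y ∂ν) + b * (c + ∫⁻ y, F y ∂ν) := by
  have e1 : ∫⁻ y, (1 + a * G y + b * (c + F y)) ∂ν =
      (∫⁻ y, (1 + a * G y) ∂ν) + ∫⁻ y, b * (c + F y) ∂ν :=
    lintegral_add_left (measurable_const.add (hG.const_mul a)) _
  have e2 : ∫⁻ y, (1 + a * G y) ∂ν = 1 + a * ∫⁻ y, G y ∂ν := by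
    rw [lintegral_add_left measurable_const, lintegral_const, measure_univ, mul_one,
      lintegral_const_mul _ hG]
  have e3 : ∫⁻ y, b * (c + F y) ∂ν = b * (c + ∫⁻ y, F y ∂ν) := by
    have hcF : Measurable fun y => c + F y := measurable_const.add hF
    rw [lintegral_const_mul _ hcF, lintegral_add_left measurable_const,
      lintegral_const, measure_univ, mul_one]
  rw [e1, e2, e3]

/-- the energy of exponent `1` of the smoothed measure is finite -/
private theorem cu_en {δ : ℝ} (hδ : 0 < δ) {μ : Measure (E 2)} [IsProbabilityMeasure μ]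
    [IsProbabilityMeasure (cu δ)] :
    en 1 ((μ.prod (cu δ)).map (fun z => z.1 + z.2)) ≠ ⊤ := by
  obtain ⟨C, hC, hpot⟩ := cu_pot hδ
  have hm : Measurable (fun z : E 2 × E 2 => z.1 + z.2) := measurable_add
  have hprob : IsProbabilityMeasure ((μ.prod (cu δ)).map (fun z : E 2 × E 2 => z.1 + z.2)) :=
    Measure.isProbabilityMeasure_map hm.aemeasurable
  refine ne_of_lt (lt_of_le_of_lt ?_ (lt_top_iff_ne_top.2 hC))
  unfold en
  calc ∫⁻ x, ∫⁻ y, (edist x y) ^ (-(1 : ℝ)) ∂((μ.prod (cu δ)).map (fun z => z.1 + z.2))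
        ∂((μ.prod (cu δ)).map (fun z => z.1 + z.2))
      ≤ ∫⁻ _, C ∂((μ.prod (cu δ)).map (fun z : E 2 × E 2 => z.1 + z.2)) := by
        refine lintegral_mono fun x => ?_
        have hmm : Measurable fun z : E 2 × E 2 => (edist x (z.1 + z.2)) ^ (-(1 : ℝ)) :=
          (c23_mk 1 x).comp hm
        rw [lintegral_map (c23_mk 1 x) hm, lintegral_prod _ hmm.aemeasurable]
        calc ∫⁻ a, ∫⁻ b, (edist x (a + b)) ^ (-(1 : ℝ)) ∂(cu δ) ∂μ ≤ ∫⁻ _, C ∂μ := by
              refine lintegral_mono fun a => ?_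
              refine le_trans (le_of_eq ?_) (hpot (x - a))
              refine lintegral_congr fun b => ?_
              congr 1
              rw [edist_dist, edist_dist, dist_eq_norm, dist_eq_norm]
              congr 2
              abel
          _ = C := by simp
    _ = C := by simp

theorem infEn_log_limit {K : Set (E 2)} (hK : IsCompact K) (hL : logEn K ≠ ⊤) {δ ε : ℝ}
    (hδ : 0 < δ) (hε : 0 < ε) :
    ∃ s0 : ℝ, 0 < s0 ∧ ∀ s, 0 < s → s < s0 → infEn s (Metric.cthickening δ K) ≠ ⊤ ∧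
      ((infEn s (Metric.cthickening δ K)).toReal - 1) / s ≤
        (logEn K).toReal - Real.log (Metric.diam K + 1) + ε := by
  classical
  set D : ℝ := Metric.diam K + 1 with hD
  have hdiam : 0 ≤ Metric.diam K := Metric.diam_nonneg
  have hD1 : 1 ≤ D := by linarith
  have hD0 : 0 < D := by linarith
  -- the measure `μ`
  obtain ⟨μ, hμ, hLμ⟩ : ∃ μ : Measure (E 2), PK K μ ∧
      (∫⁻ x, ∫⁻ y, (if x = y then (⊤ : ℝ≥0∞) else
        ENNReal.ofReal (Real.log (D / dist x y))) ∂μ ∂μ) < logEn K + ENNReal.ofReal (ε / 2) := by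
    have h1 : logEn K < logEn K + ENNReal.ofReal (ε / 2) :=
      ENNReal.lt_add_right hL (by simpa using hε)
    conv_lhs at h1 => unfold logEn
    obtain ⟨μ, h2⟩ := iInf_lt_iff.1 h1
    obtain ⟨h3, h4⟩ := iInf_lt_iff.1 h2
    exact ⟨μ, h3, h4⟩
  set Lm : ℝ≥0∞ := ∫⁻ x, ∫⁻ y, (if x = y then (⊤ : ℝ≥0∞) else
        ENNReal.ofReal (Real.log (D / dist x y))) ∂μ ∂μ with hLm
  have hsum : logEn K + ENNReal.ofReal (ε / 2) ≠ ⊤ :=
    ENNReal.add_ne_top.2 ⟨hL, ENNReal.ofReal_ne_top⟩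
  have hLm_top : Lm ≠ ⊤ := ne_top_of_lt hLμ
  have hLm_le : Lm.toReal ≤ (logEn K).toReal + ε / 2 := by
    have h1 := ENNReal.toReal_mono hsum hLμ.le
    rwa [ENNReal.toReal_add hL ENNReal.ofReal_ne_top, ENNReal.toReal_ofReal (by positivity)] at h1
  -- the measure `ν`
  have hμp : IsProbabilityMeasure μ := ⟨hμ.1⟩
  have hup : IsProbabilityMeasure (cu δ) := ⟨(cu_pk hδ).1⟩
  have hm : Measurable (fun z : E 2 × E 2 => z.1 + z.2) := measurable_add
  set ν : Measure (E 2) := (μ.prod (cu δ)).map (fun z => z.1 + z.2) with hν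
  have hνp : IsProbabilityMeasure ν := Measure.isProbabilityMeasure_map hm.aemeasurable
  set K1 : Set (E 2) := Metric.cthickening δ K with hK1
  have hK1c : IsCompact K1 := hK.cthickening
  have hKm : MeasurableSet K := hK.measurableSet
  have hPK : PK K1 ν := by
    refine ⟨measure_univ, ?_⟩
    rw [hν, Measure.map_apply hm hK1c.measurableSet.compl]
    refine measure_mono_null (t := (Kᶜ ×ˢ univ) ∪ (univ ×ˢ (Metric.closedBall (0 : E 2) δ)ᶜ))
      ?_ ?_
    · rintro ⟨a, b⟩ hab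
      by_contra hcon
      simp only [mem_union, mem_prod, mem_compl_iff, mem_univ, and_true, true_and, not_or,
        not_not] at hcon
      apply hab
      refine Metric.mem_cthickening_of_dist_le _ a _ _ hcon.1 ?_
      have h1 : dist (a + b) a = ‖b‖ := by rw [dist_eq_norm]; congr 1; abel
      change dist (a + b) a ≤ δ
      rw [h1]
      simpa using hcon.2
    · refine measure_union_null ?_ ?_
      · rw [Measure.prod_prod, hμ.2, zero_mul]
      · rw [Measure.prod_prod, (cu_pk hδ).2, mul_zero]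
  have hνae : ∀ᵐ x ∂ν, x ∈ K1 := by
    rw [ae_iff]
    exact hPK.2
  have hμae : ∀ᵐ x ∂μ, x ∈ K := by
    rw [ae_iff]
    exact hμ.2
  -- the radius
  set r : ℝ := D + 2 * δ with hr
  have hrD : D ≤ r := by linarith
  have hr1 : 1 ≤ r := by linarith
  have hr0 : 0 < r := by linarith
  have hlr : 0 ≤ Real.log r := Real.log_nonneg hr1
  have hlrD : 0 ≤ Real.log (r / D) := Real.log_nonneg (by rw [le_div_iff₀ hD0]; linarith)
  have hdist : ∀ x ∈ K1, ∀ y ∈ K1, ‖x - y‖ ≤ r := by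
    intro x hx y hy
    rw [← dist_eq_norm]
    have h1 := Metric.dist_le_diam_of_mem hK1c.isBounded hx hy
    have h2 := Metric.diam_cthickening_le K hδ.le
    linarith
  have hconv := log_conv hK hμ hδ (cu_pk hδ) (R := r ^ 2) (by
    have : 0 ≤ Metric.diam K + 2 * δ := by positivity
    gcongr
    linarith)
  rw [← hν] at hconv
  -- comparison of `J μ` and `Lm`
  have hJ : ∫⁻ x, ∫⁻ y, gp0 0 (r ^ 2) (‖x - y‖ ^ 2) ∂μ ∂μ ≤
      ENNReal.ofReal (Real.log (r / D)) + Lm := by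
    have h1 : ∫⁻ x, ∫⁻ y, gp0 0 (r ^ 2) (‖x - y‖ ^ 2) ∂μ ∂μ ≤
        ∫⁻ x, (ENNReal.ofReal (Real.log (r / D)) + ∫⁻ y, (if x = y then (⊤ : ℝ≥0∞) else
          ENNReal.ofReal (Real.log (D / dist x y))) ∂μ) ∂μ := by
      refine lintegral_mono_ae ?_
      filter_upwards [hμae] with x hx
      calc ∫⁻ y, gp0 0 (r ^ 2) (‖x - y‖ ^ 2) ∂μ
          ≤ ∫⁻ y, (ENNReal.ofReal (Real.log (r / D)) + (if x = y then (⊤ : ℝ≥0∞) else
          ENNReal.ofReal (Real.log (D / dist x y)))) ∂μ := by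
            refine lintegral_mono_ae ?_
            filter_upwards [hμae] with y hy
            by_cases hxy : x = y
            · rw [if_pos hxy, add_top]
              exact le_top
            · rw [if_neg hxy]
              have hd0 : 0 < dist x y := dist_pos.2 hxy
              have hd1 : dist x y ≤ Metric.diam K :=
                Metric.dist_le_diam_of_mem hK.isBounded hx hy
              rw [← dist_eq_norm, gp0_zero (by positivity) (by gcongr; linarith),
                ← ENNReal.ofReal_add hlrD (Real.log_nonneg (by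
                  rw [le_div_iff₀ hd0]; linarith))]
              refine ENNReal.ofReal_le_ofReal (le_of_eq ?_)
              rw [← div_pow, Real.log_pow, Real.log_div hr0.ne' hd0.ne',
                Real.log_div hr0.ne' hD0.ne', Real.log_div hD0.ne' hd0.ne']
              push_cast
              ring
        _ = _ := by
            rw [lintegral_add_left measurable_const, lintegral_const, measure_univ, mul_one]
    refine h1.trans (le_of_eq ?_)
    rw [lintegral_add_left measurable_const, lintegral_const, measure_univ, mul_one]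
  -- the constant
  have hen1 : en 1 ν ≠ ⊤ := cu_en hδ
  set C : ℝ≥0∞ := ENNReal.ofReal r + en 1 ν with hC
  have hCtop : C ≠ ⊤ := ENNReal.add_ne_top.2 ⟨ENNReal.ofReal_ne_top, hen1⟩
  have hC0 : 0 ≤ C.toReal := ENNReal.toReal_nonneg
  refine ⟨min (1 / 2) (ε / (16 * (C.toReal + 1))), by positivity, fun s hs hs0 => ?_⟩
  have hs1 : s ≤ 1 / 2 := (hs0.trans_le (min_le_left _ _)).le
  have hs2 : s ≤ ε / (16 * (C.toReal + 1)) := (hs0.trans_le (min_le_right _ _)).le
  have hs2' : 8 * s * C.toReal ≤ ε / 2 := by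
    rw [le_div_iff₀ (by positivity)] at hs2
    nlinarith
  -- the pointwise inequality
  have hpt : ∀ x ∈ K1, ∀ y ∈ K1, (edist x y) ^ (-s) + ENNReal.ofReal (s * Real.log r) ≤
      1 + ENNReal.ofReal s * gp0 0 (r ^ 2) (‖x - y‖ ^ 2) +
        ENNReal.ofReal (8 * s ^ 2) * (ENNReal.ofReal r + (edist x y) ^ (-(1 : ℝ))) := by
    intro x hx y hy
    by_cases hxy : x = y
    · subst hxy
      have h1 : gp0 0 (r ^ 2) (‖x - x‖ ^ 2) = ⊤ := by
        rw [sub_self, norm_zero, zero_pow two_ne_zero]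
        exact gp0_top le_rfl (by positivity)
      rw [h1, ENNReal.mul_top (by simpa using hs), add_top, top_add]
      exact le_top
    · have hd0 : 0 < dist x y := dist_pos.2 hxy
      have hd1 : dist x y ≤ r := by rw [dist_eq_norm]; exact hdist x hx y hy
      have hR : r ^ 2 / dist x y ^ 2 = (r / dist x y) ^ 2 := (div_pow _ _ _).symm
      have hlog : 0 ≤ Real.log (r / dist x y) :=
        Real.log_nonneg (by rw [le_div_iff₀ hd0]; linarith)
      have e1 : ENNReal.ofReal (8 * s ^ 2) * (ENNReal.ofReal r +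
          ENNReal.ofReal (dist x y ^ (-(1 : ℝ)))) =
          ENNReal.ofReal (8 * s ^ 2 * (r + dist x y ^ (-(1 : ℝ)))) := by
        rw [← ENNReal.ofReal_add hr0.le (by positivity), ← ENNReal.ofReal_mul (by positivity)]
      rw [← dist_eq_norm, gp0_zero (by positivity) (by gcongr), hR, Real.log_pow, edist_dist,
        ENNReal.ofReal_rpow_of_pos hd0, ENNReal.ofReal_rpow_of_pos hd0, e1, ← ENNReal.ofReal_one,
        ← ENNReal.ofReal_add (by positivity) (by positivity), ← ENNReal.ofReal_mul hs.le,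
        ← ENNReal.ofReal_add (by positivity) (by positivity),
        ← ENNReal.ofReal_add (by positivity) (by positivity)]
      refine ENNReal.ofReal_le_ofReal ?_
      have h1 := c23_elem hs hs1 hd0
      rw [Real.rpow_neg_one, Real.log_div hr0.ne' hd0.ne']
      have h2 : 8 * s ^ 2 * (dist x y + (dist x y)⁻¹) ≤ 8 * s ^ 2 * (r + (dist x y)⁻¹) := by
        gcongr
      push_cast
      linarith
  -- integration
  have hint : en s ν + ENNReal.ofReal (s * Real.log r) ≤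
      1 + ENNReal.ofReal s * (∫⁻ x, ∫⁻ y, gp0 0 (r ^ 2) (‖x - y‖ ^ 2) ∂ν ∂ν) +
        ENNReal.ofReal (8 * s ^ 2) * C := by
    have hG : Measurable fun z : E 2 × E 2 => gp0 0 (r ^ 2) (‖z.1 - z.2‖ ^ 2) :=
      (gp0_measurable 0 (r ^ 2)).comp (by fun_prop)
    have hG1 : ∀ x : E 2, Measurable fun y : E 2 => gp0 0 (r ^ 2) (‖x - y‖ ^ 2) := fun x =>
      (gp0_measurable 0 (r ^ 2)).comp (by fun_prop)
    have hGi : Measurable fun x : E 2 => ∫⁻ y, gp0 0 (r ^ 2) (‖x - y‖ ^ 2) ∂ν :=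
      hG.lintegral_prod_right'
    have hPi : Measurable fun x : E 2 => ∫⁻ y, (edist x y) ^ (-(1 : ℝ)) ∂ν :=
      (c23_mk2 1).lintegral_prod_right'
    have h1 : ∀ x ∈ K1, (∫⁻ y, (edist x y) ^ (-s) ∂ν) + ENNReal.ofReal (s * Real.log r) ≤
        1 + ENNReal.ofReal s * (∫⁻ y, gp0 0 (r ^ 2) (‖x - y‖ ^ 2) ∂ν) +
          ENNReal.ofReal (8 * s ^ 2) * (ENNReal.ofReal r +
            ∫⁻ y, (edist x y) ^ (-(1 : ℝ)) ∂ν) := by
      intro x hx
      have h2 : ∫⁻ y, ((edist x y) ^ (-s) + ENNReal.ofReal (s * Real.log r)) ∂ν ≤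
          ∫⁻ y, (1 + ENNReal.ofReal s * gp0 0 (r ^ 2) (‖x - y‖ ^ 2) +
            ENNReal.ofReal (8 * s ^ 2) * (ENNReal.ofReal r + (edist x y) ^ (-(1 : ℝ)))) ∂ν := by
        refine lintegral_mono_ae ?_
        filter_upwards [hνae] with y hy using hpt x hx y hy
      rw [lintegral_add_right _ measurable_const, lintegral_const, measure_univ, mul_one,
        c23_lin (hG1 x) (c23_mk 1 x)] at h2
      exact h2
    have h3 : ∫⁻ x, ((∫⁻ y, (edist x y) ^ (-s) ∂ν) + ENNReal.ofReal (s * Real.log r)) ∂ν ≤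
        ∫⁻ x, (1 + ENNReal.ofReal s * (∫⁻ y, gp0 0 (r ^ 2) (‖x - y‖ ^ 2) ∂ν) +
          ENNReal.ofReal (8 * s ^ 2) * (ENNReal.ofReal r +
            ∫⁻ y, (edist x y) ^ (-(1 : ℝ)) ∂ν)) ∂ν := by
      refine lintegral_mono_ae ?_
      filter_upwards [hνae] with x hx using h1 x hx
    rw [lintegral_add_right _ measurable_const, lintegral_const, measure_univ, mul_one,
      c23_lin hGi hPi] at h3
    exact h3
  have hfin : en s ν + ENNReal.ofReal (s * Real.log r) ≤
      1 + ENNReal.ofReal s * (ENNReal.ofReal (Real.log (r / D)) + Lm) +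
        ENNReal.ofReal (8 * s ^ 2) * C := by
    refine hint.trans ?_
    gcongr
    exact hconv.trans hJ
  have htop : 1 + ENNReal.ofReal s * (ENNReal.ofReal (Real.log (r / D)) + Lm) +
        ENNReal.ofReal (8 * s ^ 2) * C ≠ ⊤ := by
    refine ENNReal.add_ne_top.2 ⟨ENNReal.add_ne_top.2 ⟨ENNReal.one_ne_top,
      ENNReal.mul_ne_top ENNReal.ofReal_ne_top (ENNReal.add_ne_top.2
        ⟨ENNReal.ofReal_ne_top, hLm_top⟩)⟩, ENNReal.mul_ne_top ENNReal.ofReal_ne_top hCtop⟩
  have hentop : en s ν ≠ ⊤ := ne_top_of_le_ne_top htop (le_self_add.trans hfin)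
  have hle : infEn s K1 ≤ en s ν := iInf₂_le ν hPK
  refine ⟨ne_top_of_le_ne_top hentop hle, ?_⟩
  have hreal := ENNReal.toReal_mono htop hfin
  rw [ENNReal.toReal_add hentop ENNReal.ofReal_ne_top, ENNReal.toReal_ofReal (by positivity),
    ENNReal.toReal_add (ENNReal.add_ne_top.2 ⟨ENNReal.one_ne_top,
      ENNReal.mul_ne_top ENNReal.ofReal_ne_top (ENNReal.add_ne_top.2
        ⟨ENNReal.ofReal_ne_top, hLm_top⟩)⟩) (ENNReal.mul_ne_top ENNReal.ofReal_ne_top hCtop),
    ENNReal.toReal_add ENNReal.one_ne_top (ENNReal.mul_ne_top ENNReal.ofReal_ne_top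
      (ENNReal.add_ne_top.2 ⟨ENNReal.ofReal_ne_top, hLm_top⟩)), ENNReal.toReal_mul,
    ENNReal.toReal_mul, ENNReal.toReal_add ENNReal.ofReal_ne_top hLm_top,
    ENNReal.toReal_ofReal hs.le, ENNReal.toReal_ofReal hlrD,
    ENNReal.toReal_ofReal (by positivity), ENNReal.toReal_one] at hreal
  have hinf := ENNReal.toReal_mono hentop hle
  rw [div_le_iff₀ hs]
  have hlog : Real.log (r / D) = Real.log r - Real.log D := Real.log_div hr0.ne' hD0.ne'
  rw [hlog] at hreal
  have h5 : s * Lm.toReal ≤ s * ((logEn K).toReal + ε / 2) :=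
    mul_le_mul_of_nonneg_left hLm_le hs.le
  have h6 : s * (8 * s * C.toReal) ≤ s * (ε / 2) := mul_le_mul_of_nonneg_left hs2' hs.le
  nlinarith

end Pool.Agent.Lib.MP_6cd19d_an.ND
end

section

/-!
# The minimisers of the regularised energies
-/

set_option autoImplicit false

open MeasureTheory Set Filter Topology Metric
open scoped ENNReal NNReal RealInnerProductSpace

namespace Pool.Agent.Lib.MP_6cd19d_an.T2

open Pool.Agent.Lib.MP_6cd19d_an.ND Pool.Agent.Lib.MP_6cd19d_an.A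

variable {n : ℕ}

/-- The regularised kernel. -/
noncomputable def kR (p e : ℝ) (x y : E n) : ℝ≥0 := ((dist x y ^ 2 + e ^ 2) ^ (-p / 2)).toNNReal

/-- (T2-H3a) The kernels are continuous, bounded, symmetric and increase to the Riesz kernel. -/
theorem kR_props {p : ℝ} (hp0 : 0 < p) :
    (∀ e : ℝ, 0 < e → Continuous (fun x : E n × E n => kR p e x.1 x.2)) ∧
    (∀ e : ℝ, 0 < e → ∃ C : ℝ≥0, ∀ x y : E n, kR p e x y ≤ C) ∧
    (∀ e : ℝ, ∀ x y : E n, kR p e x y = kR p e y x) ∧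
    (∀ x y : E n, Monotone (fun j : ℕ => kR p (1 / ((j : ℝ) + 1)) x y)) ∧
    (∀ x y : E n, ⨆ j : ℕ, (kR p (1 / ((j : ℝ) + 1)) x y : ℝ≥0∞) = (edist x y) ^ (-p)) := by
  have hp2 : -p / 2 ≤ 0 := by linarith
  have hmono : ∀ x y : E n, Monotone (fun j : ℕ => kR p (1 / ((j : ℝ) + 1)) x y) := by
    intro x y i j hij
    apply Real.toNNReal_le_toNNReal
    have h1 : (0 : ℝ) < 1 / ((j : ℝ) + 1) := by positivity
    have h2 : 1 / ((j : ℝ) + 1) ≤ 1 / ((i : ℝ) + 1) := by
      have h3 : (i : ℝ) ≤ j := by exact_mod_cast hij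
      exact one_div_le_one_div_of_le (by positivity) (by linarith)
    refine Real.rpow_le_rpow_of_nonpos (by positivity) ?_ hp2
    have h4 := pow_le_pow_left₀ h1.le h2 2
    linarith
  refine ⟨?_, ?_, ?_, hmono, ?_⟩
  · intro e he
    unfold kR
    refine continuous_real_toNNReal.comp (Continuous.rpow_const (by fun_prop) fun z => Or.inl ?_)
    positivity
  · intro e he
    refine ⟨((e ^ 2) ^ (-p / 2)).toNNReal, fun x y => ?_⟩
    apply Real.toNNReal_le_toNNReal
    refine Real.rpow_le_rpow_of_nonpos (by positivity) ?_ hp2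
    have := sq_nonneg (dist x y)
    linarith
  · intro e x y
    unfold kR
    rw [dist_comm]
  · intro x y
    have hcoe : ∀ j : ℕ, (kR p (1 / ((j : ℝ) + 1)) x y : ℝ≥0∞) =
        (ENNReal.ofReal (dist x y ^ 2 + (1 / ((j : ℝ) + 1)) ^ 2)) ^ (-p / 2) := by
      intro j
      rw [ENNReal.ofReal_rpow_of_pos (by positivity)]
      rfl
    refine iSup_eq_of_tendsto (fun i j hij => ENNReal.coe_le_coe.2 (hmono x y hij)) ?_
    simp_rw [hcoe]
    have h1 : Tendsto (fun j : ℕ => dist x y ^ 2 + (1 / ((j : ℝ) + 1)) ^ 2) atTop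
        (𝓝 (dist x y ^ 2 + 0 ^ 2)) :=
      tendsto_const_nhds.add (tendsto_one_div_add_atTop_nhds_zero_nat.pow 2)
    have h2 := ((ENNReal.continuous_rpow_const (y := -p / 2)).tendsto _).comp
      ((ENNReal.continuous_ofReal.tendsto _).comp h1)
    have h3 : (ENNReal.ofReal (dist x y ^ 2 + 0 ^ 2)) ^ (-p / 2) = (edist x y) ^ (-p) := by
      rw [edist_dist, show dist x y ^ 2 + (0 : ℝ) ^ 2 = dist x y ^ 2 by ring,
        ENNReal.ofReal_pow dist_nonneg, ← ENNReal.rpow_natCast, ← ENNReal.rpow_mul]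
      congr 1
      push_cast
      ring
    rw [← h3]
    exact h2

/-- (T2-H3b) A minimiser and its potential on `K` (`A.exists_min`, `A.variation_point`; `wR p e ν (emb x) = ∫ kR p e x ξ dν`). -/
theorem exists_kR_min {p e : ℝ} (hp0 : 0 < p) (he : 0 < e) {K : Set (E n)} (hK : IsCompact K)
    (hne : K.Nonempty) :
    kIn (fun x y : E n => (kR p e x y : ℝ≥0∞)) K ≠ ⊤ ∧ ∃ ν : Measure (E n), PK K ν ∧
      ∀ x ∈ K, (kIn (fun x y : E n => (kR p e x y : ℝ≥0∞)) K).toReal ≤ wR p e ν (emb x) := by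
  obtain ⟨k1, k2, k3, -, -⟩ := kR_props (n := n) hp0
  obtain ⟨ν, hν, hmin⟩ := exists_min (k1 e he) (k2 e he) hK hne
  have hP : IsProbabilityMeasure ν := ⟨hν.1⟩
  have hae : ∀ᵐ y ∂ν, y ∈ K := by
    rw [ae_iff]
    exact hν.2
  obtain ⟨C, hC⟩ := k2 e he
  have hpotC : ∀ x, kpot (fun x y : E n => (kR p e x y : ℝ≥0∞)) ν x ≤ C := by
    intro x
    calc kpot (fun x y : E n => (kR p e x y : ℝ≥0∞)) ν x ≤ ∫⁻ _, (C : ℝ≥0∞) ∂ν :=
          lintegral_mono fun y => ENNReal.coe_le_coe.2 (hC x y)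
      _ = C := by simp
  have henC : ken (fun x y : E n => (kR p e x y : ℝ≥0∞)) ν ≤ C := by
    calc ken (fun x y : E n => (kR p e x y : ℝ≥0∞)) ν ≤ ∫⁻ _, (C : ℝ≥0∞) ∂ν :=
          lintegral_mono fun x => hpotC x
      _ = C := by simp
  refine ⟨?_, ν, hν, ?_⟩
  · rw [← hmin]
    exact (henC.trans_lt ENNReal.coe_lt_top).ne
  · intro x hx
    have h1 := variation_point (k1 e he) ⟨C, hC⟩ (k3 e) hν hmin hx
    have hcs : Continuous (fun y : E n => (‖emb x - emb y‖ ^ 2 + e ^ 2) ^ (-p / 2)) := by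
      have h2 : Continuous (fun y : E n => (emb y : E (n + 1))) := emb_isometry.continuous
      refine Continuous.rpow_const (by fun_prop) fun y => Or.inl ?_
      positivity
    have hint : Integrable (fun y : E n => (‖emb x - emb y‖ ^ 2 + e ^ 2) ^ (-p / 2)) ν := by
      have h4 : IntegrableOn (fun y : E n => (‖emb x - emb y‖ ^ 2 + e ^ 2) ^ (-p / 2)) K ν :=
        hcs.continuousOn.integrableOn_compact hK
      rwa [IntegrableOn, Measure.restrict_eq_self_of_ae_mem hae] at h4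
    have hnn : ∀ y : E n, 0 ≤ (‖emb x - emb y‖ ^ 2 + e ^ 2) ^ (-p / 2) := fun y => by positivity
    have h5 : kpot (fun x y : E n => (kR p e x y : ℝ≥0∞)) ν x =
        ENNReal.ofReal (wR p e ν (emb x)) := by
      have h6 := ofReal_integral_eq_lintegral_ofReal hint (Filter.Eventually.of_forall hnn)
      have h7 : wR p e ν (emb x) = ∫ y, (‖emb x - emb y‖ ^ 2 + e ^ 2) ^ (-p / 2) ∂ν := rfl
      rw [h7, h6]
      refine lintegral_congr fun y => ?_
      have h8 : ‖emb x - emb y‖ = dist x y := by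
        rw [← dist_eq_norm]
        exact emb_isometry.dist_eq x y
      rw [h8]
      rfl
    rw [h5] at h1
    exact ENNReal.toReal_le_of_le_ofReal (integral_nonneg hnn) h1

end Pool.Agent.Lib.MP_6cd19d_an.T2
end
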