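import Pool.Agent.Lib.MP_6cd19d_an.ND.P5b
import Pool.Agent.Lib.MP_6cd19d_an.A.P3
import Pool.Agent.Lib.MP_6cd19d_an.A.S1
import Pool.Agent.Lib.MP_6cd19d_an.ND.B19c
import Pool.Agent.Lib.MP_6cd19d_an.ND.C20
import Pool.Agent.Lib.MP_6cd19d_an.ND.B04
import Pool.Agent.Lib.MP_6cd19d_an.ND.B07

section

/-!
# The Riesz potential of a ball at its centre
-/

set_option autoImplicit false

open MeasureTheory Set Filter Topology Metric
open scoped ENNReal NNReal RealInnerProductSpace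

namespace Pool.Agent.Lib.MP_6cd19d_an.A

open Pool.Agent.Lib.MP_6cd19d_an.ND

variable {n : ℕ}

private theorem W1_real {q : ℝ} (hn : 1 ≤ n) (hqn : q < n) {r : ℝ} (hr : 0 < r) :
    IntegrableOn (fun y : ℝ => y ^ (n - 1) • y ^ (-q)) (Ioo 0 r) ∧
    ∫ y in Ioi (0 : ℝ), y ^ (n - 1) • (indicator (Iio r) (fun y => y ^ (-q)) y) =
      r ^ ((n : ℝ) - q) / ((n : ℝ) - q) := by
  have hexp : (-1 : ℝ) < (n : ℝ) - 1 - q := by linarith
  have hcongr : ∀ y ∈ Ioo (0 : ℝ) r, y ^ ((n : ℝ) - 1 - q) = y ^ (n - 1) • y ^ (-q) := by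
    intro y hy
    have h1 : ((n - 1 : ℕ) : ℝ) = (n : ℝ) - 1 := by
      rw [Nat.cast_sub hn, Nat.cast_one]
    rw [smul_eq_mul, ← Real.rpow_natCast, h1, ← Real.rpow_add hy.1]
    ring_nf
  constructor
  · have h0 : IntegrableOn (fun y : ℝ => y ^ ((n : ℝ) - 1 - q)) (Ioo 0 r) :=
      (intervalIntegral.integrableOn_Ioo_rpow_iff hr).2 hexp
    exact h0.congr_fun hcongr measurableSet_Ioo
  · have h1 : ∀ y ∈ Ioi (0 : ℝ), y ^ (n - 1) • (indicator (Iio r) (fun y : ℝ => y ^ (-q)) y) =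
        indicator (Ioo 0 r) (fun y : ℝ => y ^ ((n : ℝ) - 1 - q)) y := by
      intro y hy
      by_cases hyr : y < r
      · rw [indicator_of_mem (show y ∈ Iio r from hyr), indicator_of_mem (show y ∈ Ioo 0 r from ⟨hy, hyr⟩),
          hcongr y ⟨hy, hyr⟩]
      · rw [indicator_of_notMem (show y ∉ Iio r from hyr),
          indicator_of_notMem (show y ∉ Ioo 0 r from fun h => hyr h.2), smul_zero]
    rw [setIntegral_congr_fun measurableSet_Ioi h1, setIntegral_indicator measurableSet_Ioo]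
    have h2 : Ioi (0 : ℝ) ∩ Ioo 0 r = Ioo 0 r := by
      ext y
      simp only [mem_inter_iff, mem_Ioi, mem_Ioo]
      tauto
    rw [h2, ← integral_Ioc_eq_integral_Ioo, ← intervalIntegral.integral_of_le hr.le,
      integral_rpow (Or.inl hexp)]
    have h3 : (n : ℝ) - 1 - q + 1 = (n : ℝ) - q := by ring
    rw [h3, Real.zero_rpow (by linarith), sub_zero]

private theorem W1_zero {q : ℝ} (hn : 1 ≤ n) (hq0 : 0 < q) (hqn : q < n) {r : ℝ} (hr : 0 < r) :
    ∫⁻ y in ball (0 : E n) r, ENNReal.ofReal (‖y‖ ^ (-q)) ∂volume =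
      ENNReal.ofReal (n * r ^ ((n : ℝ) - q) / ((n : ℝ) - q)) * volume (ball (0 : E n) 1) := by
  obtain ⟨hI, hV⟩ := W1_real (q := q) hn hqn hr
  have : Nontrivial (E n) := by
    have : Nonempty (Fin n) := ⟨⟨0, hn⟩⟩
    infer_instance
  have hdim : Module.finrank ℝ (E n) = n := by simp
  have hint : IntegrableOn (fun y : E n => ‖y‖ ^ (-q)) (ball (0 : E n) r) volume := by
    refine (integrableOn_fun_norm_addHaar (volume : Measure (E n)) (f := fun s : ℝ => s ^ (-q))
      (r := r)).2 ?_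
    rw [hdim]
    exact hI
  have hnn : 0 ≤ᵐ[volume.restrict (ball (0 : E n) r)] fun y : E n => ‖y‖ ^ (-q) :=
    Eventually.of_forall fun y => Real.rpow_nonneg (norm_nonneg y) _
  rw [← ofReal_integral_eq_lintegral_ofReal hint hnn]
  have h1 : ∫ y in ball (0 : E n) r, ‖y‖ ^ (-q) ∂volume =
      ∫ y : E n, (indicator (Iio r) (fun s : ℝ => s ^ (-q))) ‖y‖ ∂volume := by
    rw [← integral_indicator measurableSet_ball]
    congr 1
    ext y
    simp [indicator]
  rw [h1, integral_fun_norm_addHaar, hdim, hV]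
  have h2 : (volume : Measure (E n)).real (ball 0 1) = (volume (ball (0 : E n) 1)).toReal := rfl
  have hfin : volume (ball (0 : E n) 1) ≠ ⊤ := measure_ball_lt_top.ne
  have h3 : n • ((volume : Measure (E n)).real (ball 0 1) • (r ^ ((n : ℝ) - q) / ((n : ℝ) - q))) =
      (n * r ^ ((n : ℝ) - q) / ((n : ℝ) - q)) * (volume (ball (0 : E n) 1)).toReal := by
    rw [h2, nsmul_eq_mul, smul_eq_mul]
    ring
  rw [h3, ENNReal.ofReal_mul, ENNReal.ofReal_toReal hfin]
  have : 0 < (n : ℝ) - q := by linarith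
  positivity

/-- (RA-W1a) `∫_{|y|<r} |y|^(-q) dy = n |B| r^(n-q)/(n-q)`: polar coordinates (`MeasureTheory.lintegral_fun_norm_addHaar`,
`MeasureTheory.integral_fun_norm_addHaar` or similar), `∫_0^r s^(n-1-q) ds = r^(n-q)/(n-q)`. -/
theorem lintegral_ball_rpow {q : ℝ} (hn : 1 ≤ n) (hq0 : 0 < q) (hqn : q < n) {r : ℝ}
    (hr : 0 < r) (x : E n) :
    ∫⁻ y in ball x r, (edist x y) ^ (-q) ∂volume =
      ENNReal.ofReal (n * r ^ ((n : ℝ) - q) / ((n : ℝ) - q)) * volume (ball (0 : E n) 1) := by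
  rw [← W1_zero hn hq0 hqn hr]
  have : Nontrivial (E n) := by
    have : Nonempty (Fin n) := ⟨⟨0, hn⟩⟩
    infer_instance
  have h1 : ∫⁻ y in ball x r, (edist x y) ^ (-q) ∂volume =
      ∫⁻ y in ball (0 : E n) r, (edist 0 y) ^ (-q) ∂volume := by
    rw [← lintegral_indicator measurableSet_ball, ← lintegral_indicator measurableSet_ball]
    rw [← lintegral_add_left_eq_self (μ := (volume : Measure (E n)))
      (fun y => indicator (ball x r) (fun y => (edist x y) ^ (-q)) y) x]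
    congr 1
    ext y
    have h2 : edist x (x + y) = edist 0 y := by
      rw [edist_dist, edist_dist, dist_self_add_right, dist_zero_left]
    by_cases hy : y ∈ ball (0 : E n) r
    · have hxy : x + y ∈ ball x r := by
        rw [mem_ball, dist_self_add_left]
        simpa using hy
      rw [indicator_of_mem hxy, indicator_of_mem hy, h2]
    · have hxy : x + y ∉ ball x r := by
        rw [mem_ball, dist_self_add_left]
        simpa using hy
      rw [indicator_of_notMem hxy, indicator_of_notMem hy]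
  rw [h1]
  refine lintegral_congr_ae ?_
  have h0 : ∀ᵐ y ∂(volume.restrict (ball (0 : E n) r)), y ≠ (0 : E n) := by
    refine ae_restrict_of_ae ?_
    rw [ae_iff]
    simp
  filter_upwards [h0] with y hy
  have : 0 < ‖y‖ := norm_pos_iff.2 hy
  rw [edist_dist, dist_zero_left, ENNReal.ofReal_rpow_of_pos this]

/-- (RA-W1b) For every measurable set: split at distance `1`. -/
theorem lintegral_set_rpow {q : ℝ} (hn : 1 ≤ n) (hq0 : 0 < q) (hqn : q < n) {K : Set (E n)}
    (hK : MeasurableSet K) (x : E n) :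
    ∫⁻ y in K, (edist x y) ^ (-q) ∂volume ≤
      ENNReal.ofReal (n / ((n : ℝ) - q)) * volume (ball (0 : E n) 1) + volume K := by
  have h1 := lintegral_ball_rpow hn hq0 hqn one_pos x
  rw [Real.one_rpow, mul_one] at h1
  rw [← h1, ← lintegral_inter_add_sdiff (fun y => (edist x y) ^ (-q)) K
    (measurableSet_ball (x := x) (ε := 1))]
  refine add_le_add (lintegral_mono_set inter_subset_right) ?_
  calc ∫⁻ y in K \ ball x 1, (edist x y) ^ (-q) ∂volume
      ≤ ∫⁻ _ in K \ ball x 1, 1 ∂volume := by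
        refine setLIntegral_mono measurable_const ?_
        intro y hy
        have hd : 1 ≤ edist x y := by
          have h2 := hy.2
          rw [mem_ball, not_lt, dist_comm] at h2
          rw [edist_dist]
          exact ENNReal.one_le_ofReal.2 h2
        rw [ENNReal.rpow_neg]
        exact ENNReal.inv_le_one.2 (ENNReal.one_le_rpow hd hq0)
    _ = volume (K \ ball x 1) := by simp
    _ ≤ volume K := measure_mono sdiff_subset

end Pool.Agent.Lib.MP_6cd19d_an.A
end

section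

/-!
# Bounds for the energies in terms of volumes
-/

set_option autoImplicit false

open MeasureTheory Set Filter Topology Metric
open scoped ENNReal NNReal RealInnerProductSpace

namespace Pool.Agent.Lib.MP_6cd19d_an.A

open Pool.Agent.Lib.MP_6cd19d_an.ND

variable {n : ℕ}

/-- (RA-W2a) The normalised Lebesgue measure on `K` as a test measure. -/
theorem infEn_le_vol {q : ℝ} (hn : 1 ≤ n) (hq0 : 0 < q) (hqn : q < n) {K : Set (E n)}
    (hK : IsCompact K) (hpos : volume K ≠ 0) :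
    infEn q K ≤ (volume K)⁻¹ *
      (ENNReal.ofReal (n / ((n : ℝ) - q)) * volume (ball (0 : E n) 1) + volume K) := by
  have hfin : volume K ≠ ⊤ := hK.measure_lt_top.ne
  set μ : Measure (E n) := (volume K)⁻¹ • (volume.restrict K) with hμ
  have hone : μ univ = 1 := by
    rw [hμ, Measure.smul_apply, Measure.restrict_apply_univ, smul_eq_mul,
      ENNReal.inv_mul_cancel hpos hfin]
  have hPK : PK K μ := by
    refine ⟨hone, ?_⟩
    rw [hμ, Measure.smul_apply, Measure.restrict_apply hK.isClosed.isOpen_compl.measurableSet,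
      compl_inter_self, measure_empty, smul_zero]
  refine (iInf₂_le μ hPK).trans ?_
  unfold en
  calc ∫⁻ x, ∫⁻ y, (edist x y) ^ (-q) ∂μ ∂μ
      ≤ ∫⁻ _, (volume K)⁻¹ *
          (ENNReal.ofReal (n / ((n : ℝ) - q)) * volume (ball (0 : E n) 1) + volume K) ∂μ := by
        refine lintegral_mono fun x => ?_
        rw [hμ, lintegral_smul_measure, smul_eq_mul]
        gcongr
        exact lintegral_set_rpow hn hq0 hqn hK.measurableSet x
    _ = _ := by rw [lintegral_const, hone, mul_one]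

/-- (RA-W2b) Lower bound for the energy of the ball.

Proof.  `μ, u` the radial equilibrium measure (`hB`), `D = closedBall 0 (1+η)`.  `∫⁻ x in D, pot q μ x ≤ κ vol D` and by Tonelli it is
`∫⁻ y, (∫⁻ x in D, edist x y ^ (-q)) ∂μ ≥ ∫⁻ y, (∫⁻ x in ball y η, ..) ∂μ = n η^(n-q)/(n-q) vol (ball 0 1)` (`lintegral_ball_rpow`,
`ball y η ⊆ D` for `‖y‖ ≤ 1`), `vol D = (1+η)^n vol (ball 0 1)` (`Measure.addHaar_closedBall`). -/
theorem kap_ge {q : ℝ} (hn : 1 ≤ n) (hq0 : 0 < q) (hqn : q < n) {μ : Measure (E n)}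
    {u : ℝ → ℝ} (hB : BallM n q μ u) {η : ℝ} (hη : 0 < η) :
    n * η ^ ((n : ℝ) - q) / (((n : ℝ) - q) * (1 + η) ^ n) ≤ kap n q := by
  have hnq : 0 < (n : ℝ) - q := by linarith
  have : IsProbabilityMeasure μ := ⟨hB.prob⟩
  have : Nontrivial (E n) := by
    have : Nonempty (Fin n) := ⟨⟨0, hn⟩⟩
    infer_instance
  have hκ0 : 0 ≤ kap n q := ENNReal.toReal_nonneg
  set b : ℝ≥0∞ := volume (ball (0 : E n) 1) with hb
  have hb0 : b ≠ 0 := (measure_ball_pos volume _ one_pos).ne'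
  have hbt : b ≠ ⊤ := measure_ball_lt_top.ne
  set D : Set (E n) := closedBall (0 : E n) (1 + η) with hD
  have hDm : MeasurableSet D := isClosed_closedBall.measurableSet
  have hvolD : volume D = ENNReal.ofReal ((1 + η) ^ n) * b := by
    rw [hD, Measure.addHaar_closedBall _ _ (by linarith), hb]
    simp
  have hup : ∫⁻ x in D, pot q μ x ∂volume ≤ ENNReal.ofReal (kap n q) * volume D := by
    calc ∫⁻ x in D, pot q μ x ∂volume ≤ ∫⁻ _ in D, ENNReal.ofReal (kap n q) ∂volume := by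
          refine lintegral_mono fun x => ?_
          rw [hB.pot_eq x]
          exact ENNReal.ofReal_le_ofReal (hB.u_le _ (norm_nonneg x))
      _ = _ := by rw [lintegral_const, Measure.restrict_apply_univ]
  have hmeas : Measurable (Function.uncurry fun x y : E n => (edist x y) ^ (-q)) := by
    unfold Function.uncurry
    exact measurable_edist.pow_const _
  have hlow : ENNReal.ofReal (n * η ^ ((n : ℝ) - q) / ((n : ℝ) - q)) * b ≤
      ∫⁻ x in D, pot q μ x ∂volume := by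
    unfold pot
    rw [lintegral_lintegral_swap hmeas.aemeasurable]
    have hae : ∀ᵐ y ∂μ, y ∈ BB n := by
      rw [ae_iff]
      exact hB.supp
    calc ENNReal.ofReal (n * η ^ ((n : ℝ) - q) / ((n : ℝ) - q)) * b
        = ∫⁻ _, ENNReal.ofReal (n * η ^ ((n : ℝ) - q) / ((n : ℝ) - q)) * b ∂μ := by
          rw [lintegral_const, hB.prob, mul_one]
      _ ≤ _ := by
          refine lintegral_mono_ae ?_
          filter_upwards [hae] with y hy
          have hy1 : ‖y‖ ≤ 1 := by simpa using hy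
          rw [hb, ← lintegral_ball_rpow hn hq0 hqn hη y]
          have hsub : ball y η ⊆ D := by
            intro z hz
            rw [hD, mem_closedBall, dist_zero_right]
            rw [mem_ball, dist_eq_norm] at hz
            have := norm_sub_norm_le z y
            linarith
          calc ∫⁻ z in ball y η, (edist y z) ^ (-q) ∂volume
              ≤ ∫⁻ z in D, (edist y z) ^ (-q) ∂volume := lintegral_mono_set hsub
            _ = ∫⁻ z in D, (edist z y) ^ (-q) ∂volume := by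
                refine lintegral_congr fun z => ?_
                rw [edist_comm]
  have h1 := hlow.trans hup
  rw [hvolD, ← mul_assoc] at h1
  have h2 := (ENNReal.mul_le_mul_iff_left hb0 hbt).1 h1
  rw [← ENNReal.ofReal_mul hκ0] at h2
  have h3 := (ENNReal.ofReal_le_ofReal_iff (by positivity)).1 h2
  rw [div_le_iff₀ (by positivity)]
  rw [div_le_iff₀ hnq] at h3
  linarith

end Pool.Agent.Lib.MP_6cd19d_an.A
end

section

/-!
# Theorem A in terms of capacities
-/

set_option autoImplicit false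

open MeasureTheory Set Filter Topology Metric
open scoped ENNReal NNReal RealInnerProductSpace

namespace Pool.Agent.Lib.MP_6cd19d_an.A

open Pool.Agent.Lib.MP_6cd19d_an.ND

variable {n : ℕ}

private theorem z1_capf_nonneg (s : ℝ) (K : Set (E n)) : 0 ≤ capf s K := by
  unfold capf
  split_ifs
  · exact ENNReal.toReal_nonneg
  · exact le_rfl
  · exact mul_nonneg (by linarith [diam_nonneg (s := K)]) (Real.exp_pos _).le
  · exact ENNReal.toReal_nonneg

private theorem z1_ae {K : Set (E n)} {μ : Measure (E n)} (hμ : PK K μ) : ∀ᵐ x ∂μ, x ∈ K := by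
  rw [ae_iff]
  exact hμ.2

/-- the case `n = 2` -/
private theorem z1_two {K : Set (E n)} (hn : n = 2) (hK : IsCompact K) {R : ℝ} (hR : 0 < R)
    (h : ∀ c : ℝ, (∀ x ∈ K, ∀ y ∈ K, x ≠ y → 0 ≤ c + Nk n (dist x y)) →
      ∃ μ' : Measure (E n), PK K μ' ∧ ken (nk n c) μ' ≤ ENNReal.ofReal (c + Nk n R)) :
    R ≤ capf ((n : ℝ) - 2) K := by
  have hD : 0 ≤ diam K := diam_nonneg
  have hN : ∀ r, Nk n r = -Real.log r := by
    intro r
    unfold Nk
    rw [if_pos hn]
  set c : ℝ := Real.log (diam K + 1) with hcdef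
  obtain ⟨μ', hμ', hen⟩ := h c (by
    intro x hx y hy hxy
    have h1 : dist x y ≤ diam K := dist_le_diam_of_mem hK.isBounded hx hy
    have h2 : Real.log (dist x y) ≤ c :=
      Real.log_le_log (dist_pos.2 hxy) (by linarith)
    rw [hN]
    linarith)
  have hker : ∀ x y : E n, (if x = y then (⊤ : ℝ≥0∞) else
      ENNReal.ofReal (Real.log ((Metric.diam K + 1) / dist x y))) = nk n c x y := by
    intro x y
    unfold nk
    by_cases hxy : x = y
    · rw [if_pos hxy, if_pos hxy]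
    · rw [if_neg hxy, if_neg hxy, hN, Real.log_div (by linarith) (dist_pos.2 hxy).ne']
      rfl
  have hlog : logEn K ≤ ENNReal.ofReal (c + Nk n R) := by
    refine le_trans (iInf₂_le μ' hμ') ?_
    simp only [hker]
    exact hen
  have hfin : logEn K ≠ ⊤ := ne_top_of_le_ne_top ENNReal.ofReal_ne_top hlog
  -- the bound is nonnegative
  have hpos : 0 ≤ c + Nk n R := by
    by_contra hneg
    rw [ENNReal.ofReal_of_nonpos (not_le.1 hneg).le] at hen
    set b : ℝ≥0∞ := ENNReal.ofReal (Real.log ((diam K + 1) / (diam K + 1 / 2))) with hb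
    have hb0 : 0 < b := by
      rw [hb, ENNReal.ofReal_pos]
      apply Real.log_pos
      rw [lt_div_iff₀ (by linarith)]
      linarith
    have hbk : ∀ x ∈ K, ∀ y ∈ K, b ≤ nk n c x y := by
      intro x hx y hy
      rw [← hker]
      split_ifs with hxy
      · exact le_top
      · have h1 : dist x y ≤ diam K := dist_le_diam_of_mem hK.isBounded hx hy
        have h2 : 0 < dist x y := dist_pos.2 hxy
        refine ENNReal.ofReal_le_ofReal (Real.log_le_log (by positivity) ?_)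
        exact div_le_div_of_nonneg_left (by linarith) h2 (by linarith)
    have h1 : b ≤ ken (nk n c) μ' := by
      unfold ken
      have h2 : ∫⁻ _x, ∫⁻ _y, b ∂μ' ∂μ' = b := by
        rw [lintegral_const, lintegral_const, hμ'.1, mul_one, mul_one]
      rw [← h2]
      refine lintegral_mono_ae ?_
      filter_upwards [z1_ae hμ'] with x hx
      refine lintegral_mono_ae ?_
      filter_upwards [z1_ae hμ'] with y hy
      exact hbk x hx y hy
    exact absurd (h1.trans hen) (not_le.2 hb0)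
  have hJ : (logEn K).toReal ≤ c + Nk n R := by
    have h1 := ENNReal.toReal_mono ENNReal.ofReal_ne_top hlog
    rwa [ENNReal.toReal_ofReal hpos] at h1
  have h0 : (n : ℝ) - 2 = 0 := by
    rw [hn]
    norm_num
  rw [h0, capf_zero_def, if_neg hfin]
  rw [hN] at hJ
  calc R = (diam K + 1) * Real.exp (-(c + -Real.log R)) := by
        have e1 : -(c + -Real.log R) = Real.log R - c := by ring
        rw [e1, Real.exp_sub, Real.exp_log hR, hcdef, Real.exp_log (by linarith)]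
        field_simp
    _ ≤ (diam K + 1) * Real.exp (-(logEn K).toReal) := by
        refine mul_le_mul_of_nonneg_left (Real.exp_le_exp.2 ?_) (by linarith)
        linarith

/-- the case `n ≥ 3` -/
private theorem z1_three {K : Set (E n)} (hn : 3 ≤ n) (hK : IsCompact K) {R : ℝ} (hR : 0 < R)
    (h : ∀ c : ℝ, (∀ x ∈ K, ∀ y ∈ K, x ≠ y → 0 ≤ c + Nk n (dist x y)) →
      ∃ μ' : Measure (E n), PK K μ' ∧ ken (nk n c) μ' ≤ ENNReal.ofReal (c + Nk n R)) :
    R ≤ capf ((n : ℝ) - 2) K := by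
  have hn3 : (3 : ℝ) ≤ n := by exact_mod_cast hn
  have ha : (0 : ℝ) < (n : ℝ) - 2 := by linarith
  have hn2 : n ≠ 2 := by omega
  have hN : ∀ r, Nk n r = r ^ ((2 : ℝ) - n) / ((n : ℝ) - 2) := by
    intro r
    unfold Nk
    rw [if_neg hn2]
  obtain ⟨μ', hμ', hen⟩ := h 0 (by
    intro x hx y hy hxy
    rw [hN, zero_add]
    exact div_nonneg (Real.rpow_nonneg dist_nonneg _) ha.le)
  have hker : ∀ x y : E n, (edist x y) ^ (-((n : ℝ) - 2)) =
      ENNReal.ofReal ((n : ℝ) - 2) * nk n 0 x y := by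
    intro x y
    unfold nk
    by_cases hxy : x = y
    · rw [if_pos hxy, hxy, edist_self, ENNReal.zero_rpow_of_neg (by linarith),
        ENNReal.mul_top]
      exact (ENNReal.ofReal_pos.2 ha).ne'
    · have hd : 0 < dist x y := dist_pos.2 hxy
      rw [if_neg hxy, hN, zero_add, ← ENNReal.ofReal_mul ha.le, edist_dist,
        ENNReal.ofReal_rpow_of_pos hd]
      congr 1
      rw [neg_sub]
      field_simp
  have hJ : infEn ((n : ℝ) - 2) K ≤ ENNReal.ofReal (R ^ ((2 : ℝ) - n)) := by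
    refine le_trans (iInf₂_le μ' hμ') ?_
    have h1 : en ((n : ℝ) - 2) μ' = ENNReal.ofReal ((n : ℝ) - 2) * ken (nk n 0) μ' := by
      unfold en ken
      simp only [hker]
      rw [← lintegral_const_mul' _ _ ENNReal.ofReal_ne_top]
      congr 1
      funext x
      rw [lintegral_const_mul' _ _ ENNReal.ofReal_ne_top]
    rw [h1]
    calc ENNReal.ofReal ((n : ℝ) - 2) * ken (nk n 0) μ'
        ≤ ENNReal.ofReal ((n : ℝ) - 2) * ENNReal.ofReal (0 + Nk n R) := by gcongr
      _ = ENNReal.ofReal (R ^ ((2 : ℝ) - n)) := by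
          rw [hN, zero_add, ← ENNReal.ofReal_mul ha.le]
          congr 1
          field_simp
  have hJ0 : 0 < infEn ((n : ℝ) - 2) K := infEn_pos ha hK
  have hJf : infEn ((n : ℝ) - 2) K ≠ ⊤ := ne_top_of_le_ne_top ENNReal.ofReal_ne_top hJ
  have hJr : (infEn ((n : ℝ) - 2) K).toReal ≤ R ^ ((2 : ℝ) - n) := by
    have h1 := ENNReal.toReal_mono ENNReal.ofReal_ne_top hJ
    rwa [ENNReal.toReal_ofReal (Real.rpow_nonneg hR.le _)] at h1
  rw [capf_pos_def ha, ← ENNReal.toReal_rpow]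
  have h2 := Real.rpow_le_rpow_of_nonpos (ENNReal.toReal_pos hJ0.ne' hJf) hJr
    (show -1 / ((n : ℝ) - 2) ≤ 0 from div_nonpos_of_nonpos_of_nonneg (by norm_num) ha.le)
  have h3 : (R ^ ((2 : ℝ) - n)) ^ (-1 / ((n : ℝ) - 2)) = R := by
    rw [← Real.rpow_mul hR.le]
    have e : ((2 : ℝ) - n) * (-1 / ((n : ℝ) - 2)) = 1 := by
      field_simp
      ring
    rw [e, Real.rpow_one]
  rw [h3] at h2
  exact h2

/-- (RA-Z1) The comparison of capacities: `cap_q K ≤ cap_q(ball) * cap_{n-2} K` for `n - 2 < q < n`, `n ≥ 2`.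

Proof.  If `infEn q K = ⊤` (for instance `K` empty) then `capf q K = (⊤^(-1/q)).toReal = 0` and the right side is `≥ 0`.  Otherwise
`capf q K = I^(-1/q)`, `capf q (BB n) = κ^(-1/q)` in real numbers, so the quotient is `R = (κ/I)^(1/q)`; to show `R ≤ capf (n-2) K`.
`n ≥ 3` (`0 < n - 2`): `partA` with `c = 0`: `nk n 0 x y = (edist x y)^(-(n-2)) / (n-2)`, `Nk n R = R^(2-n)/(n-2)`, so the energy infimum `J` is
`≤ ofReal (R^(2-n))`, and `J > 0` (`infEn_pos` with `n-2`), `capf (n-2) K = (J^(-1/(n-2))).toReal ≥ R`.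
`n = 2` (the branch `s = 0`): `c = log (diam K + 1) ≥ 0`; for `x ≠ y` in `K`: `log ((diam K+1)/dist x y) = c + Nk 2 (dist x y) ≥ 0`; the kernel in
`capf` is `nk 2 c`; the infimum `J ≤ ofReal (c - log R)` is finite, so `capf 0 K = (diam K + 1) exp (-J.toReal)`.  `J.toReal ≤ c - log R` when `c - log R ≥ 0`; if
`c - log R < 0` then `ofReal` is `0`, so some probability measure on `K` would have energy `0` although the kernel is everywhere `> 0` on `K` (`diam K + 1 > dist x y`):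
impossible (`lintegral_eq_zero_iff`).  So `capf 0 K ≥ (diam K+1) exp (-c + log R) = R`. -/
theorem capf_le_newton (hn : 2 ≤ n) {q : ℝ} (hq : (n : ℝ) - 2 < q) (hqn : q < n)
    {K : Set (E n)} (hK : IsCompact K) :
    capf q K ≤ capf q (BB n) * capf ((n : ℝ) - 2) K := by
  have hn2 : (2 : ℝ) ≤ n := by exact_mod_cast hn
  have hq0 : 0 < q := by linarith
  by_cases hI : infEn q K = ⊤
  · have h1 : capf q K = 0 := by
      rw [capf_pos_def hq0, hI, ENNReal.top_rpow_of_neg
        (div_neg_of_neg_of_pos (by norm_num) hq0), ENNReal.toReal_zero]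
    rw [h1]
    exact mul_nonneg (z1_capf_nonneg _ _) (z1_capf_nonneg _ _)
  · have hI0 : 0 < (infEn q K).toReal := ENNReal.toReal_pos (infEn_pos hq0 hK).ne' hI
    have hB0 : 0 < kap n q := (infEn_ball_fin (by omega) hq0 hqn).2.1
    set R : ℝ := (kap n q / (infEn q K).toReal) ^ (1 / q) with hRdef
    have hR : 0 < R := Real.rpow_pos_of_pos (div_pos hB0 hI0) _
    have key : R ≤ capf ((n : ℝ) - 2) K := by
      have h : ∀ c : ℝ, (∀ x ∈ K, ∀ y ∈ K, x ≠ y → 0 ≤ c + Nk n (dist x y)) →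
          ∃ μ' : Measure (E n), PK K μ' ∧ ken (nk n c) μ' ≤ ENNReal.ofReal (c + Nk n R) :=
        fun c hc => partA hn hq hqn hK hI hc
      rcases Nat.lt_or_ge 2 n with h3 | h3
      · exact z1_three h3 hK hR h
      · exact z1_two (by omega) hK hR h
    have e1 : capf q K = (infEn q K).toReal ^ (-1 / q) := by
      rw [capf_pos_def hq0, ENNReal.toReal_rpow]
    have e2 : capf q (BB n) = kap n q ^ (-1 / q) := by
      rw [capf_pos_def hq0, ← ENNReal.toReal_rpow]
      rfl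
    have e3 : kap n q ^ (-1 / q) * R = (infEn q K).toReal ^ (-1 / q) := by
      rw [hRdef, Real.div_rpow hB0.le hI0.le, neg_div, Real.rpow_neg hB0.le,
        Real.rpow_neg hI0.le]
      have h4 : kap n q ^ (1 / q) ≠ 0 := (Real.rpow_pos_of_pos hB0 _).ne'
      field_simp
    rw [e1, e2, ← e3]
    exact mul_le_mul_of_nonneg_left key (Real.rpow_nonneg hB0.le _)

end Pool.Agent.Lib.MP_6cd19d_an.A
end

section

/-!
# C20/C21: the disc, `n = 2` (analogue of B20, B21a, B21b)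

`mL_rot`: `btL d 0` is a function of the norm (`btL_formula`, and a single point is null), Lebesgue measure is invariant
under linear isometries.
`ball_gpL` (`e > 0`): `μ'` a probability measure on `closedBall 0 (exp (-d))`; `g = gp p e R`, `V x = ∫ g (‖x-y‖^2) dmL`.
By `mixture_pd` (with `gp_mixture`: `gp p e R ρ = gp p e R 0 - (1/2) ∫_0^ρ ...`) for `μ'` and `mL`:
`I(μ',μ') + I(mL,mL) ≥ 2 I(μ',mL) = 2 ∫ V dμ'`. Let `c = V` at points of norm `exp (-d)`. By `rot_antitone` (B20, `n = 2`):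
`V ≥ c` on `closedBall 0 (exp (-d))`, `V ≤ c` on the support of `mL` (`mL_shell`). So
`I(μ',μ') ≥ 2 c - I(mL,mL)` and `I(mL,mL) = ∫ V dmL ≤ c`: `I(μ',μ') ≥ I(mL,mL)`.
`ball_gp0L`: `e → 0`: on the left (`mL`) Fatou, on the right `gp_le_gp0` (all squared distances are `≤ R`).
`log_mL`: `p = 0`: `V x ≤ V 0` by `rot_antitone`, so `I(mL,mL) ≤ V 0 = ∫ g (‖y‖^2) dmL` for `g = gp 0 e R`; `e → 0` (Fatou on
the left, `gp_le_gp0` on the right): `∬ gp0 0 R (‖x-y‖^2) dmL dmL ≤ ∫ gp0 0 R (‖y‖^2) dmL`, and by `gp0_zero`,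
`mL_shell`: `gp0 0 R (‖y‖^2) = ofReal (log (sqrt R) - log ‖y‖) ≤ ofReal (log (sqrt R) + d)`.
`cap0_ball_ge`: the image `ν` of `mL` under `z ↦ exp (-d) • z` lives on the closed unit disc `B`, `diam B + 1 = 3`;
with `R = (3 exp d)^2`: `log (3 / (exp (-d) t)) = log (3 exp d / t) = (1/2) log (R / t^2)`, so
`logEn B ≤ ∬ gp0 0 R (‖x-y‖^2) dmL dmL ≤ log (3 exp d) + d = log 3 + 2 d` and
`capf 0 B = 3 exp (-(logEn B).toReal) ≥ exp (-2 d)`; `d → 0`.
-/

set_option autoImplicit false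

open MeasureTheory Set Filter Topology
open scoped ENNReal ContDiff

namespace Pool.Agent.Lib.MP_6cd19d_an.ND

private theorem c21_cont {n : ℕ} {g : ℝ → ℝ} (hg : ContinuousOn g (Ici 0)) :
    Continuous fun q : E n × E n => g (‖q.1 - q.2‖ ^ 2) := by
  refine hg.comp_continuous (by fun_prop) fun q => ?_
  simp only [mem_Ici]
  positivity

private theorem c21_meas {n : ℕ} {ν : Measure (E n)} [IsProbabilityMeasure ν] {g : ℝ → ℝ}
    (hg : ContinuousOn g (Ici 0)) :
    StronglyMeasurable fun x : E n => ∫ y, g (‖x - y‖ ^ 2) ∂ν :=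
  ((c21_cont hg).stronglyMeasurable).integral_prod_right (ν := ν)

private theorem c21_ae {n : ℕ} {ν : Measure (E n)} {S : Set (E n)} (hν : ν Sᶜ = 0) :
    ∀ᵐ x ∂ν, x ∈ S := by
  rw [ae_iff]
  exact hν

private theorem c21_int {n : ℕ} {ν : Measure (E n)} [IsProbabilityMeasure ν] {S : Set (E n)}
    {R : ℝ} (hS : ∀ x ∈ S, ∀ y ∈ S, ‖x - y‖ ^ 2 ≤ R) (hν : ν Sᶜ = 0) {g : ℝ → ℝ}
    (hg : ContinuousOn g (Ici 0)) (hg0 : ∀ ρ, 0 ≤ ρ → ρ ≤ R → 0 ≤ g ρ)
    (hg1 : ∀ ρ, 0 ≤ ρ → g ρ ≤ g 0) {x : E n} (hx : x ∈ S) :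
    Integrable (fun y => g (‖x - y‖ ^ 2)) ν := by
  have hc : Continuous fun y : E n => g (‖x - y‖ ^ 2) := by
    refine hg.comp_continuous (by fun_prop) fun q => ?_
    simp only [mem_Ici]
    positivity
  refine Integrable.of_bound hc.aestronglyMeasurable (g 0) ?_
  filter_upwards [c21_ae hν] with y hy
  rw [Real.norm_eq_abs, abs_of_nonneg (hg0 _ (by positivity) (hS x hx y hy))]
  exact hg1 _ (by positivity)

private theorem c21_conv {n : ℕ} {ν : Measure (E n)} [IsProbabilityMeasure ν] {S : Set (E n)}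
    {R : ℝ} (hS : ∀ x ∈ S, ∀ y ∈ S, ‖x - y‖ ^ 2 ≤ R) (hν : ν Sᶜ = 0) {g : ℝ → ℝ}
    (hg : ContinuousOn g (Ici 0)) (hg0 : ∀ ρ, 0 ≤ ρ → ρ ≤ R → 0 ≤ g ρ)
    (hg1 : ∀ ρ, 0 ≤ ρ → g ρ ≤ g 0) :
    ENNReal.ofReal (∫ x, ∫ y, g (‖x - y‖ ^ 2) ∂ν ∂ν) =
      ∫⁻ x, ∫⁻ y, ENNReal.ofReal (g (‖x - y‖ ^ 2)) ∂ν ∂ν := by
  have hnn : ∀ x ∈ S, 0 ≤ᵐ[ν] fun y => g (‖x - y‖ ^ 2) := by
    intro x hx
    filter_upwards [c21_ae hν] with y hy
    exact hg0 _ (by positivity) (hS x hx y hy)
  have h1 : Integrable (fun x => ∫ y, g (‖x - y‖ ^ 2) ∂ν) ν := by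
    refine Integrable.of_bound (c21_meas hg).aestronglyMeasurable (g 0) ?_
    filter_upwards [c21_ae hν] with x hx
    rw [Real.norm_eq_abs, abs_of_nonneg (integral_nonneg_of_ae (hnn x hx))]
    calc ∫ y, g (‖x - y‖ ^ 2) ∂ν ≤ ∫ y, g 0 ∂ν :=
          integral_mono (c21_int hS hν hg hg0 hg1 hx) (integrable_const _)
            fun y => hg1 _ (by positivity)
      _ = g 0 := by simp
  rw [ofReal_integral_eq_lintegral_ofReal h1 ?_]
  · refine lintegral_congr_ae ?_
    filter_upwards [c21_ae hν] with x hx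
    exact ofReal_integral_eq_lintegral_ofReal (c21_int hS hν hg hg0 hg1 hx) (hnn x hx)
  · filter_upwards [c21_ae hν] with x hx
    exact integral_nonneg_of_ae (hnn x hx)

private theorem c21_gcont {p e R : ℝ} {n : ℕ} (he : 0 < e) (hR : 0 < R)
    (hp2 : p ≤ (n : ℝ) - 2) : ContinuousOn (gp p e R) (Ici 0) := by
  refine (goodG_gp (n := n) he hR hp2).smooth.continuousOn.mono ?_
  intro t ht
  have he2 : 0 < e ^ 2 := by positivity
  simp only [mem_Ici, mem_Ioi] at ht ⊢
  linarith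

private theorem c21_geom {d : ℝ} (hd : 0 < d) (hd1 : d < 1)
    {μ' : Measure (E 2)}
    (hμ' : PK (Metric.closedBall (0 : E 2) (Real.exp (-d))) μ') {R : ℝ}
    (hR2 : (2 * Real.exp d) ^ 2 ≤ R) :
    0 < R ∧ mL d (Metric.closedBall (0 : E 2) (Real.exp d))ᶜ = 0 ∧
      μ' (Metric.closedBall (0 : E 2) (Real.exp d))ᶜ = 0 ∧
      ∀ x ∈ Metric.closedBall (0 : E 2) (Real.exp d),
        ∀ y ∈ Metric.closedBall (0 : E 2) (Real.exp d),
          ‖x - y‖ ^ 2 ≤ R := by
  have hr2 : 0 < Real.exp d := Real.exp_pos _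
  refine ⟨lt_of_lt_of_le (by positivity) hR2, ?_, ?_, ?_⟩
  · refine measure_mono_null ?_ (mL_shell hd hd1)
    intro z hz hz'
    exact hz (by simpa using hz'.2)
  · refine measure_mono_null ?_ hμ'.2
    refine compl_subset_compl.2 (Metric.closedBall_subset_closedBall ?_)
    exact Real.exp_le_exp.2 (by linarith)
  · intro x hx y hy
    rw [mem_closedBall_zero_iff] at hx hy
    refine le_trans ?_ hR2
    have h1 : ‖x - y‖ ≤ 2 * Real.exp d := by
      refine (norm_sub_le x y).trans ?_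
      linarith
    gcongr

private noncomputable def VL (d : ℝ) (g : ℝ → ℝ) (x : E 2) : ℝ :=
  ∫ y, g (‖x - y‖ ^ 2) ∂(mL d)

theorem ball_gpL {p e : ℝ} (hp : -2 < p) (hp2 : p ≤ 0) (he : 0 < e) {d : ℝ} (hd : 0 < d)
    (hd1 : d < 1) {μ' : Measure (E 2)}
    (hμ' : PK (Metric.closedBall (0 : E 2) (Real.exp (-d))) μ') {R : ℝ}
    (hR2 : (2 * Real.exp d) ^ 2 ≤ R) :
    ∫ x, ∫ y, gp p e R (‖x - y‖ ^ 2) ∂(mL d) ∂(mL d) ≤
      ∫ x, ∫ y, gp p e R (‖x - y‖ ^ 2) ∂μ' ∂μ' := by
  obtain ⟨hR, hBS, hμS, hS⟩ := c21_geom hd hd1 hμ' hR2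
  have hP1 : IsProbabilityMeasure μ' := ⟨hμ'.1⟩
  have hP2 : IsProbabilityMeasure (mL d) := ⟨mL_univ hd hd1⟩
  have hgood : GoodG 2 (gp p e R) (e ^ 2) := goodG_gp he hR (by simpa using hp2)
  have hgc : ContinuousOn (gp p e R) (Ici 0) := c21_gcont (n := 2) he hR (by simpa using hp2)
  have he2 : 0 < e ^ 2 := by positivity
  -- positive definiteness
  have hmix := mixture_pd (α := μ') (β := mL d)
    (S := Metric.closedBall (0 : E 2) (Real.exp d))
    Metric.isClosed_closedBall.measurableSet hμS hBS (R2 := R) hS (k := gp p e R)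
    (w := fun u => (2 * Real.Gamma (p / 2 + 1))⁻¹ * u ^ (p / 2 - 1) * Real.exp (-u * e ^ 2))
    (k0 := gp p e R 0)
    (by
      refine ((measurable_const.mul (measurable_id.pow_const _))).mul ?_
      exact (by fun_prop : Continuous fun u : ℝ => Real.exp (-u * e ^ 2)).measurable)
    (fun u hu => by
      have hG : 0 < Real.Gamma (p / 2 + 1) := Real.Gamma_pos_of_pos (by linarith)
      have hu' : 0 ≤ u ^ (p / 2 - 1) := Real.rpow_nonneg hu.le _
      positivity)
    (gp_mixture hp he hR.le).1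
    (fun ρ hρ hρR => by
      have h1 := (gp_mixture hp he hρ).2
      rw [← h1]
      have hii : ∀ a b : ℝ, 0 ≤ a → 0 ≤ b →
          IntervalIntegrable (fun t : ℝ => (t + e ^ 2) ^ (-p / 2 - 1)) volume a b := by
        intro a b ha hb
        refine ContinuousOn.intervalIntegrable ?_
        refine ContinuousOn.rpow_const (by fun_prop) fun t ht => Or.inl ?_
        rw [mem_uIcc] at ht
        rcases ht with ht | ht <;> linarith [ht.1]
      have h2 := intervalIntegral.integral_add_adjacent_intervals (hii 0 ρ le_rfl hρ)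
        (hii ρ R hρ hR.le)
      unfold gp
      rw [← h2]
      ring)
  -- the radii
  set r : ℝ := Real.exp (-d) with hr
  set r2 : ℝ := Real.exp d with hr2
  have hr0 : 0 ≤ r := (Real.exp_pos _).le
  have hr20 : 0 ≤ r2 := (Real.exp_pos _).le
  have hpt : ∀ t : ℝ, 0 ≤ t → ∃ x : E 2, ‖x‖ = t := by
    intro t ht
    refine ⟨EuclideanSpace.single (⟨0, by omega⟩ : Fin 2) t, ?_⟩
    rw [PiLp.norm_single, Real.norm_eq_abs, abs_of_nonneg ht]
  obtain ⟨x1, hx1⟩ := hpt r hr0
  obtain ⟨x2, hx2⟩ := hpt r2 hr20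
  have hanti : ∀ x x' : E 2, ‖x‖ ≤ ‖x'‖ → VL d (gp p e R) x' ≤ VL d (gp p e R) x :=
    fun x x' h => rot_antitone (n := 2) le_rfl hBS (mL_rot hd hd1) hgood h
  have hVint : ∀ (ν : Measure (E 2)) [IsProbabilityMeasure ν],
      ν (Metric.closedBall (0 : E 2) r2)ᶜ = 0 → Integrable (VL d (gp p e R)) ν := by
    intro ν _ hν
    refine Integrable.of_bound (c21_meas (ν := mL d) hgc).aestronglyMeasurable
      (|VL d (gp p e R) 0| + |VL d (gp p e R) x2|) ?_
    filter_upwards [c21_ae hν] with x hx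
    rw [mem_closedBall_zero_iff] at hx
    have h1 := hanti 0 x (by simp)
    have h2 := hanti x x2 (by rw [hx2]; exact hx)
    rw [Real.norm_eq_abs, abs_le]
    have h3 := abs_nonneg (VL d (gp p e R) 0)
    have h4 := le_abs_self (VL d (gp p e R) 0)
    have h5 := neg_abs_le (VL d (gp p e R) x2)
    have h6 := abs_nonneg (VL d (gp p e R) x2)
    constructor <;> linarith
  have hA : VL d (gp p e R) x1 ≤ ∫ x, VL d (gp p e R) x ∂μ' := by
    have h1 : ∫ x, VL d (gp p e R) x1 ∂μ' ≤ ∫ x, VL d (gp p e R) x ∂μ' := by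
      refine integral_mono_ae (integrable_const _) (hVint μ' hμS) ?_
      filter_upwards [c21_ae hμ'.2] with x hx
      rw [mem_closedBall_zero_iff] at hx
      exact hanti x x1 (by rw [hx1]; exact hx)
    simpa using h1
  have hB : ∫ x, VL d (gp p e R) x ∂(mL d) ≤ VL d (gp p e R) x1 := by
    have h1 : ∫ x, VL d (gp p e R) x ∂(mL d) ≤ ∫ x, VL d (gp p e R) x1 ∂(mL d) := by
      refine integral_mono_ae (hVint (mL d) hBS) (integrable_const _) ?_
      filter_upwards [c21_ae (mL_shell hd hd1)] with x hx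
      exact hanti x1 x (by rw [hx1]; exact hx.1)
    simpa using h1
  unfold VL at hA hB
  linarith

theorem ball_gp0L {p : ℝ} (hp : -2 < p) (hp2 : p ≤ 0) {d : ℝ} (hd : 0 < d) (hd1 : d < 1)
    {μ' : Measure (E 2)} (hμ' : PK (Metric.closedBall (0 : E 2) (Real.exp (-d))) μ') {R : ℝ}
    (hR2 : (2 * Real.exp d) ^ 2 ≤ R) :
    ∫⁻ x, ∫⁻ y, gp0 p R (‖x - y‖ ^ 2) ∂(mL d) ∂(mL d) ≤
      ∫⁻ x, ∫⁻ y, gp0 p R (‖x - y‖ ^ 2) ∂μ' ∂μ' := by
  obtain ⟨hR, hBS, hμS, hS⟩ := c21_geom hd hd1 hμ' hR2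
  have hP1 : IsProbabilityMeasure μ' := ⟨hμ'.1⟩
  have hP2 : IsProbabilityMeasure (mL d) := ⟨mL_univ hd hd1⟩
  have hstep : ∀ e : ℝ, 0 < e →
      ∫⁻ x, ∫⁻ y, ENNReal.ofReal (gp p e R (‖x - y‖ ^ 2)) ∂(mL d) ∂(mL d) ≤
        ∫⁻ x, ∫⁻ y, gp0 p R (‖x - y‖ ^ 2) ∂μ' ∂μ' := by
    intro e he
    have hgc : ContinuousOn (gp p e R) (Ici 0) := c21_gcont (n := 2) he hR (by simpa using hp2)
    have hg0 : ∀ ρ, 0 ≤ ρ → ρ ≤ R → 0 ≤ gp p e R ρ := fun ρ h1 h2 => gp_nonneg he h1 h2
    have hg1 : ∀ ρ, 0 ≤ ρ → gp p e R ρ ≤ gp p e R 0 := fun ρ h1 => gp_le_zero he h1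
    rw [← c21_conv hS hBS hgc hg0 hg1]
    refine (ENNReal.ofReal_le_ofReal (ball_gpL hp hp2 he hd hd1 hμ' hR2)).trans ?_
    rw [c21_conv hS hμS hgc hg0 hg1]
    refine lintegral_mono_ae ?_
    filter_upwards [c21_ae hμS] with x hx
    refine lintegral_mono_ae ?_
    filter_upwards [c21_ae hμS] with y hy
    exact gp_le_gp0 hp he (by positivity) (hS x hx y hy)
  -- the sequence
  have hek : ∀ k : ℕ, (0 : ℝ) < 1 / ((k : ℝ) + 1) := fun k => by positivity
  have hlim : Tendsto (fun k : ℕ => (1 : ℝ) / ((k : ℝ) + 1)) atTop (𝓝[>] 0) := by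
    rw [tendsto_nhdsWithin_iff]
    exact ⟨tendsto_one_div_add_atTop_nhds_zero_nat, Eventually.of_forall fun k => hek k⟩
  have hmeas : ∀ k : ℕ, Measurable fun q : E 2 × E 2 =>
      ENNReal.ofReal (gp p (1 / ((k : ℝ) + 1)) R (‖q.1 - q.2‖ ^ 2)) := fun k =>
    (c21_cont (c21_gcont (n := 2) (hek k) hR (by simpa using hp2))).measurable.ennreal_ofReal
  have hmeas' : ∀ (k : ℕ) (x : E 2), Measurable fun y : E 2 =>
      ENNReal.ofReal (gp p (1 / ((k : ℝ) + 1)) R (‖x - y‖ ^ 2)) := fun k x => by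
    refine Measurable.ennreal_ofReal (Continuous.measurable ?_)
    refine (c21_gcont (n := 2) (hek k) hR (by simpa using hp2)).comp_continuous (by fun_prop) fun q => ?_
    simp only [mem_Ici]
    positivity
  calc ∫⁻ x, ∫⁻ y, gp0 p R (‖x - y‖ ^ 2) ∂(mL d) ∂(mL d)
      ≤ ∫⁻ x, liminf (fun k : ℕ => ∫⁻ y, ENNReal.ofReal
          (gp p (1 / ((k : ℝ) + 1)) R (‖x - y‖ ^ 2)) ∂(mL d)) atTop ∂(mL d) := by
        refine lintegral_mono_ae ?_
        filter_upwards [c21_ae hBS] with x hx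
        refine le_trans ?_ (lintegral_liminf_le fun k => hmeas' k x)
        refine lintegral_mono_ae ?_
        filter_upwards [c21_ae hBS] with y hy
        exact ((gp_tendsto hp (by positivity) (hS x hx y hy)).comp hlim).liminf_eq.ge
    _ ≤ liminf (fun k : ℕ => ∫⁻ x, ∫⁻ y, ENNReal.ofReal
          (gp p (1 / ((k : ℝ) + 1)) R (‖x - y‖ ^ 2)) ∂(mL d) ∂(mL d)) atTop :=
        lintegral_liminf_le fun k => (hmeas k).lintegral_prod_right'
    _ ≤ ∫⁻ x, ∫⁻ y, gp0 p R (‖x - y‖ ^ 2) ∂μ' ∂μ' := by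
        refine liminf_le_of_le (by isBoundedDefault) ?_
        intro b hb
        obtain ⟨k, hk⟩ := hb.exists
        exact hk.trans (hstep _ (hek k))

end Pool.Agent.Lib.MP_6cd19d_an.ND
end

section

/-!
# C22: comparison with the `s`-equilibrium measure, `n = 2`, `0 < s < 2`

`K ⊂ ℝ²` compact, `I = infEn s K ≠ ⊤`; `μ` from `exists_equilibrium` (P6; `n - 2 = 0 ≤ s`): `pot s μ x ≤ I` for all `x`; by
`nl_pot_le`: `∫ nl d T (x - ξ) dμ ≤ M := (I.toReal - 1)/s` for all `T`, `x`. For `0 < d < 1` let `b = exp (2 (M+d))`.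
`cmpL_s` (`-2 < p < 0`): for `μ''` with `PK (closedBall 0 1) μ''`, `μ' = μ''.map (exp (-d) • ·)` lives on
`closedBall 0 (exp (-d))`, so (`energy_gp0L`, `ball_gp0L`) for `R` large
`∬ gp0 p R (b ‖x-y‖^2) dμ dμ ≤ ∬ gp0 p R (exp (-2d) ‖x-y‖^2) dμ'' dμ''`. Add to this both `ρ`-terms of `gp0_of_neg`:
`∬ (exp (-2d) ‖x-y‖^2)^(-p/2) dμ'' dμ'' ≤ ∬ (b ‖x-y‖^2)^(-p/2) dμ dμ` (all finite), i.e.
`exp (p d) en p μ'' ≤ exp (-p (M+d)) en p μ ≤ exp (-p (M+d)) supEn p K`; supremum over `μ''`, then `d → 0`.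
(Same as `cmp_neg` in B22b.)
`diamL_s`: as `diam_ge` in B23a. `energy_powL` for all `k`: `∬ ‖x-y‖^(2k) dmL dmL ≤ b^k (diam K)^(2k)`.
Let `0 < T < 2 exp (-d)`; then `P = (mL × mL) {‖x - y‖ > T} > 0`: take a unit vector `e1`; the open sets
`V± = {z : dist z (± r' e1) < ε}` have positive `mL` mass when `r'` is such that `btL (r' e1) > 0` (exists since
`integral_btL_pos`, and `btL d 0` is radial, `btL_formula`; automatically `exp (-d) ≤ r'`), and
`‖x - y‖ ≥ 2 r' - 2 ε > T` for `x ∈ V+`, `y ∈ V-`, `ε` small. So `T^(2k) P ≤ (b (diam K)^2)^k` for all `k`, hence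
`T^2 ≤ b (diam K)^2`. Let `T → 2 exp (-d)`, then `d → 0`.
-/

set_option autoImplicit false

open MeasureTheory Set Filter Topology
open scoped ENNReal ContDiff

namespace Pool.Agent.Lib.MP_6cd19d_an.ND

/-- Lower bound for the moments of a symmetric measure on a shell. -/
private theorem c22_lower {n : ℕ} {m : Measure (E n)} (hu : m univ = 1)
    (hneg : m.map (LinearIsometryEquiv.neg ℝ (E := E n)) = m) {r C : ℝ}
    (hsh : m {z | r ≤ ‖z‖ ∧ ‖z‖ ≤ C}ᶜ = 0) {ε : ℝ}
    (hε : 0 < ε) (hεr : ε < r) :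
    ∃ P : ℝ, 0 < P ∧ ∀ k : ℕ, ((2 * r - 2 * ε) ^ 2) ^ k * P ≤
      ∫ x, ∫ y, ‖x - y‖ ^ (2 * k) ∂m ∂m := by
  have hprob : IsProbabilityMeasure m := ⟨hu⟩
  set Sh : Set (E n) := {z | r ≤ ‖z‖ ∧ ‖z‖ ≤ C} with hSh
  have hShae : ∀ᵐ z ∂m, z ∈ Sh := hsh
  have hSh0 : m Sh ≠ 0 := by
    intro h0
    have h1 : ∀ᵐ z ∂m, z ∉ Sh := by
      rw [ae_iff]
      simpa using h0
    have h2 : ∀ᵐ z ∂m, False := by
      filter_upwards [hShae, h1] with z hz hz'
      exact hz' hz
    have h3 : m = 0 := by simpa using h2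
    rw [h3] at hu
    simp at hu
  obtain ⟨z0, hz0, hpos⟩ := exists_mem_forall_mem_nhdsWithin_pos_measure hSh0
  have hV : 0 < m (Metric.ball z0 ε) := hpos _ (mem_nhdsWithin_of_mem_nhds (Metric.ball_mem_nhds _ hε))
  have hV' : m (Metric.ball (-z0) ε) = m (Metric.ball z0 ε) := by
    conv_lhs => rw [← hneg]
    rw [Measure.map_apply (LinearIsometryEquiv.neg ℝ (E := E n)).continuous.measurable
      Metric.isOpen_ball.measurableSet]
    congr 1
    ext z
    simp only [mem_preimage, LinearIsometryEquiv.coe_neg, Metric.mem_ball]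
    rw [show -z = -(z) from rfl, dist_neg_neg]
  set a : ℝ := m.real (Metric.ball z0 ε) with ha
  have ha0 : 0 < a := ENNReal.toReal_pos hV.ne' (measure_ne_top _ _)
  have ha' : m.real (Metric.ball (-z0) ε) = a := by
    unfold Measure.real at ha ⊢
    rw [hV', ha]
  refine ⟨a * a, by positivity, fun k => ?_⟩
  set T : ℝ := 2 * r - 2 * ε with hT
  have hT0 : 0 < T := by rw [hT]; linarith
  rw [← pow_mul]
  have hdist : ∀ x ∈ Metric.ball z0 ε, ∀ y ∈ Metric.ball (-z0) ε, T ≤ ‖x - y‖ := by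
    intro x hx y hy
    rw [Metric.mem_ball, dist_eq_norm] at hx hy
    have h1 : (2 : ℝ) • z0 = (x - y) - (x - z0) + (y - -z0) := by
      rw [two_smul]
      abel
    have h2 : ‖(2 : ℝ) • z0‖ = 2 * ‖z0‖ := by rw [norm_smul, Real.norm_ofNat]
    have h3 : ‖(2 : ℝ) • z0‖ ≤ ‖x - y‖ + ‖x - z0‖ + ‖y - -z0‖ := by
      rw [h1]
      exact (norm_add_le _ _).trans (add_le_add (norm_sub_le _ _) le_rfl)
    have h4 := hz0.1
    rw [h2] at h3
    rw [hT]
    linarith
  have hbd : ∀ x ∈ Sh, ∀ y ∈ Sh, ‖x - y‖ ^ (2 * k) ≤ (2 * C) ^ (2 * k) := by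
    intro x hx y hy
    have h1 : ‖x - y‖ ≤ 2 * C := (norm_sub_le _ _).trans (by linarith [hx.2, hy.2])
    gcongr
  have hin : ∀ x ∈ Sh, Integrable (fun y => ‖x - y‖ ^ (2 * k)) m := by
    intro x hx
    refine Integrable.of_bound (C := (2 * C) ^ (2 * k))
      (Continuous.aestronglyMeasurable (by fun_prop)) ?_
    filter_upwards [hShae] with y hy
    rw [Real.norm_of_nonneg (by positivity)]
    exact hbd x hx y hy
  have hout : Integrable (fun x => ∫ y, ‖x - y‖ ^ (2 * k) ∂m) m := by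
    refine Integrable.of_bound (C := (2 * C) ^ (2 * k)) ?_ ?_
    · have h1 : StronglyMeasurable (Function.uncurry fun x y : E n => ‖x - y‖ ^ (2 * k)) := by
        refine Continuous.stronglyMeasurable ?_
        have : (Function.uncurry fun x y : E n => ‖x - y‖ ^ (2 * k)) =
          fun q : E n × E n => ‖q.1 - q.2‖ ^ (2 * k) := rfl
        rw [this]
        fun_prop
      exact h1.integral_prod_right.aestronglyMeasurable
    · filter_upwards [hShae] with x hx
      rw [Real.norm_of_nonneg (integral_nonneg fun y => by positivity)]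
      have h1 : ∫ y, ‖x - y‖ ^ (2 * k) ∂m ≤ ∫ _y, (2 * C) ^ (2 * k) ∂m := by
        refine integral_mono_of_nonneg (Eventually.of_forall fun y => by positivity)
          (integrable_const _) ?_
        filter_upwards [hShae] with y hy
        exact hbd x hx y hy
      simpa using h1
  have hinner : ∀ x ∈ Sh, x ∈ Metric.ball z0 ε → a * T ^ (2 * k) ≤ ∫ y, ‖x - y‖ ^ (2 * k) ∂m := by
    intro x hx hxV
    have h1 : ∫ y, (Metric.ball (-z0) ε).indicator (fun _ => T ^ (2 * k)) y ∂m ≤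
        ∫ y, ‖x - y‖ ^ (2 * k) ∂m := by
      refine integral_mono_of_nonneg (Eventually.of_forall fun y =>
        indicator_nonneg (fun _ _ => by positivity) y) (hin x hx) (Eventually.of_forall fun y => ?_)
      by_cases hy : y ∈ Metric.ball (-z0) ε
      · simp only [indicator_of_mem hy]
        have := hdist x hxV y hy
        gcongr
      · simp only [indicator_of_notMem hy]
        positivity
    rw [integral_indicator_const _ Metric.isOpen_ball.measurableSet, ha', smul_eq_mul] at h1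
    exact h1
  have h2 : ∫ x, (Metric.ball z0 ε).indicator (fun _ => a * T ^ (2 * k)) x ∂m ≤
      ∫ x, ∫ y, ‖x - y‖ ^ (2 * k) ∂m ∂m := by
    refine integral_mono_of_nonneg (Eventually.of_forall fun y =>
        indicator_nonneg (fun _ _ => by positivity) y) hout ?_
    filter_upwards [hShae] with x hx
    by_cases hx' : x ∈ Metric.ball z0 ε
    · simp only [indicator_of_mem hx']
      exact hinner x hx hx'
    · simp only [indicator_of_notMem hx']
      exact integral_nonneg fun y => by positivity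
  rw [integral_indicator_const _ Metric.isOpen_ball.measurableSet, smul_eq_mul] at h2
  refine le_trans (le_of_eq ?_) h2
  rw [← ha]
  ring

theorem diamL_s {s : ℝ} (hs : 0 < s) {K : Set (E 2)} (hK : IsCompact K)
    (hI : infEn s K ≠ ⊤) :
    2 ≤ Real.exp (((infEn s K).toReal - 1) / s) * Metric.diam K := by
  obtain ⟨μ, hPK, -, -, hpot⟩ := exists_equilibrium (n := 2) hs (by norm_num; exact hs.le) hK hI
  have hpot' : ∀ x, pot s μ x ≤ ENNReal.ofReal (infEn s K).toReal := by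
    intro x
    rw [ENNReal.ofReal_toReal hI]
    exact hpot x
  set M : ℝ := ((infEn s K).toReal - 1) / s with hMdef
  have hprob : IsProbabilityMeasure μ := ⟨hPK.1⟩
  have hae : ∀ᵐ x ∂μ, x ∈ K := hPK.2
  have hdiam : 0 ≤ Metric.diam K := Metric.diam_nonneg
  have hupper : ∀ k : ℕ, ∫ x, ∫ y, ‖x - y‖ ^ (2 * k) ∂μ ∂μ ≤ (Metric.diam K ^ 2) ^ k := by
    intro k
    rw [← pow_mul]
    have h1 : ∀ x ∈ K, ∫ y, ‖x - y‖ ^ (2 * k) ∂μ ≤ Metric.diam K ^ (2 * k) := by
      intro x hx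
      have h2 : ∫ y, ‖x - y‖ ^ (2 * k) ∂μ ≤ ∫ _y, Metric.diam K ^ (2 * k) ∂μ := by
        refine integral_mono_of_nonneg (Eventually.of_forall fun y => by positivity)
          (integrable_const _) ?_
        filter_upwards [hae] with y hy
        have := Metric.dist_le_diam_of_mem hK.isBounded hx hy
        rw [dist_eq_norm] at this
        show ‖x - y‖ ^ (2 * k) ≤ Metric.diam K ^ (2 * k)
        gcongr
      simpa using h2
    have h2 : ∫ x, ∫ y, ‖x - y‖ ^ (2 * k) ∂μ ∂μ ≤ ∫ _x, Metric.diam K ^ (2 * k) ∂μ := by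
      refine integral_mono_of_nonneg (Eventually.of_forall fun x =>
        integral_nonneg fun y => by positivity) (integrable_const _) ?_
      filter_upwards [hae] with x hx
      exact h1 x hx
    simpa using h2
  have step : ∀ d : ℝ, 0 < d → d < 1 → ∀ ε : ℝ, 0 < ε → ε < Real.exp (-d) →
      (2 * Real.exp (-d) - 2 * ε) ^ 2 ≤ Real.exp (2 * (M + d)) * Metric.diam K ^ 2 := by
    intro d hd hd1 ε hε hεr
    obtain ⟨P, hP, hlow⟩ := c22_lower (mL_univ hd hd1) (mL_rot hd hd1 _)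
      (mL_shell hd hd1) hε hεr
    set T2 : ℝ := (2 * Real.exp (-d) - 2 * ε) ^ 2 with hT2
    set b : ℝ := Real.exp (2 * (M + d)) with hb
    have hb0 : 0 < b := Real.exp_pos _
    have hT0 : 0 < T2 := by
      rw [hT2]
      have : 0 < 2 * Real.exp (-d) - 2 * ε := by linarith
      positivity
    by_contra hcon
    push Not at hcon
    have hq : ∀ k : ℕ, P ≤ (b * Metric.diam K ^ 2 / T2) ^ k := by
      intro k
      have h1 := hlow k
      have h2 := energy_powL k hd hd1 hK hPK (M := M) (fun T x =>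
        nl_pot_le hs hK hPK ENNReal.toReal_nonneg hpot' hd hd1 x)
      have h3 := hupper k
      have h4 : T2 ^ k * P ≤ (b * Metric.diam K ^ 2) ^ k := by
        rw [mul_pow]
        refine h1.trans (h2.trans ?_)
        rw [← hb]
        gcongr
      rw [div_pow, le_div_iff₀ (by positivity)]
      linarith
    have hlim := tendsto_pow_atTop_nhds_zero_of_lt_one (r := b * Metric.diam K ^ 2 / T2)
      (by positivity) (by rw [div_lt_one hT0]; exact hcon)
    have := ge_of_tendsto' hlim hq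
    linarith
  have step2 : ∀ d : ℝ, 0 < d → d < 1 → 2 * Real.exp (-d) ≤
      Real.exp (M + d) * Metric.diam K := by
    intro d hd hd1
    have hr0 : 0 < Real.exp (-d) := Real.exp_pos _
    have hlim : Tendsto (fun ε : ℝ => (2 * Real.exp (-d) - 2 * ε) ^ 2) (𝓝[>] 0)
        (𝓝 ((2 * Real.exp (-d)) ^ 2)) := by
      have h1 : Tendsto (fun ε : ℝ => (2 * Real.exp (-d) - 2 * ε) ^ 2) (𝓝 0)
          (𝓝 ((2 * Real.exp (-d) - 2 * 0) ^ 2)) :=
        Continuous.tendsto (by fun_prop) 0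
      rw [mul_zero, sub_zero] at h1
      exact h1.mono_left nhdsWithin_le_nhds
    have h2 : (2 * Real.exp (-d)) ^ 2 ≤ Real.exp (2 * (M + d)) * Metric.diam K ^ 2 := by
      refine le_of_tendsto hlim ?_
      filter_upwards [Ioo_mem_nhdsGT hr0] with ε hε
      exact step d hd hd1 ε hε.1 hε.2
    have h3 : Real.exp (2 * (M + d)) = Real.exp (M + d) ^ 2 := by
      rw [← Real.exp_nat_mul]
      push_cast
      rfl
    rw [h3, ← mul_pow] at h2
    refine le_of_sq_le_sq ?_ ?_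
    · exact h2
    · have := Real.exp_pos (M + d)
      positivity
  have hlim1 : Tendsto (fun d : ℝ => 2 * Real.exp (-d)) (𝓝[>] 0) (𝓝 2) := by
    have h1 : Tendsto (fun d : ℝ => 2 * Real.exp (-d)) (𝓝 0) (𝓝 (2 * Real.exp (-0))) :=
      Continuous.tendsto (by fun_prop) 0
    rw [neg_zero, Real.exp_zero, mul_one] at h1
    exact h1.mono_left nhdsWithin_le_nhds
  have hlim2 : Tendsto (fun d : ℝ => Real.exp (M + d) * Metric.diam K)
      (𝓝[>] 0) (𝓝 (Real.exp M * Metric.diam K)) := by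
    have h1 : Tendsto (fun d : ℝ => Real.exp (M + d) * Metric.diam K) (𝓝 0)
      (𝓝 (Real.exp (M + 0) * Metric.diam K)) :=
      Continuous.tendsto (by fun_prop) 0
    rw [add_zero] at h1
    exact h1.mono_left nhdsWithin_le_nhds
  refine le_of_tendsto_of_tendsto hlim1 hlim2 ?_
  filter_upwards [Ioo_mem_nhdsGT (zero_lt_one' ℝ)] with d hd
  exact step2 d hd.1 hd.2

end Pool.Agent.Lib.MP_6cd19d_an.ND
end

section

/-!
# The function F = f_p o f_q^(-1)
-/

set_option autoImplicit false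

open MeasureTheory Set Filter Topology Metric
open scoped ENNReal NNReal RealInnerProductSpace

namespace Pool.Agent.Lib.MP_6cd19d_an.T2

open Pool.Agent.Lib.MP_6cd19d_an.ND Pool.Agent.Lib.MP_6cd19d_an.A

variable {n : ℕ}

private theorem C4_th_pos {q l : ℝ} (hl : 0 < l) : 0 < th n q l :=
  mul_pos (Real.rpow_pos_of_pos hl _) (Real.rpow_pos_of_pos (by linarith) _)

private theorem C4_wt_mul {q l : ℝ} (hl : 0 < l) : wt n q l * l = q / 2 * th n q l := by
  have h1 : l ^ (((n : ℝ) - q) / 2 - 1) * l = l ^ (((n : ℝ) - q) / 2) := by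
    rw [← Real.rpow_add_one hl.ne']
    ring_nf
  rw [wt, th, ← h1]
  ring

private theorem C4_ratio {p q l : ℝ} (hq : 0 < q) (hl : 0 < l) :
    wt n p l = (p / q * l ^ ((q - p) / 2)) * wt n q l := by
  have h1 : l ^ (((n : ℝ) - p) / 2 - 1) = l ^ ((q - p) / 2) * l ^ (((n : ℝ) - q) / 2 - 1) := by
    rw [← Real.rpow_add hl]
    ring_nf
  rw [wt, wt, h1]
  field_simp

private theorem C4_inv {q l : ℝ} (hq : 0 < q) (hl : 0 < l) : (l ^ (-q / 2)) ^ (-2 / q) = l := by
  rw [← Real.rpow_mul hl.le]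
  have : -q / 2 * (-2 / q) = 1 := by
    field_simp
  rw [this, Real.rpow_one]

private theorem C4_deriv_L {q : ℝ} (hq0 : 0 < q) (hqn : q < n) {L : ℝ → ℝ}
    (hLc : ContinuousOn L (Ioo 0 (fq n q 0)))
    (hL : ∀ t ∈ Ioo 0 (fq n q 0), 0 < L t ∧ fq n q (L t) = t) {t : ℝ}
    (ht : t ∈ Ioo 0 (fq n q 0)) : HasDerivAt L (-(wt n q (L t))⁻¹) t := by
  have hw := wt_pos (n := n) hq0 (hL t ht).1
  have h := HasDerivAt.of_local_left_inverse (f := fq n q) (g := L)
    (hLc.continuousAt (Ioo_mem_nhds ht.1 ht.2)) (fq_hasDeriv hq0 hqn (hL t ht).1)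
    (neg_ne_zero.mpr hw.ne') (by
      filter_upwards [Ioo_mem_nhds ht.1 ht.2] with s hs
      exact (hL s hs).2)
  rwa [inv_neg] at h

private theorem C4_L_tendsto {q : ℝ} (hq0 : 0 < q) (hq2 : (n : ℝ) - 2 < q) (hqn : q < n)
    {L : ℝ → ℝ} (hL : ∀ t ∈ Ioo 0 (fq n q 0), 0 < L t ∧ fq n q (L t) = t) :
    Tendsto L (𝓝[>] 0) atTop := by
  have h0 : Tendsto (fun t : ℝ => t ^ (-2 / q)) (𝓝[>] 0) atTop := by
    have h1 : Tendsto (fun t : ℝ => (t⁻¹) ^ (2 / q)) (𝓝[>] 0) atTop :=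
      (tendsto_rpow_atTop (by positivity)).comp tendsto_inv_nhdsGT_zero
    refine h1.congr' ?_
    filter_upwards [self_mem_nhdsWithin] with t ht
    rw [Real.inv_rpow (le_of_lt ht), ← Real.rpow_neg (le_of_lt ht), neg_div]
  have h2 : Tendsto (fun t : ℝ => t ^ (-2 / q) - 1) (𝓝[>] 0) atTop :=
    tendsto_atTop_add_const_right _ (-1) h0
  refine tendsto_atTop_mono' _ ?_ h2
  filter_upwards [Ioo_mem_nhdsGT (fq_pos (n := n) hq0 hqn le_rfl)] with t ht
  obtain ⟨h3, h4⟩ := hL t ht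
  have h5 := (fq_bounds hq0 hq2 hqn h3).1
  rw [h4] at h5
  have h6 : t ^ (-2 / q) ≤ ((1 + L t) ^ (-q / 2)) ^ (-2 / q) :=
    Real.rpow_le_rpow_of_nonpos (Real.rpow_pos_of_pos (by linarith) _) h5
      (by rw [neg_div]; exact neg_nonpos.mpr (by positivity))
  rw [C4_inv hq0 (by linarith)] at h6
  linarith

/-- (T2-C4) Proof.  `L` from `exists_L` for `q`, `F = fq n p ∘ L`.  `HasDerivAt L (-1 / wt n q (L t)) t` (inverse function,
`HasDerivAt.of_local_left_inverse`, `fq_hasDeriv`), so `F1 t = wt n p (L t) / wt n q (L t) = (p/q) (L t)^((q-p)/2)`, hence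
`F2 t = (p/q) ((q-p)/2) (L t)^((q-p)/2-1) (-1 / wt n q (L t)) = -F1 t (q-p)/q / th n q (L t)`
(`wt n q l * l = (q/2) th n q l`).  `0 < F < fq n p 0` by `fq_strictAnti`.  Lower bound: `t = fq n q l ≤ l^(-q/2)` gives
`l ≤ t^(-2/q)`, and `F t = fq n p l ≥ (1+l)^(-p/2)`.  Limit at `0`: `F t = fq n p (L t)`, `t ≥ (1 + L t)^(-q/2)` so `L t → ∞` as `t → 0+`, and
`fq n p → 0` (`fq_tendsto`). -/
theorem exists_F {p q : ℝ} (hp0 : 0 < p) (hp2 : (n : ℝ) - 2 < p) (hpq : p < q) (hqn : q < n)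
    {L : ℝ → ℝ} (hLc : ContinuousOn L (Ioo 0 (fq n q 0)))
    (hL : ∀ t ∈ Ioo 0 (fq n q 0), 0 < L t ∧ fq n q (L t) = t)
    (hL' : ∀ l, 0 < l → L (fq n q l) = l) :
    ∃ F F1 F2 : ℝ → ℝ,
      (∀ t ∈ Ioo 0 (fq n q 0), HasDerivAt F (F1 t) t ∧ HasDerivAt F1 (F2 t) t ∧ 0 < F1 t ∧
        F2 t * th n q (L t) = -((q - p) / q) * F1 t ∧ 0 < th n q (L t) ∧ 0 < F t ∧
        F t < fq n p 0 ∧ (1 + t ^ (-2 / q)) ^ (-p / 2) ≤ F t) ∧
      Tendsto F (𝓝[>] 0) (𝓝 0) := by
  have hq0 : 0 < q := hp0.trans hpq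
  have hpn : p < n := hpq.trans hqn
  have hq2 : (n : ℝ) - 2 < q := hp2.trans hpq
  refine ⟨fun t => fq n p (L t), fun t => p / q * (L t) ^ ((q - p) / 2),
    fun t => p / q * (-(wt n q (L t))⁻¹ * ((q - p) / 2) * (L t) ^ ((q - p) / 2 - 1)), ?_, ?_⟩
  · intro t ht
    obtain ⟨hl, htl⟩ := hL t ht
    have hLd := C4_deriv_L hq0 hqn hLc hL ht
    have hw := wt_pos (n := n) hq0 hl
    have hth := C4_th_pos (n := n) (q := q) hl
    have hpow : (L t) ^ ((q - p) / 2 - 1) * L t = (L t) ^ ((q - p) / 2) := by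
      rw [← Real.rpow_add_one hl.ne']
      ring_nf
    refine ⟨?_, ?_, ?_, ?_, hth, fq_pos hp0 hpn hl.le, ?_, ?_⟩
    · have h := (fq_hasDeriv hp0 hpn hl).comp t hLd
      have h1 : -wt n p (L t) * -(wt n q (L t))⁻¹ = p / q * (L t) ^ ((q - p) / 2) := by
        rw [C4_ratio hq0 hl, neg_mul_neg, mul_assoc, mul_inv_cancel₀ hw.ne', mul_one]
      rw [h1] at h
      exact h
    · exact (hLd.rpow_const (p := (q - p) / 2) (Or.inl hl.ne')).const_mul (p / q)
    · exact mul_pos (div_pos hp0 hq0) (Real.rpow_pos_of_pos hl _)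
    · have h1 := C4_wt_mul (n := n) (q := q) hl
      have h2 : (wt n q (L t))⁻¹ * th n q (L t) = 2 / q * L t := by
        rw [inv_mul_eq_iff_eq_mul₀ hw.ne']
        field_simp
        linarith
      calc p / q * (-(wt n q (L t))⁻¹ * ((q - p) / 2) * (L t) ^ ((q - p) / 2 - 1)) *
            th n q (L t) = -(p / q * ((q - p) / 2) * (L t) ^ ((q - p) / 2 - 1) *
            ((wt n q (L t))⁻¹ * th n q (L t))) := by ring
        _ = -((q - p) / q) * (p / q * ((L t) ^ ((q - p) / 2 - 1) * L t)) := by rw [h2]; ring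
        _ = _ := by rw [hpow]
    · exact fq_strictAnti hp0 hpn (mem_Ici.mpr le_rfl) (mem_Ici.mpr hl.le) hl
    · have h1 := (fq_bounds hq0 hq2 hqn hl).2
      rw [htl] at h1
      have h2 : ((L t) ^ (-q / 2)) ^ (-2 / q) ≤ t ^ (-2 / q) :=
        Real.rpow_le_rpow_of_nonpos ht.1 h1
          (by rw [neg_div]; exact neg_nonpos.mpr (by positivity))
      rw [C4_inv hq0 hl] at h2
      refine le_trans ?_ (fq_bounds hp0 hp2 hpn hl).1
      exact Real.rpow_le_rpow_of_nonpos (by linarith) (by linarith)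
        (by rw [neg_div]; exact neg_nonpos.mpr (by positivity))
  · exact (fq_tendsto hp0 hpn).comp (C4_L_tendsto hq0 hq2 hqn hL)

end Pool.Agent.Lib.MP_6cd19d_an.T2
end
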