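import Pool.Agent.Lib.MP_6cd19d_an.ND.B04
import Pool.Agent.Lib.MP_6cd19d_an.ND.B07
import Pool.Agent.Lib.MP_6cd19d_an.A.G2

section

/-!
# The spheroidal coordinate
-/

set_option autoImplicit false

open MeasureTheory Set Filter Topology Metric
open scoped ENNReal NNReal RealInnerProductSpace

namespace Pool.Agent.Lib.MP_6cd19d_an.T2

open Pool.Agent.Lib.MP_6cd19d_an.ND Pool.Agent.Lib.MP_6cd19d_an.A

variable {n : ℕ}

theorem L1_disc_sq (z : E (n + 1)) : disc z ^ 2 = (‖z‖ ^ 2 - 1) ^ 2 + 4 * (yc z) ^ 2 := by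
  rw [disc, Real.sq_sqrt (by positivity)]

theorem L1_disc_nonneg (z : E (n + 1)) : 0 ≤ disc z := Real.sqrt_nonneg _

theorem L1_abs_le (z : E (n + 1)) : |‖z‖ ^ 2 - 1| ≤ disc z := by
  rw [disc]
  refine Real.abs_le_sqrt ?_
  nlinarith [sq_nonneg (yc z)]

/-- (T2-L1a) `l (l - A) = y²`, `A = ‖z‖² - 1`. -/
theorem lam_mul (z : E (n + 1)) : lam z * (lam z - (‖z‖ ^ 2 - 1)) = (yc z) ^ 2 := by
  rw [lam]
  linear_combination (1 / 4 : ℝ) * L1_disc_sq z

/-- (T2-L1b) `|x|² l + y² (1 + l) = l (1 + l)`. -/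
theorem lam_eq (z : E (n + 1)) :
    ‖prj z‖ ^ 2 * lam z + (yc z) ^ 2 * (1 + lam z) = lam z * (1 + lam z) := by
  have h1 := lam_mul z
  have h2 := norm_sq_eq z
  linear_combination (-1 : ℝ) * h1 - lam z * h2

/-- (T2-L1c) -/
theorem lam_nonneg (z : E (n + 1)) : 0 ≤ lam z := by
  rw [lam]
  have h := (abs_le.mp (L1_abs_le z)).1
  linarith

theorem L1_mem {z : E (n + 1)} (h1 : ‖z‖ ^ 2 ≤ 1) (h2 : yc z = 0) : z ∈ emb '' BB n := by
  rw [mem_emb_image]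
  refine ⟨?_, h2⟩
  have h3 := norm_sq_eq z
  rw [h2] at h3
  have h4 : ‖prj z‖ ^ 2 ≤ 1 := by linarith
  have h5 : ‖prj z‖ ≤ 1 := by
    nlinarith [norm_nonneg (prj z)]
  simpa [BB] using h5

theorem L1_mem' {z : E (n + 1)} (hz : z ∈ emb '' BB n) : ‖z‖ ^ 2 ≤ 1 ∧ yc z = 0 := by
  rw [mem_emb_image] at hz
  obtain ⟨h1, h2⟩ := hz
  refine ⟨?_, h2⟩
  have h3 := norm_sq_eq z
  rw [h2] at h3
  have h5 : ‖prj z‖ ≤ 1 := by simpa [BB] using h1
  nlinarith [norm_nonneg (prj z)]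

/-- (T2-L1d) `lam z = 0` exactly on the flat closed unit ball, and off it `lam`, `disc` are positive. -/
theorem lam_pos {z : E (n + 1)} (hz : z ∉ emb '' BB n) : 0 < lam z ∧ 0 < disc z := by
  have h0 := L1_disc_sq z
  constructor
  · rcases (lam_nonneg z).lt_or_eq with h | h
    · exact h
    · exfalso
      have h1 := lam_mul z
      rw [← h, zero_mul] at h1
      have h2 : yc z = 0 := by
        have : (yc z) ^ 2 = 0 := h1.symm
        exact pow_eq_zero_iff (two_ne_zero) |>.mp this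
      refine hz (L1_mem ?_ h2)
      have h3 : (‖z‖ ^ 2 - 1) + disc z = 0 := by
        rw [lam] at h
        linarith
      have h4 := L1_disc_nonneg z
      linarith
  · rcases (L1_disc_nonneg z).lt_or_eq with h | h
    · exact h
    · exfalso
      rw [← h] at h0
      have h1 : (‖z‖ ^ 2 - 1) ^ 2 = 0 := by nlinarith [sq_nonneg (‖z‖ ^ 2 - 1), sq_nonneg (yc z)]
      have h2 : (yc z) ^ 2 = 0 := by nlinarith [sq_nonneg (‖z‖ ^ 2 - 1), sq_nonneg (yc z)]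
      refine hz (L1_mem ?_ (pow_eq_zero_iff (two_ne_zero) |>.mp h2))
      have h3 := pow_eq_zero_iff (two_ne_zero) |>.mp h1
      linarith

theorem lam_zero {z : E (n + 1)} (hz : z ∈ emb '' BB n) : lam z = 0 := by
  obtain ⟨h1, h2⟩ := L1_mem' hz
  have h3 : disc z = 1 - ‖z‖ ^ 2 := by
    rw [disc, h2]
    have : (‖z‖ ^ 2 - 1) ^ 2 + 4 * (0 : ℝ) ^ 2 = (1 - ‖z‖ ^ 2) ^ 2 := by ring
    rw [this, Real.sqrt_sq (by linarith)]
  rw [lam, h3]
  ring

/-- (T2-L1e) -/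
theorem lam_bounds (z : E (n + 1)) : ‖z‖ ^ 2 - 1 ≤ lam z ∧ lam z ≤ ‖z‖ ^ 2 := by
  constructor
  · have h := (abs_le.mp (L1_abs_le z)).2
    rw [lam]
    linarith
  · have h : disc z ≤ ‖z‖ ^ 2 + 1 := by
      rw [disc]
      refine Real.sqrt_le_iff.mpr ⟨by positivity, ?_⟩
      have h3 := norm_sq_eq z
      nlinarith [sq_nonneg ‖prj z‖]
    rw [lam]
    linarith

/-- (T2-L1f) -/
theorem continuous_lam : Continuous (lam : E (n + 1) → ℝ) := by
  have h1 : Continuous (yc : E (n + 1) → ℝ) := by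
    unfold yc
    fun_prop
  have h2 : Continuous (disc : E (n + 1) → ℝ) := by
    unfold disc
    fun_prop
  unfold lam
  fun_prop

/-- (T2-L1g) On the hyperplane. -/
theorem lam_emb (x : E n) : lam (emb x) = max (‖x‖ ^ 2 - 1) 0 := by
  have h1 : ‖emb x‖ ^ 2 = ‖x‖ ^ 2 := by
    rw [norm_sq_eq, prj_emb, yc_emb]
    ring
  have h2 : disc (emb x) = |‖x‖ ^ 2 - 1| := by
    rw [disc, h1, yc_emb]
    have : (‖x‖ ^ 2 - 1) ^ 2 + 4 * (0 : ℝ) ^ 2 = (‖x‖ ^ 2 - 1) ^ 2 := by ring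
    rw [this, Real.sqrt_sq_eq_abs]
  rw [lam, h1, h2]
  rcases le_total 0 (‖x‖ ^ 2 - 1) with h | h
  · rw [abs_of_nonneg h, max_eq_left h]
    ring
  · rw [abs_of_nonpos h, max_eq_right h]
    ring

end Pool.Agent.Lib.MP_6cd19d_an.T2
end

section

/-!
# The second tail integral and the profile of the dual potentials
-/

set_option autoImplicit false

open MeasureTheory Set Filter Topology Metric
open scoped ENNReal NNReal RealInnerProductSpace

namespace Pool.Agent.Lib.MP_6cd19d_an.T2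

open Pool.Agent.Lib.MP_6cd19d_an.ND Pool.Agent.Lib.MP_6cd19d_an.A

variable {n : ℕ}

private theorem C3_bdd {q : ℝ} (hq0 : 0 < q) (hqn : q < n) {g : ℝ → ℝ} (hg : Measurable g) {C : ℝ}
    (hC : ∀ τ, 0 < τ → |g τ| ≤ C) : IntegrableOn (fun τ => g τ * wt n q τ) (Ioi 0) := by
  refine ((wt_integrable hq0 hqn).const_mul C).mono'
    (hg.aestronglyMeasurable.mul (wt_integrable hq0 hqn).aestronglyMeasurable) ?_
  refine (ae_restrict_iff' measurableSet_Ioi).2 (Eventually.of_forall fun τ hτ => ?_)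
  have h1 := wt_pos (n := n) hq0 (mem_Ioi.1 hτ)
  rw [norm_mul, Real.norm_eq_abs, Real.norm_eq_abs, abs_of_pos h1]
  exact mul_le_mul_of_nonneg_right (hC τ hτ) h1.le

private theorem C3_inv_int {q : ℝ} (hq0 : 0 < q) (hqn : q < n) {l : ℝ} (hl : 0 ≤ l) :
    IntegrableOn (fun τ => (1 + τ)⁻¹ * wt n q τ) (Ioi l) := by
  refine (C3_bdd hq0 hqn (C := 1) (by fun_prop) fun τ hτ => ?_).mono_set (Ioi_subset_Ioi hl)
  rw [abs_of_pos (by positivity)]
  exact inv_le_one_of_one_le₀ (by linarith)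

private theorem C3_wt_inv {q τ : ℝ} (hτ : 0 < τ) : (1 + τ)⁻¹ * wt n q τ =
    q / 2 * (τ ^ (((n : ℝ) - q) / 2 - 1) * (1 + τ) ^ (-(n : ℝ) / 2 - 1)) := by
  have h1 : (1 + τ) ≠ 0 := by positivity
  rw [wt, Real.rpow_sub_one h1]
  ring

/-- `(q/n) wq(l) = ∫_l^∞ wt/(1+τ)`. -/
private theorem C3_wq {q : ℝ} (hq0 : 0 < q) (hqn : q < n) {l : ℝ} (hl : 0 ≤ l) :
    q / n * wq n q l = ∫ τ in Ioi l, (1 + τ)⁻¹ * wt n q τ := by
  have hn : (0 : ℝ) < n := hq0.trans hqn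
  have h1 : ∫ τ in Ioi l, (1 + τ)⁻¹ * wt n q τ =
      ∫ τ in Ioi l, q / 2 * (τ ^ (((n : ℝ) - q) / 2 - 1) * (1 + τ) ^ (-(n : ℝ) / 2 - 1)) :=
    setIntegral_congr_fun measurableSet_Ioi fun τ hτ => C3_wt_inv (lt_of_le_of_lt hl hτ)
  rw [h1, integral_const_mul, wq]
  field_simp

private theorem C3_th_deriv {q τ : ℝ} (hτ : 0 < τ) : HasDerivAt (th n q)
    (-(wt n q τ - (n : ℝ) / q * ((1 + τ)⁻¹ * wt n q τ))) τ ∨ q = 0 := by
  by_cases hq : q = 0
  · exact Or.inr hq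
  left
  have h0 : (1 + τ) ≠ 0 := by positivity
  have h1 : HasDerivAt (fun x : ℝ => x ^ (((n : ℝ) - q) / 2))
      (((n : ℝ) - q) / 2 * τ ^ (((n : ℝ) - q) / 2 - 1)) τ :=
    Real.hasDerivAt_rpow_const (Or.inl hτ.ne')
  have h2 : HasDerivAt (fun x : ℝ => (1 + x) ^ (-(n : ℝ) / 2))
      (1 * (-(n : ℝ) / 2) * (1 + τ) ^ (-(n : ℝ) / 2 - 1)) τ :=
    ((hasDerivAt_id τ).const_add 1).rpow_const (Or.inl h0)
  have h3 := h1.mul h2
  refine h3.congr_deriv ?_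
  rw [C3_wt_inv hτ, wt]
  have h4 : τ ^ (((n : ℝ) - q) / 2) = τ ^ (((n : ℝ) - q) / 2 - 1) * τ := by
    rw [Real.rpow_sub_one hτ.ne']
    field_simp
  have h5 : (1 + τ) ^ (-(n : ℝ) / 2) = (1 + τ) ^ (-(n : ℝ) / 2 - 1) * (1 + τ) := by
    rw [Real.rpow_sub_one h0]
    field_simp
  rw [h4, h5]
  field_simp
  ring

private theorem C3_th_cont {q : ℝ} (hqn : q < n) {l : ℝ} (hl : 0 ≤ l) :
    ContinuousAt (th n q) l := by
  have h1 : ContinuousAt (fun x : ℝ => x ^ (((n : ℝ) - q) / 2)) l :=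
    Real.continuousAt_rpow_const l _ (Or.inr (by linarith))
  have h2 : ContinuousAt (fun x : ℝ => (1 + x) ^ (-(n : ℝ) / 2)) l :=
    ContinuousAt.rpow_const (by fun_prop) (Or.inl (by positivity))
  exact h1.mul h2

private theorem C3_th_tendsto {q : ℝ} (hq0 : 0 < q) : Tendsto (th n q) atTop (𝓝 0) := by
  have h1 : Tendsto (fun x : ℝ => x ^ (-(q / 2))) atTop (𝓝 0) :=
    tendsto_rpow_neg_atTop (by linarith)
  refine squeeze_zero' ?_ ?_ h1
  · filter_upwards [eventually_gt_atTop 0] with x hx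
    exact mul_nonneg (Real.rpow_nonneg hx.le _) (Real.rpow_nonneg (by linarith) _)
  · filter_upwards [eventually_gt_atTop 0] with x hx
    have h2 : (1 + x) ^ (-(n : ℝ) / 2) ≤ x ^ (-(n : ℝ) / 2) := by
      refine Real.rpow_le_rpow_of_nonpos hx (by linarith) ?_
      have : (0 : ℝ) ≤ n := Nat.cast_nonneg n
      linarith
    calc th n q x ≤ x ^ (((n : ℝ) - q) / 2) * x ^ (-(n : ℝ) / 2) :=
          mul_le_mul_of_nonneg_left h2 (Real.rpow_nonneg hx.le _)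
      _ = x ^ (-(q / 2)) := by
          rw [← Real.rpow_add hx]
          congr 1
          ring

/-- (T2-C3a) `fq - wq = th`: both sides tend to `0` at infinity and have the same derivative on `(0,∞)`
(`-(q/2) l^(a-1)(1+l)^(-n/2) + (n/2) l^(a-1) (1+l)^(-n/2-1)`, respectively
`a l^(a-1)(1+l)^(-n/2) - (n/2) l^a (1+l)^(-n/2-1)`, `a = (n-q)/2`); continuity at `l = 0`. -/
theorem fq_sub_wq {q : ℝ} (hq0 : 0 < q) (hqn : q < n) {l : ℝ} (hl : 0 ≤ l) :
    fq n q l - wq n q l = th n q l := by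
  have hn : (0 : ℝ) < n := hq0.trans hqn
  have i1 : IntegrableOn (wt n q) (Ioi l) := (wt_integrable hq0 hqn).mono_set (Ioi_subset_Ioi hl)
  have i2 : IntegrableOn (fun τ => (n : ℝ) / q * ((1 + τ)⁻¹ * wt n q τ)) (Ioi l) :=
    (C3_inv_int hq0 hqn hl).const_mul _
  have h1 := integral_Ioi_of_hasDerivAt_of_tendsto (C3_th_cont hqn hl).continuousWithinAt
    (fun x hx => (C3_th_deriv (n := n) (q := q) (lt_of_le_of_lt hl hx)).resolve_right hq0.ne')
    (i1.sub i2).neg (C3_th_tendsto hq0)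
  have h2 : ∫ x in Ioi l, -(wt n q x - (n : ℝ) / q * ((1 + x)⁻¹ * wt n q x)) =
      -(fq n q l - wq n q l) := by
    rw [integral_neg, integral_sub i1 i2, integral_const_mul, ← C3_wq hq0 hqn hl, fq]
    congr 2
    field_simp
  rw [h2, zero_sub, neg_inj] at h1
  exact h1

/-- (T2-C3b) Integrability. -/
theorem JJ_integrable {q : ℝ} (hq0 : 0 < q) (hqn : q < n) {P X : ℝ} (hP : 0 ≤ P) (hX : 0 ≤ X) :
    IntegrableOn (fun τ => max (P - X / (1 + τ)) 0 * wt n q τ) (Ioi 0) := by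
  refine C3_bdd hq0 hqn (C := P) (by fun_prop) fun τ hτ => ?_
  have h1 : 0 ≤ X / (1 + τ) := by positivity
  rw [abs_of_nonneg (le_max_right _ _)]
  exact max_le (by linarith) hP

/-- (T2-C3c) `JJ P X ≥ ∫ (P - X/(1+τ)) wt = P fq(0) - X (q/n) wq(0)` and `wq(0) = fq(0)` (`th 0 = 0`); `wt/(1+τ)` is `(q/n)` times the
integrand of `wq`. -/
theorem JJ_ge {q : ℝ} (hq0 : 0 < q) (hqn : q < n) {P X : ℝ} (hP : 0 ≤ P) (hX : 0 ≤ X) :
    fq n q 0 * (P - q / n * X) ≤ JJ n q P X := by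
  have hn : (0 : ℝ) < n := hq0.trans hqn
  have i1 : IntegrableOn (fun τ => P * wt n q τ) (Ioi 0) := (wt_integrable hq0 hqn).const_mul _
  have i2 : IntegrableOn (fun τ => X * ((1 + τ)⁻¹ * wt n q τ)) (Ioi 0) :=
    (C3_inv_int hq0 hqn le_rfl).const_mul _
  have h0 : wq n q 0 = fq n q 0 := by
    have h1 := fq_sub_wq (n := n) hq0 hqn le_rfl
    have h2 : th n q 0 = 0 := by
      rw [th, Real.zero_rpow (by linarith), zero_mul]
    linarith
  have h1 : ∫ τ in Ioi (0 : ℝ), (P * wt n q τ - X * ((1 + τ)⁻¹ * wt n q τ)) =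
      fq n q 0 * (P - q / n * X) := by
    rw [integral_sub i1 i2, integral_const_mul, integral_const_mul, ← C3_wq hq0 hqn le_rfl, h0, fq]
    ring
  rw [← h1, JJ]
  refine setIntegral_mono_on (i1.sub i2) (JJ_integrable hq0 hqn hP hX) measurableSet_Ioi
    fun τ hτ => ?_
  have h2 := wt_pos (n := n) hq0 (mem_Ioi.1 hτ)
  have h3 : P * wt n q τ - X * ((1 + τ)⁻¹ * wt n q τ) = (P - X / (1 + τ)) * wt n q τ := by ring
  rw [h3]
  exact mul_le_mul_of_nonneg_right (le_max_left _ _) h2.le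

/-- (T2-C3d) `P - (1+l)P/(1+τ) = P (τ-l)/(1+τ)` is positive exactly for `τ > l`. -/
theorem JJ_eq {q : ℝ} (hq0 : 0 < q) (hqn : q < n) {P l : ℝ} (hP : 0 < P) (hl : 0 ≤ l) :
    JJ n q P ((1 + l) * P) = P * (fq n q l - (1 + l) * (q / n) * wq n q l) := by
  have i1 : IntegrableOn (wt n q) (Ioi l) := (wt_integrable hq0 hqn).mono_set (Ioi_subset_Ioi hl)
  have i2 : IntegrableOn (fun τ => (1 + l) * ((1 + τ)⁻¹ * wt n q τ)) (Ioi l) :=
    (C3_inv_int hq0 hqn hl).const_mul _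
  have h1 : JJ n q P ((1 + l) * P) = ∫ τ in Ioi (0 : ℝ), (Ioi l).indicator
      (fun τ => P * (wt n q τ - (1 + l) * ((1 + τ)⁻¹ * wt n q τ))) τ := by
    rw [JJ]
    refine setIntegral_congr_fun measurableSet_Ioi fun τ hτ => ?_
    have hτ0 : 0 < τ := hτ
    have hτ1 : 0 < 1 + τ := by linarith
    have h2 : P - (1 + l) * P / (1 + τ) = P * ((τ - l) / (1 + τ)) := by
      field_simp
      ring
    change max (P - (1 + l) * P / (1 + τ)) 0 * wt n q τ = _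
    rw [h2]
    by_cases h3 : l < τ
    · rw [indicator_of_mem (mem_Ioi.2 h3), max_eq_left]
      · field_simp
        ring
      · have : 0 < τ - l := by linarith
        positivity
    · rw [indicator_of_notMem (by rw [mem_Ioi]; exact h3), max_eq_right, zero_mul]
      refine mul_nonpos_of_nonneg_of_nonpos hP.le (div_nonpos_of_nonpos_of_nonneg ?_ hτ1.le)
      linarith
  rw [h1, setIntegral_indicator measurableSet_Ioi,
    inter_eq_self_of_subset_right (Ioi_subset_Ioi hl), integral_const_mul, integral_sub i1 i2,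
    integral_const_mul, ← C3_wq hq0 hqn hl, fq]
  ring

/-- (T2-C3e) -/
theorem JJ_nonneg {q : ℝ} (hq0 : 0 < q) {P X : ℝ} : 0 ≤ JJ n q P X := by
  refine setIntegral_nonneg measurableSet_Ioi fun τ hτ => ?_
  exact mul_nonneg (le_max_right _ _) (wt_pos hq0 hτ).le

end Pool.Agent.Lib.MP_6cd19d_an.T2
end

section

/-!
# The Kelvin transform and its geometry
-/

set_option autoImplicit false

open MeasureTheory Set Filter Topology Metric
open scoped ENNReal NNReal RealInnerProductSpace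

namespace Pool.Agent.Lib.MP_6cd19d_an.T2

open Pool.Agent.Lib.MP_6cd19d_an.ND Pool.Agent.Lib.MP_6cd19d_an.A

variable {n : ℕ}

/-- A measure whose potential is finite at `a` has no atom at `a`. -/
theorem E1_atom {q : ℝ} (hq0 : 0 < q) {μ : Measure (E n)} {a : E n} (h : pot q μ a ≠ ⊤) :
    μ {a} = 0 := by
  by_contra hne
  apply h
  rw [eq_top_iff]
  have h1 : ∫⁻ y in {a}, (edist a y) ^ (-q) ∂μ ≤ pot q μ a := setLIntegral_le_lintegral _ _
  refine le_trans ?_ h1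
  rw [setLIntegral_congr_fun (g := fun _ => (⊤ : ℝ≥0∞)) (measurableSet_singleton a)]
  · rw [setLIntegral_const, ENNReal.top_mul hne]
  · intro y hy
    rw [mem_singleton_iff] at hy
    subst hy
    simp only [edist_self]
    exact ENNReal.zero_rpow_of_neg (by linarith)

/-- (T2-E1a) From `A.kelvin`: the right side is `∫⁻ y, (edist y 0)^(-q) * pot q μ (a + inv0 y) ∂Λ ≤ κ₀ * ∫⁻ (edist y 0)^(-q) ∂Λ = κ₀ * pot q Λ 0`; `Λ {0} = 0` because
`pot q Λ 0 < ⊤`. -/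
theorem kelvin_le {q : ℝ} (hq0 : 0 < q) {μ Λ : Measure (E n)} (hμ : μ univ ≠ ⊤) (hΛ : Λ univ ≠ ⊤)
    {κ₀ : ℝ≥0∞} (hU : ∀ x, pot q μ x ≤ κ₀) {a : E n} (ha : μ {a} = 0) (h0 : pot q Λ 0 ≠ ⊤) :
    ∫⁻ ξ, (edist ξ a) ^ (-q) * pot q Λ (inv0 (ξ - a)) ∂μ ≤ κ₀ * pot q Λ 0 := by
  rw [kelvin hq0 hμ hΛ ha (E1_atom hq0 h0)]
  have h1 : ∫⁻ y, (edist y 0) ^ (-q) * pot q μ (a + inv0 y) ∂Λ ≤
      ∫⁻ y, κ₀ * (edist 0 y) ^ (-q) ∂Λ := by
    refine lintegral_mono fun y => ?_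
    simp only
    rw [mul_comm κ₀, edist_comm]
    exact mul_le_mul_right (hU _) _
  refine h1.trans (le_of_eq ?_)
  have m : Measurable fun y : E n => (edist (0 : E n) y) ^ (-q) :=
    (measurable_const.edist measurable_id).pow_const _
  rw [lintegral_const_mul _ m, pot]

/-- (T2-E1b) A finite potential has no atoms. -/
theorem no_atom {q : ℝ} (hq0 : 0 < q) {μ : Measure (E n)} {κ₀ : ℝ≥0∞} (hκ : κ₀ ≠ ⊤)
    (hU : ∀ x, pot q μ x ≤ κ₀) (a : E n) : μ {a} = 0 :=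
  E1_atom hq0 (ne_top_of_le_ne_top hκ (hU a))

theorem E1_norm_sub {w B : E n} : ‖B - w‖ ^ 2 = ‖B‖ ^ 2 - 2 * ⟪w, B⟫ + ‖w‖ ^ 2 := by
  rw [norm_sub_sq_real, real_inner_comm]

/-- (T2-E1c) With `a = prj z - B`, `D = ‖B‖² + (yc z)²`, `H = |yc z| / D`, `b = D⁻¹ • B`, for `ξ ≠ a`:
`H² + ‖ξ* - b‖² = ‖z - ξ‖² / (‖ξ-a‖² D)`, `ξ* = inv0 (ξ - a)`.  (`w = ξ - a`: `‖z - ξ‖² = ‖B - w‖² + y² = D - 2 ⟪B, w⟫ + ‖w‖²`, and
`‖w/‖w‖² - B/D‖² = 1/‖w‖² - 2 ⟪B, w⟫/(‖w‖² D) + ‖B‖²/D²`.) -/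
theorem geom {z : E (n + 1)} {B ξ : E n} (hy : yc z ≠ 0) (hξ : ξ ≠ prj z - B) :
    (|yc z| / (‖B‖ ^ 2 + (yc z) ^ 2)) ^ 2 +
        ‖inv0 (ξ - (prj z - B)) - (‖B‖ ^ 2 + (yc z) ^ 2)⁻¹ • B‖ ^ 2 =
      ‖z - emb ξ‖ ^ 2 / (‖ξ - (prj z - B)‖ ^ 2 * (‖B‖ ^ 2 + (yc z) ^ 2)) := by
  set w := ξ - (prj z - B) with hw
  have hw0 : w ≠ 0 := sub_ne_zero.2 hξ
  have hwn : 0 < ‖w‖ := norm_pos_iff.2 hw0
  have hy2 : 0 < (yc z) ^ 2 := by positivity
  set D := ‖B‖ ^ 2 + (yc z) ^ 2 with hD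
  have hD0 : 0 < D := by positivity
  have h1 : ‖z - emb ξ‖ ^ 2 = ‖B‖ ^ 2 - 2 * ⟪w, B⟫ + ‖w‖ ^ 2 + (yc z) ^ 2 := by
    rw [norm_sub_emb_sq, ← E1_norm_sub]
    congr 3
    rw [hw]
    abel
  have h2 : (‖w‖ * ‖inv0 w - D⁻¹ • B‖) ^ 2 =
      1 - 2 * ⟪w, D⁻¹ • B⟫ + ‖w‖ ^ 2 * ‖D⁻¹ • B‖ ^ 2 := P1_sq hw0 _
  rw [real_inner_smul_right, norm_smul, norm_inv, Real.norm_of_nonneg hD0.le, mul_pow,
    mul_pow] at h2
  have h3 : ‖inv0 w - D⁻¹ • B‖ ^ 2 =
      (1 - 2 * (D⁻¹ * ⟪w, B⟫) + ‖w‖ ^ 2 * (D⁻¹ ^ 2 * ‖B‖ ^ 2)) / ‖w‖ ^ 2 := by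
    rw [eq_div_iff (by positivity)]
    linarith
  rw [h3, h1, div_pow, sq_abs]
  field_simp
  rw [hD]
  ring

/-- (T2-E1d) -/
theorem geom_zero {z : E (n + 1)} {B : E n} (hy : yc z ≠ 0) :
    (|yc z| / (‖B‖ ^ 2 + (yc z) ^ 2)) ^ 2 +
        ‖(0 : E n) - (‖B‖ ^ 2 + (yc z) ^ 2)⁻¹ • B‖ ^ 2 = (‖B‖ ^ 2 + (yc z) ^ 2)⁻¹ := by
  have hy2 : 0 < (yc z) ^ 2 := by positivity
  have hD0 : 0 < ‖B‖ ^ 2 + (yc z) ^ 2 := by positivity
  rw [zero_sub, norm_neg, norm_smul, norm_inv, Real.norm_of_nonneg hD0.le, mul_pow, div_pow,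
    sq_abs]
  field_simp
  ring

/-- The quantity `X_ξ = 2 - 2 y² |ξ-a|² / (D |ξ-z|²)`. -/
noncomputable def XX (z : E (n + 1)) (B ξ : E n) : ℝ :=
  2 - 2 * (yc z) ^ 2 * ‖ξ - (prj z - B)‖ ^ 2 / ((‖B‖ ^ 2 + (yc z) ^ 2) * ‖z - emb ξ‖ ^ 2)

/-- (T2-E1e) `2 r² / (H² + r²) = 2 - 2 H² / (H² + r²)` with `geom`. -/
theorem XX_eq {z : E (n + 1)} {B ξ : E n} (hy : yc z ≠ 0) (hξ : ξ ≠ prj z - B) :
    2 * ‖inv0 (ξ - (prj z - B)) - (‖B‖ ^ 2 + (yc z) ^ 2)⁻¹ • B‖ ^ 2 /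
      ((|yc z| / (‖B‖ ^ 2 + (yc z) ^ 2)) ^ 2 +
        ‖inv0 (ξ - (prj z - B)) - (‖B‖ ^ 2 + (yc z) ^ 2)⁻¹ • B‖ ^ 2) = XX z B ξ := by
  have hg := geom (z := z) (B := B) (ξ := ξ) hy hξ
  have hw0 : ξ - (prj z - B) ≠ 0 := sub_ne_zero.2 hξ
  have hwn : 0 < ‖ξ - (prj z - B)‖ := norm_pos_iff.2 hw0
  have hy2 : 0 < (yc z) ^ 2 := by positivity
  have hD0 : 0 < ‖B‖ ^ 2 + (yc z) ^ 2 := by positivity
  have hH : 0 < (|yc z| / (‖B‖ ^ 2 + (yc z) ^ 2)) ^ 2 := by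
    have : 0 < |yc z| := abs_pos.2 hy
    positivity
  have hz : 0 < ‖z - emb ξ‖ ^ 2 := by
    rw [norm_sub_emb_sq]
    positivity
  set r2 := ‖inv0 (ξ - (prj z - B)) - (‖B‖ ^ 2 + (yc z) ^ 2)⁻¹ • B‖ ^ 2 with hr2
  have hr0 : 0 ≤ r2 := by positivity
  have e1 : r2 = ‖z - emb ξ‖ ^ 2 / (‖ξ - (prj z - B)‖ ^ 2 * (‖B‖ ^ 2 + (yc z) ^ 2)) -
      (|yc z| / (‖B‖ ^ 2 + (yc z) ^ 2)) ^ 2 := by linarith
  have hz' : ‖z - emb ξ‖ ≠ 0 := by
    intro h
    rw [h] at hz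
    norm_num at hz
  rw [hg, e1, XX, div_pow, sq_abs]
  field_simp

/-- (T2-E1f) `XX` is a value of `2 r²/(H²+r²)` (for `ξ ≠ a`), and `XX = 2` for `ξ = a`. -/
theorem XX_nonneg {z : E (n + 1)} {B ξ : E n} (hy : yc z ≠ 0) : 0 ≤ XX z B ξ := by
  by_cases hξ : ξ = prj z - B
  · rw [XX, hξ, sub_self, norm_zero]
    norm_num
  · rw [← XX_eq hy hξ]
    positivity

end Pool.Agent.Lib.MP_6cd19d_an.T2
end

section

/-!
# The mixing density of the dual measure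
-/

set_option autoImplicit false

open MeasureTheory Set Filter Topology Metric
open scoped ENNReal NNReal RealInnerProductSpace

namespace Pool.Agent.Lib.MP_6cd19d_an.T2

open Pool.Agent.Lib.MP_6cd19d_an.ND Pool.Agent.Lib.MP_6cd19d_an.A

variable {n : ℕ}

/-- `R(s) = 2 s² / (H² + s²)`. -/
noncomputable def RR (H s : ℝ) : ℝ := 2 * s ^ 2 / (H ^ 2 + s ^ 2)

/-- `G(s) = H^(-q) 2^(-n/2) (P - R(s)) (2 - R(s))^(n/2)`. -/
noncomputable def GG (n : ℕ) (q H P s : ℝ) : ℝ :=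
  H ^ (-q) * (2 : ℝ) ^ (-(n : ℝ) / 2) * ((P - RR H s) * (2 - RR H s) ^ ((n : ℝ) / 2))

/-- `-G'(s)`. -/
noncomputable def gg (n : ℕ) (q H P s : ℝ) : ℝ :=
  H ^ (-q) * (2 : ℝ) ^ (-(n : ℝ) / 2) * (4 * H ^ 2 * s / (H ^ 2 + s ^ 2) ^ 2) *
    ((2 - RR H s) ^ ((n : ℝ) / 2) + (n : ℝ) / 2 * (P - RR H s) * (2 - RR H s) ^ ((n : ℝ) / 2 - 1))

/-- The zero of `P - R`. -/
noncomputable def AA (H P : ℝ) : ℝ := H * Real.sqrt (P / (2 - P))

/-- (T2-D1a) -/
theorem AA_pos {H P : ℝ} (hH : 0 < H) (hP : 0 < P) (hP2 : P < 2) : 0 < AA H P := by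
  have : 0 < P / (2 - P) := div_pos hP (by linarith)
  exact mul_pos hH (Real.sqrt_pos.2 this)

theorem D1_AA_sq {H P : ℝ} (hP : 0 < P) (hP2 : P < 2) :
    (AA H P) ^ 2 = H ^ 2 * (P / (2 - P)) := by
  have : 0 < P / (2 - P) := div_pos hP (by linarith)
  rw [AA, mul_pow, Real.sq_sqrt this.le]

theorem D1_den {H : ℝ} (s : ℝ) (hH : 0 < H) : 0 < H ^ 2 + s ^ 2 := by positivity

theorem D1_two_sub {H : ℝ} (s : ℝ) (hH : 0 < H) : 2 - RR H s = 2 * H ^ 2 / (H ^ 2 + s ^ 2) := by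
  have := D1_den s hH
  rw [RR]
  field_simp
  ring

theorem D1_two_sub_pos {H : ℝ} (s : ℝ) (hH : 0 < H) : 0 < 2 - RR H s := by
  rw [D1_two_sub s hH]
  positivity

theorem D1_RR_AA {H P : ℝ} (hH : 0 < H) (hP : 0 < P) (hP2 : P < 2) : RR H (AA H P) = P := by
  rw [RR, D1_AA_sq hP hP2]
  have h2 : 0 < 2 - P := by linarith
  field_simp
  ring

/-- (T2-D1b) For `s ≥ 0`: `R s < P ↔ s < AA`; and `0 ≤ R s < 2`. -/
theorem RR_lt_iff {H P s : ℝ} (hH : 0 < H) (hP : 0 < P) (hP2 : P < 2) (hs : 0 ≤ s) :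
    RR H s < P ↔ s < AA H P := by
  have h2 : 0 < 2 - P := by linarith
  have hd := D1_den s hH
  rw [← pow_lt_pow_iff_left₀ hs (AA_pos hH hP hP2).le two_ne_zero, D1_AA_sq hP hP2, RR,
    div_lt_iff₀ hd, ← mul_div_assoc, lt_div_iff₀ h2]
  constructor
  · intro h
    nlinarith
  · intro h
    nlinarith

theorem RR_nonneg {H s : ℝ} (hH : 0 < H) : 0 ≤ RR H s ∧ RR H s < 2 := by
  have hd := D1_den s hH
  refine ⟨by rw [RR]; positivity, ?_⟩
  have := D1_two_sub_pos s hH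
  linarith

theorem D1_hasDeriv_RR {H : ℝ} (s : ℝ) (hH : 0 < H) :
    HasDerivAt (RR H) (4 * H ^ 2 * s / (H ^ 2 + s ^ 2) ^ 2) s := by
  have hd := D1_den s hH
  have h1 : HasDerivAt (fun s : ℝ => 2 * s ^ 2) (2 * (2 * s)) s := by
    have := (hasDerivAt_pow 2 s).const_mul 2
    refine this.congr_deriv ?_
    push_cast
    ring
  have h2 : HasDerivAt (fun s : ℝ => H ^ 2 + s ^ 2) (2 * s) s := by
    have := (hasDerivAt_pow 2 s).const_add (H ^ 2)
    refine this.congr_deriv ?_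
    push_cast
    ring
  refine (h1.div h2 hd.ne').congr_deriv ?_
  congr 1
  ring

/-- (T2-D1c) -/
theorem hasDeriv_GG {n : ℕ} {q H P s : ℝ} (hH : 0 < H) :
    HasDerivAt (GG n q H P) (-gg n q H P s) s := by
  have h1 := D1_hasDeriv_RR s hH
  have h2 := h1.const_sub P
  have h3 := h1.const_sub 2
  have h4 : HasDerivAt (fun y => (2 - RR H y) ^ ((n : ℝ) / 2))
      (-(4 * H ^ 2 * s / (H ^ 2 + s ^ 2) ^ 2) * ((n : ℝ) / 2) *
        (2 - RR H s) ^ ((n : ℝ) / 2 - 1)) s :=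
    h3.rpow_const (Or.inl (D1_two_sub_pos s hH).ne')
  have h5 := (h2.mul h4).const_mul (H ^ (-q) * (2 : ℝ) ^ (-(n : ℝ) / 2))
  refine h5.congr_deriv ?_
  rw [gg]
  ring

/-- (T2-D1d) -/
theorem gg_nonneg {n : ℕ} {q H P s : ℝ} (hH : 0 < H) (hP : 0 < P) (hP2 : P < 2) (hs : 0 ≤ s)
    (hsA : s < AA H P) : 0 ≤ gg n q H P s := by
  have h1 := (RR_lt_iff hH hP hP2 hs).2 hsA
  have h2 := D1_two_sub_pos s hH
  have h3 : 0 < P - RR H s := by linarith
  have h4 := D1_den s hH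
  rw [gg]
  positivity

theorem D1_measurable_RR {H : ℝ} : Measurable (RR H) := by
  unfold RR
  fun_prop

theorem measurable_gg {n : ℕ} {q H P : ℝ} : Measurable (gg n q H P) := by
  have h := D1_measurable_RR (H := H)
  unfold gg
  fun_prop

theorem D1_continuous_RR {H : ℝ} (hH : 0 < H) : Continuous (RR H) := by
  unfold RR
  exact (by fun_prop : Continuous fun s : ℝ => 2 * s ^ 2).div (by fun_prop)
    (fun s => (D1_den s hH).ne')

theorem D1_continuous_gg {n : ℕ} {q H P : ℝ} (hH : 0 < H) : Continuous (gg n q H P) := by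
  have h := D1_continuous_RR hH
  have h1 : ∀ p : ℝ, Continuous fun s => (2 - RR H s) ^ p := fun p =>
    (continuous_const.sub h).rpow_const fun s => Or.inl (D1_two_sub_pos s hH).ne'
  unfold gg
  refine Continuous.mul (Continuous.mul continuous_const
    ((by fun_prop : Continuous fun s : ℝ => 4 * H ^ 2 * s).div (by fun_prop)
    (fun s => (pow_pos (D1_den s hH) 2).ne'))) ?_
  exact (h1 _).add ((continuous_const.mul (continuous_const.sub h)).mul (h1 _))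

/-- (T2-D1e) The fundamental theorem of calculus in `[0,∞]` form (`GG (AA) = 0`; for `s₀ ≥ AA` both sides are `0`). -/
theorem lintegral_gg {n : ℕ} {q H P s₀ : ℝ} (hH : 0 < H) (hP : 0 < P) (hP2 : P < 2)
    (hs : 0 ≤ s₀) : ∫⁻ s in Ioo s₀ (AA H P), ENNReal.ofReal (gg n q H P s) =
      ENNReal.ofReal (if s₀ < AA H P then GG n q H P s₀ else 0) := by
  by_cases h : s₀ < AA H P
  · rw [if_pos h, ← ofReal_integral_eq_lintegral_ofReal]
    · congr 1
      rw [← integral_Ioc_eq_integral_Ioo, ← intervalIntegral.integral_of_le h.le]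
      have h1 := intervalIntegral.integral_eq_sub_of_hasDerivAt (a := s₀) (b := AA H P)
        (f := fun s => -GG n q H P s) (f' := gg n q H P) (fun s _ => by
          have := (hasDeriv_GG (n := n) (q := q) (P := P) (s := s) hH).neg
          rwa [neg_neg] at this)
        (Continuous.intervalIntegrable (D1_continuous_gg hH) _ _)
      rw [h1]
      have h2 : GG n q H P (AA H P) = 0 := by
        rw [GG, D1_RR_AA hH hP hP2]
        ring
      rw [h2]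
      ring
    · exact ((D1_continuous_gg hH).continuousOn.integrableOn_Icc).mono_set Ioo_subset_Icc_self
    · rw [EventuallyLE, ae_restrict_iff' measurableSet_Ioo]
      exact Eventually.of_forall fun s hs' => gg_nonneg hH hP hP2 (hs.trans hs'.1.le) hs'.2
  · rw [if_neg h, Ioo_eq_empty h]
    simp

end Pool.Agent.Lib.MP_6cd19d_an.T2
end

section

/-!
# The scaling of the profile
-/

set_option autoImplicit false

open MeasureTheory Set Filter Topology Metric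
open scoped ENNReal NNReal RealInnerProductSpace

namespace Pool.Agent.Lib.MP_6cd19d_an.T2

open Pool.Agent.Lib.MP_6cd19d_an.ND Pool.Agent.Lib.MP_6cd19d_an.A

variable {n : ℕ}

theorem D2_point {q H P r : ℝ} (hH : 0 < H) (hP : 0 < P) (hP2 : P < 2)
    (hr : 0 ≤ r) {τ : ℝ} (hτ : 0 < τ) :
    (wt n q ((H ^ 2 + r ^ 2) / H ^ 2 * τ) *
      (if r / Real.sqrt (1 + (H ^ 2 + r ^ 2) / H ^ 2 * τ) < AA H P then
        GG n q H P (r / Real.sqrt (1 + (H ^ 2 + r ^ 2) / H ^ 2 * τ)) else 0)) *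
      ((H ^ 2 + r ^ 2) / H ^ 2) =
      (H ^ 2 + r ^ 2) ^ (-q / 2) *
        (max (P - 2 * r ^ 2 / (H ^ 2 + r ^ 2) / (1 + τ)) 0 * wt n q τ) := by
  have hN : 0 < H ^ 2 + r ^ 2 := by positivity
  set k : ℝ := (H ^ 2 + r ^ 2) / H ^ 2 with hk
  have hk0 : 0 < k := by positivity
  set s : ℝ := r / Real.sqrt (1 + k * τ) with hs
  have h1 : 0 < 1 + k * τ := by positivity
  have hs0 : 0 ≤ s := by positivity
  have hs2 : s ^ 2 = r ^ 2 / (1 + k * τ) := by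
    rw [hs, div_pow, Real.sq_sqrt h1.le]
  have hH2k : H ^ 2 * k = H ^ 2 + r ^ 2 := by
    rw [hk]
    field_simp
  have hRR : RR H s = 2 * r ^ 2 / (H ^ 2 + r ^ 2) / (1 + τ) := by
    rw [RR, hs2]
    have h3 : H ^ 2 + r ^ 2 / (1 + k * τ) = (H ^ 2 + r ^ 2) * (1 + τ) / (1 + k * τ) := by
      rw [eq_div_iff h1.ne', add_mul, div_mul_cancel₀ _ h1.ne']
      linear_combination τ * hH2k
    rw [h3]
    field_simp
  have h2R : 2 - RR H s = 2 * (k⁻¹ * (1 + k * τ) * (1 + τ)⁻¹) := by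
    rw [D1_two_sub s hH, hs2]
    have h3 : H ^ 2 + r ^ 2 / (1 + k * τ) = (H ^ 2 * k) * (1 + τ) / (1 + k * τ) := by
      rw [eq_div_iff h1.ne', add_mul, div_mul_cancel₀ _ h1.ne']
      linear_combination (τ - (1 + τ)) * hH2k
    rw [h3]
    field_simp
  by_cases hlt : s < AA H P
  · have hR := (RR_lt_iff hH hP hP2 hs0).2 hlt
    rw [if_pos hlt, GG, h2R, hRR]
    rw [hRR] at hR
    rw [max_eq_left (by linarith)]
    rw [Real.mul_rpow (by norm_num) (by positivity), Real.mul_rpow (by positivity) (by positivity),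
      Real.mul_rpow (by positivity) (by positivity), Real.inv_rpow hk0.le,
      Real.inv_rpow (by positivity)]
    rw [wt, wt, Real.mul_rpow hk0.le hτ.le]
    have e1 : (2 : ℝ) ^ (-(n : ℝ) / 2) * (2 : ℝ) ^ ((n : ℝ) / 2) = 1 := by
      rw [← Real.rpow_add (by norm_num)]
      have : -(n : ℝ) / 2 + (n : ℝ) / 2 = 0 := by ring
      rw [this, Real.rpow_zero]
    have e2 : (1 + k * τ) ^ (-(n : ℝ) / 2) * (1 + k * τ) ^ ((n : ℝ) / 2) = 1 := by
      rw [← Real.rpow_add h1]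
      have : -(n : ℝ) / 2 + (n : ℝ) / 2 = 0 := by ring
      rw [this, Real.rpow_zero]
    have e3 : ((1 + τ) ^ ((n : ℝ) / 2))⁻¹ = (1 + τ) ^ (-(n : ℝ) / 2) := by
      rw [← Real.rpow_neg (by positivity)]
      congr 1
      ring
    have e4 : H ^ (-q) * (k ^ (((n : ℝ) - q) / 2 - 1) * (k ^ ((n : ℝ) / 2))⁻¹ * k) =
        (H ^ 2 + r ^ 2) ^ (-q / 2) := by
      rw [← Real.rpow_neg hk0.le, ← Real.rpow_add hk0]
      nth_rewrite 2 [← Real.rpow_one k]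
      rw [← Real.rpow_add hk0, ← hH2k, Real.mul_rpow (by positivity) hk0.le,
        ← Real.rpow_natCast H 2, ← Real.rpow_mul hH.le]
      congr 2
      · push_cast
        ring
      · ring
    rw [e3, ← e4]
    linear_combination (exp := 1)
      (q / 2 * (k ^ (((n : ℝ) - q) / 2 - 1) * τ ^ (((n : ℝ) - q) / 2 - 1)) *
        (H ^ (-q) * (P - 2 * r ^ 2 / (H ^ 2 + r ^ 2) / (1 + τ)) * (k ^ ((n : ℝ) / 2))⁻¹ *
          (1 + τ) ^ (-(n : ℝ) / 2)) * k) *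
        ((1 + k * τ) ^ (-(n : ℝ) / 2) * (1 + k * τ) ^ ((n : ℝ) / 2) * e1 + e2)
  · have hR : P ≤ RR H s := by
      by_contra hc
      exact hlt ((RR_lt_iff hH hP hP2 hs0).1 (not_le.1 hc))
    rw [if_neg hlt, ← hRR, max_eq_right (by linarith)]
    ring

/-- (T2-D2) Substitution `τ = τ' k`, `k = (H² + r²)/H²`, `X = 2 r²/(H² + r²)`.

With `s₀ = r / √(1+τ)`: `R(s₀) = 2 r² / ((1+τ) H² + r²) = X / (1+τ')`, `2 - R(s₀) = 2 (1+τ) H² / ((H²+r²) (1+τ'))`, and `s₀ < AA ↔ R(s₀) < P`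
(`RR_lt_iff`).  So the integrand is `H^(-q) max (P - X/(1+τ')) 0 * 2^(-n/2) (2 (1+τ) H²/((H²+r²)(1+τ')))^(n/2) (q/2) τ^((n-q)/2-1) (1+τ)^(-n/2)`; the powers of `1+τ` cancel,
`τ^((n-q)/2-1) dτ = k^((n-q)/2) τ'^((n-q)/2-1) dτ'`, and `H^(-q) k^(-n/2) k^((n-q)/2) = H^(-q) k^(-q/2) = (H²+r²)^(-q/2)`.
(`lintegral_comp_mul_left_Ioi`-type substitution, or for the real integral `integral_comp_mul_left_Ioi` and `ofReal_integral_eq_lintegral_ofReal` with `JJ_integrable`.) -/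
theorem scaling {q H P r : ℝ} (hq0 : 0 < q) (hqn : q < n) (hH : 0 < H) (hP : 0 < P) (hP2 : P < 2)
    (hr : 0 ≤ r) :
    ∫⁻ τ in Ioi (0 : ℝ), ENNReal.ofReal (wt n q τ) *
        ENNReal.ofReal (if r / Real.sqrt (1 + τ) < AA H P then
          GG n q H P (r / Real.sqrt (1 + τ)) else 0) =
      ENNReal.ofReal ((H ^ 2 + r ^ 2) ^ (-q / 2) * JJ n q P (2 * r ^ 2 / (H ^ 2 + r ^ 2))) := by
  have hN : 0 < H ^ 2 + r ^ 2 := by positivity
  have hX : 0 ≤ 2 * r ^ 2 / (H ^ 2 + r ^ 2) := by positivity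
  have hwt : ∀ τ ∈ Ioi (0 : ℝ), 0 ≤ wt n q τ := by
    intro τ hτ
    have : 0 < τ := hτ
    rw [wt]
    positivity
  set Φ : ℝ → ℝ := fun τ => wt n q τ * (if r / Real.sqrt (1 + τ) < AA H P then
          GG n q H P (r / Real.sqrt (1 + τ)) else 0) with hΦ
  have hGG : ∀ τ ∈ Ioi (0 : ℝ), 0 ≤ (if r / Real.sqrt (1 + τ) < AA H P then
          GG n q H P (r / Real.sqrt (1 + τ)) else 0) := by
    intro τ hτ
    have hτ0 : 0 < τ := hτ
    split_ifs with h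
    · have h1 := (RR_lt_iff hH hP hP2 (by positivity)).2 h
      have h2 := D1_two_sub_pos (r / Real.sqrt (1 + τ)) hH
      rw [GG]
      have h3 : 0 < P - RR H (r / Real.sqrt (1 + τ)) := by linarith
      positivity
    · exact le_rfl
  have e1 : ∫⁻ τ in Ioi (0 : ℝ), ENNReal.ofReal (wt n q τ) *
        ENNReal.ofReal (if r / Real.sqrt (1 + τ) < AA H P then
          GG n q H P (r / Real.sqrt (1 + τ)) else 0) =
      ∫⁻ τ in Ioi (0 : ℝ), ENNReal.ofReal (Φ τ) := by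
    refine setLIntegral_congr_fun measurableSet_Ioi fun τ hτ => ?_
    exact (ENNReal.ofReal_mul (hwt τ hτ)).symm
  set k : ℝ := (H ^ 2 + r ^ 2) / H ^ 2 with hk
  have hk0 : 0 < k := by positivity
  set C : ℝ := (H ^ 2 + r ^ 2) ^ (-q / 2) with hC
  have hpt : ∀ τ ∈ Ioi (0 : ℝ), Φ (k * τ) = k⁻¹ * (C *
      (max (P - 2 * r ^ 2 / (H ^ 2 + r ^ 2) / (1 + τ)) 0 * wt n q τ)) := by
    intro τ hτ
    have h := D2_point (n := n) (q := q) hH hP hP2 hr (τ := τ) hτ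
    rw [← hC, ← hk] at h
    rw [← h, hΦ]
    field_simp
  have hint0 : IntegrableOn (fun τ => Φ (k * τ)) (Ioi 0) := by
    refine IntegrableOn.congr_fun ?_ (fun τ hτ => (hpt τ hτ).symm) measurableSet_Ioi
    exact ((JJ_integrable hq0 hqn hP.le hX).const_mul C).const_mul k⁻¹
  have hint : IntegrableOn Φ (Ioi 0) := by
    have := (integrableOn_Ioi_comp_mul_left_iff Φ 0 hk0).1 hint0
    rwa [mul_zero] at this
  rw [e1, ← ofReal_integral_eq_lintegral_ofReal hint]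
  · congr 1
    have h1 := integral_comp_mul_left_Ioi Φ 0 hk0
    rw [mul_zero, smul_eq_mul] at h1
    have h2 : ∫ τ in Ioi (0 : ℝ), Φ (k * τ) = k⁻¹ * (C * JJ n q P (2 * r ^ 2 / (H ^ 2 + r ^ 2))) := by
      rw [setIntegral_congr_fun measurableSet_Ioi hpt, integral_const_mul, integral_const_mul, JJ]
    rw [h2] at h1
    exact (mul_left_cancel₀ (inv_ne_zero hk0.ne') h1).symm
  · rw [EventuallyLE, ae_restrict_iff' measurableSet_Ioi]
    exact Eventually.of_forall fun τ hτ => mul_nonneg (hwt τ hτ) (hGG τ hτ)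

end Pool.Agent.Lib.MP_6cd19d_an.T2
end

section

/-!
# The operator LL on Riesz potentials of measures on the hyperplane
-/

set_option autoImplicit false

open MeasureTheory Set Filter Topology Metric
open scoped ENNReal NNReal RealInnerProductSpace

namespace Pool.Agent.Lib.MP_6cd19d_an.T2

open Pool.Agent.Lib.MP_6cd19d_an.ND Pool.Agent.Lib.MP_6cd19d_an.A

variable {n : ℕ}

/-- (T2-G1a) The last component of the vector potential: `yc (ξ - z) = - yc z` for `ξ` in the hyperplane. -/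
theorem yc_vV {q : ℝ} {K : Set (E n)} (hK : IsCompact K) {μ : Measure (E n)}
    (hfin : μ univ ≠ ⊤) (hμ : μ Kᶜ = 0) {z : E (n + 1)} (hz : z ∉ emb '' K) :
    yc (vV q (up μ) z) = -(yc z) * rS q (up μ) z := by
  have hfin' : (up μ) univ ≠ ⊤ := by rwa [up_univ]
  have hint := ((integrable_rpow (p := -q - 2) (isCompact_emb hK) hfin' (up_compl hμ) hz).2 0).2
  have h3 := (EuclideanSpace.proj (Fin.last n) : E (n + 1) →L[ℝ] ℝ).integral_comp_comm hint
  have h4 : yc (vV q (up μ) z) =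
      ∫ y, ‖z - y‖ ^ (-q - 2) * (y (Fin.last n) - z (Fin.last n)) ∂(up μ) := by
    rw [yc, vV]
    refine Eq.trans h3.symm ?_
    refine integral_congr_ae (Eventually.of_forall fun y => ?_)
    simp
  rw [h4, rS, integral_up, integral_up, ← integral_const_mul]
  refine integral_congr_ae (Eventually.of_forall fun ξ => ?_)
  show ‖z - emb ξ‖ ^ (-q - 2) * ((emb ξ) (Fin.last n) - z (Fin.last n)) =
    -(yc z) * ‖z - emb ξ‖ ^ (-q - 2)
  have h5 : (emb ξ : E (n + 1)) (Fin.last n) = 0 := by simp [emb]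
  rw [h5, yc]
  ring

/-- (T2-G1b) `LL (p+1-n)` of the potential is `q (q-p) rS`.

Proof.  `ND.hasD2_pot` for the measure `up μ` on the compact `emb '' K` (`up_compl`, `isCompact_emb`, `up_univ`), with the explicit second derivatives;
`ND.lap_pot` in dimension `n+1`: `∑ b = q (q+2-(n+1)) rS`.  `a i = q (vV i)` as in `A.hasD2_rU`.  If `yc z ≠ 0`: `a_last / yc z = - q rS` (`yc_vV`).  If `yc z = 0`:
`b_last = ∫ (-q ‖z-w‖^(-q-2) + q (q+2) (z_last - w_last)² ‖z-w‖^(-q-4)) d(up μ)` with `w_last = 0 = z_last` (`up μ`-a.e., `integral_up`), so `b_last = -q rS`.  In both cases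
`LL = q (q+1-n) rS + (p+1-n)(-q) rS = q (q-p) rS`. -/
theorem LL_rU {q : ℝ} (p : ℝ) {K : Set (E n)} (hK : IsCompact K) {μ : Measure (E n)}
    (hfin : μ univ ≠ ⊤) (hμ : μ Kᶜ = 0) {z : E (n + 1)} (hz : z ∉ emb '' K) :
    ∃ b : Fin (n + 1) → ℝ, HasD2 (rU q (up μ)) z (fun i => q * (vV q (up μ) z) i) b ∧
      LL (p + 1 - n) (fun i => q * (vV q (up μ) z) i) b z = q * (q - p) * rS q (up μ) z := by
  have hfin' : (up μ) univ ≠ ⊤ := by rwa [up_univ]
  have : IsFiniteMeasure (up μ) := ⟨hfin'.lt_top⟩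
  have h1 := hasD2_pot q (isCompact_emb hK) (up_compl hμ) hz
  have h2 := lap_pot q (isCompact_emb hK) (up_compl hμ) hz
  have e : (fun i => q * (vV q (up μ) z) i) =
      fun i => ∫ y, (-q) * (z i - y i) * ‖z - y‖ ^ (-q - 2) ∂(up μ) := by
    funext i
    have hint := ((integrable_rpow (p := -q - 2) (isCompact_emb hK) hfin' (up_compl hμ) hz).2 0).2
    have h3 := (EuclideanSpace.proj i : E (n + 1) →L[ℝ] ℝ).integral_comp_comm hint
    have h4 : (vV q (up μ) z) i = ∫ y, ‖z - y‖ ^ (-q - 2) * (y i - z i) ∂(up μ) := by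
      rw [vV]
      refine Eq.trans h3.symm ?_
      refine integral_congr_ae (Eventually.of_forall fun y => ?_)
      simp
    rw [h4, ← integral_const_mul]
    refine integral_congr_ae (Eventually.of_forall fun y => ?_)
    show q * (‖z - y‖ ^ (-q - 2) * (y i - z i)) = (-q) * (z i - y i) * ‖z - y‖ ^ (-q - 2)
    ring
  refine ⟨_, by rw [e]; exact h1, ?_⟩
  have h5 := yc_vV (q := q) hK hfin hμ hz
  have h6 : ((n + 1 : ℕ) : ℝ) = (n : ℝ) + 1 := by push_cast; ring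
  rw [h6] at h2
  rw [LL, h2]
  by_cases h0 : yc z = 0
  · rw [if_pos h0]
    have h7 : (∫ y, ((-q) * ‖z - y‖ ^ (-q - 2) + q * (q + 2) *
        (z (Fin.last n) - y (Fin.last n)) ^ 2 * ‖z - y‖ ^ (-q - 4)) ∂(up μ)) =
        (-q) * rS q (up μ) z := by
      rw [rS, integral_up, integral_up, ← integral_const_mul]
      refine integral_congr_ae (Eventually.of_forall fun ξ => ?_)
      show (-q) * ‖z - emb ξ‖ ^ (-q - 2) + q * (q + 2) *
        (z (Fin.last n) - (emb ξ : E (n + 1)) (Fin.last n)) ^ 2 * ‖z - emb ξ‖ ^ (-q - 4) =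
        (-q) * ‖z - emb ξ‖ ^ (-q - 2)
      have h8 : (emb ξ : E (n + 1)) (Fin.last n) = 0 := by simp [emb]
      have h9 : z (Fin.last n) = 0 := h0
      rw [h8, h9]
      ring
    rw [h7]
    show q * (q + 2 - ((n : ℝ) + 1)) * rS q (up μ) z + (p + 1 - n) * ((-q) * rS q (up μ) z) = _
    ring
  · rw [if_neg h0]
    have h10 : q * (vV q (up μ) z) (Fin.last n) / yc z = (-q) * rS q (up μ) z := by
      have h11 : (vV q (up μ) z) (Fin.last n) = -(yc z) * rS q (up μ) z := h5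
      rw [h11]
      field_simp
    show q * (q + 2 - ((n : ℝ) + 1)) * rS q (up μ) z +
      (p + 1 - n) * (q * (vV q (up μ) z) (Fin.last n) / yc z) = _
    rw [h10]
    ring

/-- (T2-G1c) Continuity of the vector potential off the compact set (each component by `continuousAt_of_dominated`, or all at once). -/
theorem continuousAt_vV {m : ℕ} {q : ℝ} {K : Set (E m)} (hK : IsCompact K) {μ : Measure (E m)}
    (hfin : μ univ ≠ ⊤) (hμ : μ Kᶜ = 0) {x : E m} (hx : x ∉ K) :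
    ContinuousAt (vV q μ) x := by
  have : IsFiniteMeasure μ := ⟨hfin.lt_top⟩
  have hae : ∀ᵐ y ∂μ, y ∈ K := by
    rw [ae_iff]
    exact hμ
  have h1 : Kᶜ ∈ 𝓝 x := hK.isClosed.isOpen_compl.mem_nhds hx
  obtain ⟨ε, hε, hball⟩ := Metric.nhds_basis_closedBall.mem_iff.1 h1
  have hc : ContinuousOn (fun p : E m × E m => ‖p.1 - p.2‖ ^ (-q - 2) • (p.2 - p.1))
      (closedBall x ε ×ˢ K) := by
    refine ContinuousOn.smul (ContinuousOn.rpow_const (by fun_prop) fun p hp => Or.inl ?_)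
      (by fun_prop)
    rw [norm_ne_zero_iff, sub_ne_zero]
    intro h
    exact hball hp.1 (h ▸ hp.2)
  obtain ⟨C, hC⟩ := ((isCompact_closedBall x ε).prod hK).exists_bound_of_continuousOn hc
  have hnh : closedBall x ε ∈ 𝓝 x := closedBall_mem_nhds x hε
  refine continuousAt_of_dominated (bound := fun _ => C) ?_ ?_ (integrable_const C) ?_
  · filter_upwards [hnh] with z hz
    exact ((integrable_rpow (p := -q - 2) hK hfin hμ (hball hz)).2 0).2.aestronglyMeasurable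
  · filter_upwards [hnh] with z hz
    filter_upwards [hae] with y hy
    exact hC (z, y) ⟨hz, hy⟩
  · filter_upwards [hae] with y hy
    refine ContinuousAt.smul (ContinuousAt.rpow_const (by fun_prop) (Or.inl ?_)) (by fun_prop)
    rw [norm_ne_zero_iff, sub_ne_zero]
    rintro rfl
    exact hx hy

end Pool.Agent.Lib.MP_6cd19d_an.T2
end
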